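import Mathlib

/-!
# Graphs given by adjacency matrices
-/

namespace Pool.Agent.H622R2

/-- The entry in row `i` and column `j` of a Boolean matrix given as a list of rows
(`false` outside the matrix). -/
def entry (M : List (List Bool)) (i j : ℕ) : Bool := (M.getD i []).getD j false

/-- The finite simple graph with adjacency matrix `M`: its vertices are `0, ..., n - 1`, where `n`
is the number of rows of `M`, and two distinct vertices `i`, `j` are adjacent when the entry
`(i, j)` or the entry `(j, i)` is `true`. -/
def matGraph (M : List (List Bool)) : SimpleGraph (Fin M.length) where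
  Adj i j := i ≠ j ∧ (entry M i j = true ∨ entry M j i = true)
  symm := ⟨fun _ _ h => ⟨h.1.symm, h.2.symm⟩⟩
  loopless := ⟨fun _ h => h.1 rfl⟩

/-- The adjacency matrix of a graph given by a list of labels and an adjacency test. -/
def mat {α : Type} (vs : List α) (adj : α → α → Bool) : List (List Bool) :=
  vs.map fun u => vs.map fun v => adj u v

/-- The graph on the labels in a list, adjacency given by a test. -/
def labGraph {α : Type} (vs : List α) (adj : α → α → Bool) : SimpleGraph {x // x ∈ vs} where
  Adj u v := u ≠ v ∧ (adj u.1 v.1 = true ∨ adj v.1 u.1 = true)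
  symm := ⟨fun _ _ h => ⟨h.1.symm, h.2.symm⟩⟩
  loopless := ⟨fun _ h => h.1 rfl⟩

theorem mat_length {α : Type} (vs : List α) (adj : α → α → Bool) :
    (mat vs adj).length = vs.length := by simp [mat]

theorem entry_mat {α : Type} (vs : List α) (adj : α → α → Bool) (i j : ℕ)
    (hi : i < vs.length) (hj : j < vs.length) : entry (mat vs adj) i j = adj vs[i] vs[j] := by
  unfold entry mat
  rw [List.getD_eq_getElem?_getD (l := List.map _ _), List.getElem?_map,
    List.getElem?_eq_getElem hi]
  simp only [Option.map_some, Option.getD_some]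
  rw [List.getD_eq_getElem?_getD, List.getElem?_map, List.getElem?_eq_getElem hj]
  simp

/-- The graph of the adjacency matrix is the graph on the labels. -/
noncomputable def matIso {α : Type} [DecidableEq α] (vs : List α) (adj : α → α → Bool)
    (hnd : vs.Nodup) : matGraph (mat vs adj) ≃g labGraph vs adj where
  toEquiv := (finCongr (mat_length vs adj)).trans (List.Nodup.getEquiv vs hnd)
  map_rel_iff' := by
    intro a b
    simp only [labGraph, matGraph, Equiv.trans_apply, List.Nodup.getEquiv, Equiv.coe_fn_mk,
      finCongr_apply]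
    have ha : a.1 < vs.length := lt_of_lt_of_eq a.2 (mat_length vs adj)
    have hb : b.1 < vs.length := lt_of_lt_of_eq b.2 (mat_length vs adj)
    rw [entry_mat _ _ _ _ ha hb, entry_mat _ _ _ _ hb ha]
    have h1 : (⟨vs.get (Fin.cast (mat_length vs adj) a), List.get_mem _ _⟩ : {x // x ∈ vs}) ≠
        ⟨vs.get (Fin.cast (mat_length vs adj) b), List.get_mem _ _⟩ ↔ a ≠ b := by
      rw [not_iff_not, Subtype.mk.injEq, hnd.injective_get.eq_iff]
      simp [Fin.ext_iff]
    constructor
    · rintro ⟨h, h'⟩
      exact ⟨h1.1 h, h'⟩
    · rintro ⟨h, h'⟩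
      exact ⟨h1.2 h, h'⟩

end Pool.Agent.H622R2
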