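import Pool.Agent.H622R2.MatGraph
import Pool.Agent.NPC.Num

/-!
# Common definitions for reductions from satisfiability
-/

namespace Pool.Agent.H622R2

open Pool.Agent.NPC

/-- A literal: the sign and the variable; it is true under `τ` when `τ` of the variable is the
sign. -/
abbrev Lit := Bool × ℕ

/-- A clause with three literals. -/
abbrev Cl3 := Lit × Lit × Lit

/-- Satisfiability of formulas with three literals per clause. -/
def Sat3 (φ : List Cl3) : Prop :=
  ∃ τ : ℕ → Bool, ∀ c ∈ φ, τ c.1.2 = c.1.1 ∨ τ c.2.1.2 = c.2.1.1 ∨ τ c.2.2.2 = c.2.2.1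

theorem nodup_flatMap_of {α β : Type} {l : List α} {f : α → List β} (g : β → α) (hl : l.Nodup)
    (hf : ∀ a ∈ l, (f a).Nodup) (hg : ∀ a ∈ l, ∀ b ∈ f a, g b = a) : (l.flatMap f).Nodup := by
  induction l with
  | nil => simp
  | cons a l ih =>
    rw [List.flatMap_cons, List.nodup_append]
    rw [List.nodup_cons] at hl
    refine ⟨hf a (by simp), ih hl.2 (fun b hb => hf b (by simp [hb]))
      (fun b hb => hg b (by simp [hb])), ?_⟩
    intro x hx y hy hxy
    subst hxy
    rw [List.mem_flatMap] at hy
    obtain ⟨b, hb, hxb⟩ := hy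
    have h1 := hg a (by simp) x hx
    have h2 := hg b (by simp [hb]) x hxb
    rw [h1] at h2
    subst h2
    exact hl.1 hb

/-- Removing duplicates. -/
def ddup {β : Type} [DecidableEq β] (l : List β) : List β :=
  l.foldr (fun a acc => if a ∈ acc then acc else a :: acc) []

theorem mem_ddup {β : Type} [DecidableEq β] (l : List β) (b : β) : b ∈ ddup l ↔ b ∈ l := by
  induction l with
  | nil => simp [ddup]
  | cons a l ih =>
    unfold ddup at *
    rw [List.foldr_cons]
    split_ifs with h
    · rw [ih, List.mem_cons]
      constructor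
      · exact Or.inr
      · rintro (rfl | h')
        · exact ih.1 h
        · exact h'
    · rw [List.mem_cons, List.mem_cons, ih]

theorem ddup_nodup {β : Type} [DecidableEq β] (l : List β) : (ddup l).Nodup := by
  induction l with
  | nil => simp [ddup]
  | cons a l ih =>
    unfold ddup at *
    rw [List.foldr_cons]
    split_ifs with h
    · exact ih
    · exact List.nodup_cons.2 ⟨h, ih⟩

section PolyTime

open Poly

theorem mat_poly {α β : Type} [TEnc α] [TEnc β] {l : α → List β} {adj : α → β → β → Bool}
    (hl : Poly l) (hadj : Poly (fun p : (α × β) × β => adj p.1.1 p.1.2 p.2)) :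
    Poly (fun a => mat (l a) (adj a)) :=
  map (F := fun a u => (l a).map fun v => adj a u v) hl
    (map (F := fun (p : α × β) v => adj p.1 p.2 v) (hl.comp (fst id)) hadj)

theorem sz_ddup_le {β : Type} [DecidableEq β] [TEnc β] (l : List β) : sz (ddup l) ≤ sz l := by
  induction l with
  | nil => simp [ddup]
  | cons a l ih =>
    unfold ddup at *
    rw [List.foldr_cons]
    split_ifs with h
    · simp; omega
    · simp; omega

theorem ddup_poly {α β : Type} [DecidableEq β] [TEnc α] [TEnc β] {l : α → List β} (hl : Poly l) :
    Poly (fun a => ddup (l a)) := by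
  obtain ⟨r, hr⟩ := hl.sz_le
  refine foldr (F := fun _ b acc => if b ∈ acc then acc else b :: acc) hl (const [])
    (ite (decide_mem (fst (snd id)) (snd (snd id))) (snd (snd id))
      (cons (fst (snd id)) (snd (snd id)))) r ?_
  intro a k _
  exact (sz_ddup_le _).trans ((sz_drop_le _ _).trans (hr a))

end PolyTime

end Pool.Agent.H622R2
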