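import Pool.Agent.H622R2.Base

/-!
# Acyclic orientations with two-terminal edge-connectivity: definitions
-/

namespace Pool.Agent.H622R2

open Pool.Agent.NPC

/-- An edge of a multigraph whose vertices are natural numbers: a label and the two ends.
Edges with different labels and the same ends are parallel. -/
abbrev MEdge := ℕ × ℕ × ℕ

/-- An orientation directs the edge `e = (i, u, v)` from `u` to `v` if `o e = true`, and from `v`
to `u` otherwise; this is the initial vertex of the directed edge. -/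
def MEdge.tail (o : MEdge → Bool) (e : MEdge) : ℕ := if o e = true then e.2.1 else e.2.2

/-- The final vertex of the directed edge. -/
def MEdge.head (o : MEdge → Bool) (e : MEdge) : ℕ := if o e = true then e.2.2 else e.2.1

/-- The edges of `p`, in this order, form a directed walk from `a` to `b` in the orientation `o`
of the multigraph with edges `E`. -/
def IsDiWalk (E : List MEdge) (o : MEdge → Bool) : ℕ → List MEdge → ℕ → Prop
  | a, [], b => a = b
  | a, e :: p, b => e ∈ E ∧ e.tail o = a ∧ IsDiWalk E o (e.head o) p b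

/-- A directed path: a directed walk with distinct vertices. -/
def IsDiPath (E : List MEdge) (o : MEdge → Bool) (a : ℕ) (p : List MEdge) (b : ℕ) : Prop :=
  IsDiWalk E o a p b ∧ (a :: p.map (MEdge.head o)).Nodup

/-- There are `k` pairwise edge-disjoint directed paths from `a` to `b`. -/
def HasDisjointPaths (E : List MEdge) (o : MEdge → Bool) (k a b : ℕ) : Prop :=
  ∃ P : Fin k → List MEdge, (∀ i, IsDiPath E o a (P i) b) ∧
    ∀ i j, i ≠ j → List.Disjoint (P i) (P j)

/-- The orientation has no directed cycle: no closed directed walk with at least one edge. -/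
def IsAcyclicOr (E : List MEdge) (o : MEdge → Bool) : Prop :=
  ∀ a p, IsDiWalk E o a p a → p = []

/-- The orientation `o` is `(s, t, k)`-good for the multigraph with vertices `V`, edges `E`. -/
def IsGoodOr (V : List ℕ) (E : List MEdge) (s t k : ℕ) (o : MEdge → Bool) : Prop :=
  IsAcyclicOr E o ∧ ∀ v ∈ V, v ≠ s → v ≠ t →
    HasDisjointPaths E o k s v ∧ HasDisjointPaths E o k v t

/-- The problem ACYC-ST: the instance `(V, E, s, t, k)` consists of a multigraph with vertices `V`
and edges `E`, two of its vertices and a number `k`, and some orientation is `(s, t, k)`-good. -/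
def AcycST (I : List ℕ × List MEdge × ℕ × ℕ × ℕ) : Prop :=
  (I.2.2.1 ∈ I.1 ∧ I.2.2.2.1 ∈ I.1 ∧ ∀ e ∈ I.2.1, e.2.1 ∈ I.1 ∧ e.2.2 ∈ I.1) ∧
  ∃ o : MEdge → Bool, IsGoodOr I.1 I.2.1 I.2.2.1 I.2.2.2.1 I.2.2.2.2 o

/-! ### General facts -/

section General

variable {E : List MEdge} {o : MEdge → Bool}

theorem IsDiWalk.append : ∀ {a b c : ℕ} {p q : List MEdge}, IsDiWalk E o a p b →
    IsDiWalk E o b q c → IsDiWalk E o a (p ++ q) c
  | a, b, c, [], q, h1, h2 => by
    have h1' : a = b := h1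
    rw [h1']
    exact h2
  | a, b, c, e :: p, q, h1, h2 => by
    obtain ⟨h3, h4, h5⟩ := h1
    exact ⟨h3, h4, IsDiWalk.append h5 h2⟩

theorem IsDiWalk.first {a b : ℕ} {p : List MEdge} (h : IsDiWalk E o a p b) (hab : a ≠ b) :
    ∃ e ∈ p, e ∈ E ∧ e.tail o = a := by
  cases p with
  | nil => exact absurd h hab
  | cons e p => exact ⟨e, by simp, h.1, h.2.1⟩

theorem IsDiWalk.last : ∀ {a b : ℕ} {p : List MEdge}, IsDiWalk E o a p b → a ≠ b →
    ∃ e ∈ p, e ∈ E ∧ e.head o = b
  | a, b, [], h, hab => absurd h hab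
  | a, b, e :: p, h, hab => by
    by_cases hb : e.head o = b
    · exact ⟨e, by simp, h.1, hb⟩
    · obtain ⟨f, hf, hfE, hfb⟩ := IsDiWalk.last h.2.2 hb
      exact ⟨f, by simp [hf], hfE, hfb⟩

/-- Pigeonhole: four disjoint lists cannot each have its chosen element in a list of length
three. -/
theorem exists_notMem_of_disjoint {P : Fin 4 → List MEdge}
    (hP : ∀ i j, i ≠ j → List.Disjoint (P i) (P j)) {f : Fin 4 → MEdge} (hf : ∀ i, f i ∈ P i)
    (B : List MEdge) (hB : B.length ≤ 3) : ∃ i, f i ∉ B := by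
  by_contra hcon
  push Not at hcon
  have hinj : Function.Injective f := by
    intro i j hij
    by_contra hne
    exact hP i j hne (hf i) (hij ▸ hf j)
  have h1 : (Finset.univ.image f) ⊆ B.toFinset := by
    intro e he
    rw [Finset.mem_image] at he
    obtain ⟨i, _, rfl⟩ := he
    simpa using hcon i
  have h2 := Finset.card_le_card h1
  rw [Finset.card_image_of_injective _ hinj, Finset.card_univ, Fintype.card_fin] at h2
  have h3 := List.toFinset_card_le B
  omega

theorem HasDisjointPaths.out_edge {a b : ℕ} (h : HasDisjointPaths E o 4 a b) (hab : a ≠ b)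
    (B : List MEdge) (hB : B.length ≤ 3) : ∃ e ∈ E, e.tail o = a ∧ e ∉ B := by
  obtain ⟨P, hP, hd⟩ := h
  have h1 : ∀ i, ∃ e ∈ P i, e ∈ E ∧ e.tail o = a := fun i => (hP i).1.first hab
  choose f hf hfE hfa using h1
  obtain ⟨i, hi⟩ := exists_notMem_of_disjoint hd hf B hB
  exact ⟨f i, hfE i, hfa i, hi⟩

theorem HasDisjointPaths.in_edge {a b : ℕ} (h : HasDisjointPaths E o 4 a b) (hab : a ≠ b)
    (B : List MEdge) (hB : B.length ≤ 3) : ∃ e ∈ E, e.head o = b ∧ e ∉ B := by
  obtain ⟨P, hP, hd⟩ := h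
  have h1 : ∀ i, ∃ e ∈ P i, e ∈ E ∧ e.head o = b := fun i => (hP i).1.last hab
  choose f hf hfE hfa using h1
  obtain ⟨i, hi⟩ := exists_notMem_of_disjoint hd hf B hB
  exact ⟨f i, hfE i, hfa i, hi⟩

/-- An arc from `u` to `v`. -/
def HasArc (E : List MEdge) (o : MEdge → Bool) (u v : ℕ) : Prop :=
  ∃ e ∈ E, e.tail o = u ∧ e.head o = v

theorem HasArc.walk {u v : ℕ} (h : HasArc E o u v) : ∃ p, p ≠ [] ∧ IsDiWalk E o u p v := by
  obtain ⟨e, he, h1, h2⟩ := h
  exact ⟨[e], by simp, he, h1, h2⟩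

/-- No arc enters the source. -/
theorem IsGoodOr.no_arc_source {V : List ℕ} {s t k : ℕ} (h : IsGoodOr V E s t k o) (hk : 1 ≤ k)
    {v : ℕ} (hv : v ∈ V) (hvs : v ≠ s) (hvt : v ≠ t) : ¬ HasArc E o v s := by
  intro ha
  obtain ⟨p, hp, hw⟩ := ha.walk
  obtain ⟨P, hP, _⟩ := (h.2 v hv hvs hvt).1
  have h1 := h.1 s _ ((hP ⟨0, hk⟩).1.append hw)
  rw [List.append_eq_nil_iff] at h1
  exact hp h1.2

/-- No arc leaves the target. -/
theorem IsGoodOr.no_arc_target {V : List ℕ} {s t k : ℕ} (h : IsGoodOr V E s t k o) (hk : 1 ≤ k)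
    {v : ℕ} (hv : v ∈ V) (hvs : v ≠ s) (hvt : v ≠ t) : ¬ HasArc E o t v := by
  intro ha
  obtain ⟨p, hp, hw⟩ := ha.walk
  obtain ⟨P, hP, _⟩ := (h.2 v hv hvs hvt).2
  have h1 := h.1 t _ (hw.append (hP ⟨0, hk⟩).1)
  rw [List.append_eq_nil_iff] at h1
  exact hp h1.1

theorem IsAcyclicOr.no_two {u v : ℕ} (h : IsAcyclicOr E o) (h1 : HasArc E o u v)
    (h2 : HasArc E o v u) : False := by
  obtain ⟨p, hp, hw⟩ := h1.walk
  obtain ⟨q, hq, hw'⟩ := h2.walk
  have h3 := h _ _ (hw.append hw')
  rw [List.append_eq_nil_iff] at h3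
  exact hp h3.1

theorem IsAcyclicOr.no_four {u v w z : ℕ} (h : IsAcyclicOr E o) (h1 : HasArc E o u v)
    (h2 : HasArc E o v w) (h3 : HasArc E o w z) (h4 : HasArc E o z u) : False := by
  obtain ⟨p1, hp1, hw1⟩ := h1.walk
  obtain ⟨p2, hp2, hw2⟩ := h2.walk
  obtain ⟨p3, hp3, hw3⟩ := h3.walk
  obtain ⟨p4, hp4, hw4⟩ := h4.walk
  have h5 := h _ _ (hw1.append (hw2.append (hw3.append hw4)))
  rw [List.append_eq_nil_iff] at h5
  exact hp1 h5.1

theorem isAcyclicOr_of_rank (rk : ℕ → ℕ) (h : ∀ e ∈ E, rk (e.tail o) < rk (e.head o)) :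
    IsAcyclicOr E o := by
  have key : ∀ (p : List MEdge) (a b : ℕ), IsDiWalk E o a p b → p ≠ [] → rk a < rk b := by
    intro p
    induction p with
    | nil => intro a b _ h; exact absurd rfl h
    | cons e p ih =>
      intro a b hw _
      obtain ⟨he, ha, hw'⟩ := hw
      have h1 := h e he
      rw [ha] at h1
      by_cases hp : p = []
      · subst hp
        have : e.head o = b := hw'
        rw [← this]; exact h1
      · exact h1.trans (ih _ _ hw' hp)
  intro a p hw
  by_contra hp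
  exact lt_irrefl _ (key p a a hw hp)

theorem path1 {e : MEdge} (he : e ∈ E) (ho : o e = true) (hne : e.2.1 ≠ e.2.2) :
    IsDiPath E o e.2.1 [e] e.2.2 := by
  refine ⟨⟨he, ?_, ?_⟩, ?_⟩
  · simp [MEdge.tail, ho]
  · simp [IsDiWalk, MEdge.head, ho]
  · simpa [MEdge.head, ho] using hne

theorem path2 {e f : MEdge} (he : e ∈ E) (hf : f ∈ E) (ho : o e = true) (ho' : o f = true)
    (h : e.2.2 = f.2.1) (h1 : e.2.1 ≠ e.2.2) (h2 : f.2.1 ≠ f.2.2) (h3 : e.2.1 ≠ f.2.2) :
    IsDiPath E o e.2.1 [e, f] f.2.2 := by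
  refine ⟨⟨he, ?_, hf, ?_, ?_⟩, ?_⟩
  · simp [MEdge.tail, ho]
  · simp [MEdge.head, MEdge.tail, ho, ho', h]
  · simp [IsDiWalk, MEdge.head, ho']
  · rw [← h] at h2
    simp [MEdge.head, ho, ho', h1, h3, h2]

theorem hasDisjointPaths_four {a b : ℕ} {p0 p1 p2 p3 : List MEdge} (h0 : IsDiPath E o a p0 b)
    (h1 : IsDiPath E o a p1 b) (h2 : IsDiPath E o a p2 b) (h3 : IsDiPath E o a p3 b)
    (h01 : List.Disjoint p0 p1) (h02 : List.Disjoint p0 p2) (h03 : List.Disjoint p0 p3)
    (h12 : List.Disjoint p1 p2) (h13 : List.Disjoint p1 p3) (h23 : List.Disjoint p2 p3) :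
    HasDisjointPaths E o 4 a b := by
  refine ⟨![p0, p1, p2, p3], ?_, ?_⟩
  · intro i
    fin_cases i
    · exact h0
    · exact h1
    · exact h2
    · exact h3
  · intro i j hij
    fin_cases i <;> fin_cases j
    · exact absurd rfl hij
    · exact h01
    · exact h02
    · exact h03
    · exact h01.symm
    · exact absurd rfl hij
    · exact h12
    · exact h13
    · exact h02.symm
    · exact h12.symm
    · exact absurd rfl hij
    · exact h23
    · exact h03.symm
    · exact h13.symm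
    · exact h23.symm
    · exact absurd rfl hij

end General

end Pool.Agent.H622R2
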