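import Pool.Agent.H622R2.StrongDivCore

/-!
# Strongly divisible graphs: the converse direction and the reduction
-/

namespace Pool.Agent.H622R2

open Pool.Agent.NPC

section Sat

variable {m : ℕ} {cl : ℕ → Cl3} {vars : Set ℕ} {s : Set LL}

theorem link_ne {u v : L0} (h : Lk m cl vars u v) : u ≠ v := by
  rcases h with ⟨j, hj, rfl, rfl⟩ | ⟨j, hj, rfl, rfl⟩ | ⟨rfl, rfl⟩ | ⟨l, hl, rfl, rfl⟩
  · exact vA_ne_vB _ _ _
  · exact (vA_ne_vB _ _ _).symm
  · exact vA_ne_vE _
  · exact vE_ne_vL _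

/-- A good colouring separates the ends of a complete link. -/
theorem link_colours {c : LL → Bool} (hc : GoodOn RL s c) {u v : L0} (huv : u ≠ v)
    (hu : Sum.inl u ∈ s) (hv : Sum.inl v ∈ s) (hf : Sum.inr (u, v, false) ∈ s)
    (ht : Sum.inr (u, v, true) ∈ s) : c (Sum.inl u) ≠ c (Sum.inl v) := by
  -- two-element cliques
  have pairQ : ∀ x y : LL, x ∈ s → y ∈ s → x ≠ y → RL x y →
      (∀ z ∈ s, z ≠ x → z ≠ y → RL z x → ¬ RL z y) → c x ≠ c y := by
    intro x y hx hy hxy hR hm
    obtain ⟨a, ha, b, hb, hab⟩ := hc {x, y} (by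
        rintro z (rfl | rfl)
        · exact hx
        · exact hy) (by
        rintro a (rfl | rfl) b (rfl | rfl) hab
        · exact absurd rfl hab
        · exact hR
        · exact hR.symm
        · exact absurd rfl hab) (by
        intro z hz hq
        by_contra hzn
        simp only [Set.mem_insert_iff, Set.mem_singleton_iff, not_or] at hzn
        exact hm z hz hzn.1 hzn.2 (hq x (by simp) hzn.1) (hq y (by simp) hzn.2))
      ⟨x, by simp, y, by simp, hxy⟩
    rcases ha with rfl | rfl <;> rcases hb with rfl | rfl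
    · exact absurd rfl hab
    · exact hab
    · exact hab.symm
    · exact absurd rfl hab
  have h1 : c (Sum.inl u) ≠ c (Sum.inr (u, v, false)) := by
    refine pairQ _ _ hu hf (by simp) ((RL_lf _ _ _).2 rfl) ?_
    intro z hz hz1 hz2 h3 h4
    rcases z with w | ⟨u', v', b⟩
    · rw [RL_lf] at h4
      exact hz1 (by rw [h4])
    · rw [RL_rr] at h4
      obtain ⟨rfl, rfl, hb⟩ := h4
      cases b
      · exact hb rfl
      · have := (RL_lt _ _ _).1 (RL_symm h3)
        exact huv this
  have h2 : c (Sum.inr (u, v, false)) ≠ c (Sum.inr (u, v, true)) := by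
    refine pairQ _ _ hf ht (by simp) ((RL_rr _ _ _ _ _ _).2 ⟨rfl, rfl, by simp⟩) ?_
    intro z hz hz1 hz2 h3 h4
    rcases z with w | ⟨u', v', b⟩
    · rw [RL_lf] at h3
      rw [RL_lt] at h4
      exact huv (h3.symm.trans h4)
    · rw [RL_rr] at h3 h4
      cases b
      · exact h3.2.2 rfl
      · exact h4.2.2 rfl
  have h3 : c (Sum.inl v) ≠ c (Sum.inr (u, v, true)) := by
    refine pairQ _ _ hv ht (by simp) ((RL_lt _ _ _).2 rfl) ?_
    intro z hz hz1 hz2 h3 h4
    rcases z with w | ⟨u', v', b⟩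
    · rw [RL_lt] at h4
      exact hz1 (by rw [h4])
    · rw [RL_rr] at h4
      obtain ⟨rfl, rfl, hb⟩ := h4
      cases b
      · have := (RL_lf _ _ _).1 (RL_symm h3)
        exact huv this.symm
      · exact hb rfl
  cases e1 : c (Sum.inl u) <;> cases e2 : c (Sum.inl v) <;>
    cases e3 : c (Sum.inr (u, v, false)) <;> cases e4 : c (Sum.inr (u, v, true)) <;>
    rw [e1, e3] at h1 <;> rw [e3, e4] at h2 <;> rw [e2, e4] at h3 <;> simp at h1 h2 h3 ⊢

/-- If the formula is satisfiable, some induced subgraph is not `2`-clique-colourable. -/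
theorem not_good_of_sat (hm : 0 < m) (τ : ℕ → Bool)
    (hτ : ∀ j < m, ∃ l, inCl l (cl j) ∧ τ l.2 = l.1)
    (hvars : ∀ j < m, ∀ l, inCl l (cl j) → l.2 ∈ vars) :
    ∃ s : Set LL, s ⊆ ValidL m cl vars ∧ ¬ ∃ c : LL → Bool, GoodOn RL s c := by
  refine ⟨{x | x ∈ ValidL m cl vars ∧ ∀ l, x = Sum.inl (vL l) → τ l.2 = l.1},
    fun x hx => hx.1, ?_⟩
  rintro ⟨c, hc⟩
  set s : Set LL := {x | x ∈ ValidL m cl vars ∧ ∀ l, x = Sum.inl (vL l) → τ l.2 = l.1} with hsdef
  have sA : ∀ i ≤ m, Sum.inl (vA i) ∈ s := fun i hi =>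
    ⟨Or.inl ⟨i, hi, rfl⟩, fun l h => absurd (Sum.inl_injective h) (vA_ne_vL _ _)⟩
  have sB : ∀ j < m, Sum.inl (vB j (cl j)) ∈ s := fun j hj =>
    ⟨Or.inr (Or.inl ⟨j, hj, rfl⟩), fun l h => absurd (Sum.inl_injective h) (vB_ne_vL _ _ _)⟩
  have sE : Sum.inl vE ∈ s :=
    ⟨Or.inr (Or.inr (Or.inl rfl)), fun l h => absurd (Sum.inl_injective h) (vE_ne_vL _)⟩
  have sL : ∀ l : Lit, l.2 ∈ vars → τ l.2 = l.1 → Sum.inl (vL l) ∈ s := fun l hl h =>
    ⟨Or.inr (Or.inr (Or.inr ⟨l, hl, rfl⟩)), fun l' h' => by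
      rw [vL_inj.1 (Sum.inl_injective h')] at h; exact h⟩
  have sR : ∀ u v, Lk m cl vars u v → ∀ b, Sum.inr (u, v, b) ∈ s := fun u v h b =>
    ⟨h, fun l h => by simp at h⟩
  have hlink : ∀ u v, Lk m cl vars u v → Sum.inl u ∈ s → Sum.inl v ∈ s →
      c (Sum.inl u) ≠ c (Sum.inl v) := fun u v h hu hv =>
    link_colours hc (link_ne h) hu hv (sR u v h false) (sR u v h true)
  have hA : ∀ i ≤ m, c (Sum.inl (vA i)) = c (Sum.inl (vA 0)) := by
    intro i
    induction i with
    | zero => intro _; rfl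
    | succ i ih =>
      intro hi
      rw [← ih (by omega)]
      have h1 := hlink _ _ (Or.inl ⟨i, by omega, rfl, rfl⟩) (sA i (by omega)) (sB i (by omega))
      have h2 := hlink _ _ (Or.inr (Or.inl ⟨i, by omega, rfl, rfl⟩)) (sB i (by omega))
        (sA (i + 1) (by omega))
      cases e1 : c (Sum.inl (vA i)) <;> cases e2 : c (Sum.inl (vB i (cl i))) <;>
        cases e3 : c (Sum.inl (vA (i + 1))) <;> rw [e1, e2] at h1 <;> rw [e2, e3] at h2 <;>
        simp at h1 h2 ⊢
  have hE : c (Sum.inl (vA 0)) ≠ c (Sum.inl vE) := by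
    rw [← hA m le_rfl]
    exact hlink _ _ (Or.inr (Or.inr (Or.inl ⟨rfl, rfl⟩))) (sA m le_rfl) sE
  have hL : ∀ l : Lit, l.2 ∈ vars → τ l.2 = l.1 → c (Sum.inl (vL l)) = c (Sum.inl (vA 0)) := by
    intro l hl hlt
    have h1 := hlink _ _ (Or.inr (Or.inr (Or.inr ⟨l, hl, rfl, rfl⟩))) sE (sL l hl hlt)
    cases e1 : c (Sum.inl (vA 0)) <;> cases e2 : c (Sum.inl vE) <;>
      cases e3 : c (Sum.inl (vL l)) <;> rw [e1, e2] at hE <;> rw [e2, e3] at h1 <;>
      simp at h1 hE ⊢
  obtain ⟨x, hx, y, hy, hxy⟩ := hc {x | (∃ i ≤ m, x = Sum.inl (vA i)) ∨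
      ∃ l : Lit, l.2 ∈ vars ∧ τ l.2 = l.1 ∧ x = Sum.inl (vL l)} (by
      rintro x (⟨i, hi, rfl⟩ | ⟨l, hl, hlt, rfl⟩)
      · exact sA i hi
      · exact sL l hl hlt) (by
      rintro x (⟨i, hi, rfl⟩ | ⟨l, hl, hlt, rfl⟩) y (⟨j, hj, rfl⟩ | ⟨l', hl', hlt', rfl⟩) hxy
      · rw [RL_ll, R0_AA]
        rintro rfl
        exact hxy rfl
      · exact R0_AL _ _
      · exact R0_symm (R0_AL _ _)
      · rw [RL_ll, R0_LL]
        intro h
        apply hxy
        have : l = l' := by
          refine Prod.ext ?_ h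
          rw [← hlt, ← hlt', h]
        rw [this]) (by
      rintro x ⟨hxV, hxl⟩ hq
      rcases x with u | ⟨u, v, b⟩
      · rcases hxV with ⟨i, hi, rfl⟩ | ⟨j, hj, rfl⟩ | rfl | ⟨l, hl, rfl⟩
        · exact Or.inl ⟨i, hi, rfl⟩
        · exfalso
          obtain ⟨l, hlc, hlt⟩ := hτ j hj
          have := hq (Sum.inl (vL l)) (Or.inr ⟨l, hvars j hj l hlc, hlt, rfl⟩)
            (fun h => vB_ne_vL _ _ _ (Sum.inl_injective h))
          rw [RL_ll, R0_BL] at this
          exact this hlc
        · exfalso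
          have := hq (Sum.inl (vA 0)) (Or.inl ⟨0, by omega, rfl⟩)
            (fun h => vA_ne_vE _ (Sum.inl_injective h).symm)
          exact ((R0_AE 0).1 (R0_symm this)) rfl
        · exact Or.inr ⟨l, hl, hxl l rfl, rfl⟩
      · exfalso
        have h0 := hq (Sum.inl (vA 0)) (Or.inl ⟨0, by omega, rfl⟩) (by simp)
        have h1 := hq (Sum.inl (vA 1)) (Or.inl ⟨1, by omega, rfl⟩) (by simp)
        cases b
        · have e0 := (RL_lf _ _ _).1 (RL_symm h0)
          have e1 := (RL_lf _ _ _).1 (RL_symm h1)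
          exact absurd (vA_inj.1 (e0.trans e1.symm)) (by norm_num)
        · have e0 := (RL_lt _ _ _).1 (RL_symm h0)
          have e1 := (RL_lt _ _ _).1 (RL_symm h1)
          exact absurd (vA_inj.1 (e0.trans e1.symm)) (by norm_num))
    ⟨Sum.inl (vA 0), Or.inl ⟨0, by omega, rfl⟩, Sum.inl (vA 1), Or.inl ⟨1, by omega, rfl⟩, by
      intro h
      exact absurd (vA_inj.1 (Sum.inl_injective h)) (by norm_num)⟩
  have key : ∀ x ∈ {x | (∃ i ≤ m, x = Sum.inl (vA i)) ∨
      ∃ l : Lit, l.2 ∈ vars ∧ τ l.2 = l.1 ∧ x = Sum.inl (vL l)}, c x = c (Sum.inl (vA 0)) := by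
    rintro x (⟨i, hi, rfl⟩ | ⟨l, hl, hlt, rfl⟩)
    · exact hA i hi
    · exact hL l hl hlt
  exact hxy ((key x hx).trans (key y hy).symm)

end Sat

/-! ### The list of labels -/

/-- The `j`-th clause. -/
def clAt (φ : List Cl3) (j : ℕ) : Cl3 := φ.getD j ((true, 0), (true, 0), (true, 0))

/-- The variables of a formula, without repetition. -/
def varsOf (φ : List Cl3) : List ℕ :=
  ddup (φ.flatMap fun c => [c.1.2, c.2.1.2, c.2.2.2])

/-- The literals over the variables of a formula. -/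
def litsOf (φ : List Cl3) : List Lit := (varsOf φ).flatMap fun x => [(true, x), (false, x)]

/-- The main labels. -/
def mains (φ : List Cl3) : List L0 :=
  (List.range (φ.length + 1)).map (fun i => vA i) ++
    ((List.range φ.length).map (fun j => vB j (clAt φ j)) ++
      (vE :: (litsOf φ).map (fun l => vL l)))

/-- The links. -/
def links (φ : List Cl3) : List (L0 × L0) :=
  (List.range φ.length).map (fun j => (vA j, vB j (clAt φ j))) ++
    ((List.range φ.length).map (fun j => (vB j (clAt φ j), vA (j + 1))) ++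
      ((vA φ.length, vE) :: (litsOf φ).map (fun l => (vE, vL l))))

/-- All labels. -/
def labelsD (φ : List Cl3) : List LL :=
  (mains φ).map (fun u => (Sum.inl u : LL)) ++
    (links φ).flatMap fun e => [(Sum.inr (e.1, e.2, false) : LL), Sum.inr (e.1, e.2, true)]

/-- The set of variables. -/
def varSet (φ : List Cl3) : Set ℕ := {x | x ∈ varsOf φ}

theorem mem_litsOf (φ : List Cl3) (l : Lit) : l ∈ litsOf φ ↔ l.2 ∈ varSet φ := by
  obtain ⟨b, x⟩ := l
  simp only [litsOf, List.mem_flatMap, List.mem_cons, Prod.mk.injEq, List.not_mem_nil, or_false,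
    varSet, Set.mem_ofPred_eq]
  constructor
  · rintro ⟨y, hy, ⟨_, rfl⟩ | ⟨_, rfl⟩⟩ <;> exact hy
  · intro h
    exact ⟨x, h, by cases b <;> simp⟩

theorem mem_mains (φ : List Cl3) (x : L0) :
    x ∈ mains φ ↔ M0 φ.length (clAt φ) (varSet φ) x := by
  simp only [mains, List.mem_append, List.mem_map, List.mem_range, List.mem_cons, M0]
  constructor
  · rintro (⟨i, hi, rfl⟩ | ⟨j, hj, rfl⟩ | rfl | ⟨l, hl, rfl⟩)
    · exact Or.inl ⟨i, by omega, rfl⟩
    · exact Or.inr (Or.inl ⟨j, hj, rfl⟩)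
    · exact Or.inr (Or.inr (Or.inl rfl))
    · exact Or.inr (Or.inr (Or.inr ⟨l, (mem_litsOf _ _).1 hl, rfl⟩))
  · rintro (⟨i, hi, rfl⟩ | ⟨j, hj, rfl⟩ | rfl | ⟨l, hl, rfl⟩)
    · exact Or.inl ⟨i, by omega, rfl⟩
    · exact Or.inr (Or.inl ⟨j, hj, rfl⟩)
    · exact Or.inr (Or.inr (Or.inl rfl))
    · exact Or.inr (Or.inr (Or.inr ⟨l, (mem_litsOf _ _).2 hl, rfl⟩))

theorem mem_links (φ : List Cl3) (e : L0 × L0) :
    e ∈ links φ ↔ Lk φ.length (clAt φ) (varSet φ) e.1 e.2 := by
  obtain ⟨u, v⟩ := e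
  simp only [links, List.mem_append, List.mem_map, List.mem_range, List.mem_cons, Lk,
    Prod.mk.injEq]
  constructor
  · rintro (⟨j, hj, rfl, rfl⟩ | ⟨j, hj, rfl, rfl⟩ | ⟨rfl, rfl⟩ | ⟨l, hl, rfl, rfl⟩)
    · exact Or.inl ⟨j, hj, rfl, rfl⟩
    · exact Or.inr (Or.inl ⟨j, hj, rfl, rfl⟩)
    · exact Or.inr (Or.inr (Or.inl ⟨rfl, rfl⟩))
    · exact Or.inr (Or.inr (Or.inr ⟨l, (mem_litsOf _ _).1 hl, rfl, rfl⟩))
  · rintro (⟨j, hj, rfl, rfl⟩ | ⟨j, hj, rfl, rfl⟩ | ⟨rfl, rfl⟩ | ⟨l, hl, rfl, rfl⟩)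
    · exact Or.inl ⟨j, hj, rfl, rfl⟩
    · exact Or.inr (Or.inl ⟨j, hj, rfl, rfl⟩)
    · exact Or.inr (Or.inr (Or.inl ⟨rfl, rfl⟩))
    · exact Or.inr (Or.inr (Or.inr ⟨l, (mem_litsOf _ _).2 hl, rfl, rfl⟩))

theorem mem_labelsD (φ : List Cl3) (x : LL) :
    x ∈ labelsD φ ↔ x ∈ ValidL φ.length (clAt φ) (varSet φ) := by
  rcases x with u | ⟨u, v, b⟩
  · simp only [labelsD, List.mem_append, List.mem_map, Sum.inl.injEq, exists_eq_right,
      List.mem_flatMap, List.mem_cons, reduceCtorEq, List.not_mem_nil, or_false, or_self,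
      and_false, exists_false]
    exact mem_mains φ u
  · simp only [labelsD, List.mem_append, List.mem_map, reduceCtorEq, and_false, exists_false,
      List.mem_flatMap, List.mem_cons, Sum.inr.injEq, Prod.mk.injEq, List.not_mem_nil, or_false,
      false_or]
    change _ ↔ Lk φ.length (clAt φ) (varSet φ) u v
    constructor
    · rintro ⟨⟨u', v'⟩, he, ⟨rfl, rfl, rfl⟩ | ⟨rfl, rfl, rfl⟩⟩ <;>
        exact (mem_links φ _).1 he
    · intro h
      exact ⟨(u, v), (mem_links φ _).2 h, by cases b <;> simp⟩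

theorem litsOf_nodup (φ : List Cl3) : (litsOf φ).Nodup := by
  refine nodup_flatMap_of (fun l => l.2) (ddup_nodup _) (fun x _ => by simp) ?_
  intro x _ l hl
  simp only [List.mem_cons, List.not_mem_nil, or_false] at hl
  rcases hl with rfl | rfl <;> rfl

theorem mains_nodup (φ : List Cl3) : (mains φ).Nodup := by
  unfold mains
  rw [List.nodup_append, List.nodup_append, List.nodup_cons]
  refine ⟨List.nodup_range.map (fun i j h => vA_inj.1 h), ⟨List.nodup_range.map ?_,
    ⟨?_, (litsOf_nodup φ).map (fun i j h => vL_inj.1 h)⟩, ?_⟩, ?_⟩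
  · intro i j h
    simp only [vB, Prod.mk.injEq] at h
    exact h.2.1
  · rw [List.mem_map]
    rintro ⟨l, _, h⟩
    exact vE_ne_vL l h.symm
  · intro x hx y hy hxy
    subst hxy
    rw [List.mem_map] at hx
    obtain ⟨j, _, rfl⟩ := hx
    rw [List.mem_cons, List.mem_map] at hy
    rcases hy with h | ⟨l, _, h⟩
    · exact vB_ne_vE _ _ h
    · exact vB_ne_vL _ _ _ h.symm
  · intro x hx y hy hxy
    subst hxy
    rw [List.mem_map] at hx
    obtain ⟨i, _, rfl⟩ := hx
    rw [List.mem_append, List.mem_map, List.mem_cons, List.mem_map] at hy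
    rcases hy with ⟨j, _, h⟩ | h | ⟨l, _, h⟩
    · exact vA_ne_vB _ _ _ h.symm
    · exact vA_ne_vE _ h
    · exact vA_ne_vL _ _ h.symm

theorem links_nodup (φ : List Cl3) : (links φ).Nodup := by
  unfold links
  rw [List.nodup_append, List.nodup_append, List.nodup_cons]
  refine ⟨List.nodup_range.map ?_, ⟨List.nodup_range.map ?_, ⟨?_, (litsOf_nodup φ).map ?_⟩, ?_⟩,
    ?_⟩
  · intro i j h
    simp only [Prod.mk.injEq] at h
    exact vA_inj.1 h.1
  · intro i j h
    simp only [Prod.mk.injEq] at h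
    have := vA_inj.1 h.2
    omega
  · rw [List.mem_map]
    rintro ⟨l, _, h⟩
    simp only [Prod.mk.injEq] at h
    exact vA_ne_vE _ h.1.symm
  · intro i j h
    simp only [Prod.mk.injEq, true_and] at h
    exact vL_inj.1 h
  · intro x hx y hy hxy
    subst hxy
    rw [List.mem_map] at hx
    obtain ⟨j, _, rfl⟩ := hx
    rw [List.mem_cons, List.mem_map] at hy
    rcases hy with h | ⟨l, _, h⟩
    · simp only [Prod.mk.injEq] at h
      exact vA_ne_vB _ _ _ h.1.symm
    · simp only [Prod.mk.injEq] at h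
      exact vB_ne_vE _ _ h.1.symm
  · intro x hx y hy hxy
    subst hxy
    rw [List.mem_map] at hx
    obtain ⟨i, _, rfl⟩ := hx
    rw [List.mem_append, List.mem_map, List.mem_cons, List.mem_map] at hy
    rcases hy with ⟨j, _, h⟩ | h | ⟨l, _, h⟩
    · simp only [Prod.mk.injEq] at h
      exact vA_ne_vB _ _ _ h.1.symm
    · simp only [Prod.mk.injEq] at h
      exact vB_ne_vE _ _ h.2
    · simp only [Prod.mk.injEq] at h
      exact vA_ne_vE _ h.1.symm

theorem labelsD_nodup (φ : List Cl3) : (labelsD φ).Nodup := by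
  unfold labelsD
  rw [List.nodup_append]
  refine ⟨(mains_nodup φ).map Sum.inl_injective, ?_, ?_⟩
  · refine nodup_flatMap_of (fun x : LL => match x with
        | Sum.inl u => (u, u)
        | Sum.inr p => (p.1, p.2.1)) (links_nodup φ) (fun e _ => by simp) ?_
    intro e _ x hx
    simp only [List.mem_cons, List.not_mem_nil, or_false] at hx
    rcases hx with rfl | rfl <;> rfl
  · intro x hx y hy hxy
    subst hxy
    rw [List.mem_map] at hx
    obtain ⟨a, _, rfl⟩ := hx
    rw [List.mem_flatMap] at hy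
    obtain ⟨b, _, hb⟩ := hy
    simp at hb

/-- The reduction: a tautological clause is added in front of the formula. -/
def sdRed (φ : List Cl3) : List (List Bool) :=
  mat (labelsD (((true, 0), (false, 0), (true, 0)) :: φ)) halfL

theorem labGraph_divisible_iff (vs : List LL) (hnd : vs.Nodup) :
    StronglyDivisible 2 (matGraph (mat vs halfL)) ↔
      ∀ s : Set LL, s ⊆ {x | x ∈ vs} → ∃ c : LL → Bool, GoodOn RL s c := by
  classical
  have e := matIso vs halfL hnd
  have hR : ∀ x y : Fin (mat vs halfL).length, x ≠ y →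
      ((matGraph (mat vs halfL)).Adj x y ↔ RL (e x).1 (e y).1) := by
    intro x y hxy
    rw [← e.map_adj_iff]
    unfold labGraph RL
    simp only [ne_eq, EmbeddingLike.apply_eq_iff_eq, hxy, not_false_eq_true, true_and]
  rw [stronglyDivisible_two_iff (matGraph (mat vs halfL)) (fun x => (e x).1)
    (fun x y h => e.injective (Subtype.ext h)) RL hR]
  have hrange : Set.range (fun x => (e x).1) = {x | x ∈ vs} := by
    ext x
    constructor
    · rintro ⟨y, rfl⟩
      exact (e y).2
    · intro hx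
      exact ⟨e.symm ⟨x, hx⟩, by simp⟩
  rw [hrange]

theorem sdRed_correct (φ : List Cl3) :
    Sat3 φ ↔ ¬ StronglyDivisible 2 (matGraph (sdRed φ)) := by
  set ψ : List Cl3 := ((true, 0), (false, 0), (true, 0)) :: φ with hψ
  have hsat : Sat3 φ ↔ ∃ τ : ℕ → Bool, ∀ j < ψ.length, ∃ l, inCl l (clAt ψ j) ∧ τ l.2 = l.1 := by
    have h1 : Sat3 φ ↔ Sat3 ψ := by
      constructor
      · rintro ⟨τ, hτ⟩
        refine ⟨τ, fun c hc => ?_⟩
        rw [hψ, List.mem_cons] at hc
        rcases hc with rfl | hc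
        · cases τ 0 <;> simp
        · exact hτ c hc
      · rintro ⟨τ, hτ⟩
        exact ⟨τ, fun c hc => hτ c (List.mem_cons_of_mem _ hc)⟩
    rw [h1]
    constructor
    · rintro ⟨τ, hτ⟩
      refine ⟨τ, fun j hj => ?_⟩
      have hc : clAt ψ j = ψ[j] := by
        unfold clAt
        rw [List.getD_eq_getElem?_getD, List.getElem?_eq_getElem hj]
        rfl
      rw [hc]
      rcases hτ ψ[j] (List.getElem_mem hj) with h | h | h
      · exact ⟨_, Or.inl rfl, h⟩
      · exact ⟨_, Or.inr (Or.inl rfl), h⟩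
      · exact ⟨_, Or.inr (Or.inr rfl), h⟩
    · rintro ⟨τ, hτ⟩
      refine ⟨τ, fun c hc => ?_⟩
      obtain ⟨j, hj, rfl⟩ := List.getElem_of_mem hc
      have hc : clAt ψ j = ψ[j] := by
        unfold clAt
        rw [List.getD_eq_getElem?_getD, List.getElem?_eq_getElem hj]
        rfl
      obtain ⟨l, hl, h⟩ := hτ j hj
      rw [hc] at hl
      rcases hl with rfl | rfl | rfl
      · exact Or.inl h
      · exact Or.inr (Or.inl h)
      · exact Or.inr (Or.inr h)
  have hvs : {x | x ∈ labelsD ψ} = ValidL ψ.length (clAt ψ) (varSet ψ) := by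
    ext x
    exact mem_labelsD ψ x
  change _ ↔ ¬ StronglyDivisible 2 (matGraph (mat (labelsD ψ) halfL))
  rw [labGraph_divisible_iff _ (labelsD_nodup ψ), hvs, hsat]
  have hpos : 0 < ψ.length := by rw [hψ]; simp
  constructor
  · rintro ⟨τ, hτ⟩ hall
    obtain ⟨s, hs, hno⟩ := not_good_of_sat hpos τ hτ (vars := varSet ψ) (by
      intro j hj l hl
      change l.2 ∈ ddup _
      rw [mem_ddup, List.mem_flatMap]
      have hc : clAt ψ j = ψ[j] := by
        unfold clAt
        rw [List.getD_eq_getElem?_getD, List.getElem?_eq_getElem hj]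
        rfl
      rw [hc] at hl
      refine ⟨ψ[j], List.getElem_mem hj, ?_⟩
      rcases hl with rfl | rfl | rfl <;> simp)
    exact hno (hall s hs)
  · intro hno
    by_contra hcon
    push Not at hcon
    apply hno
    intro s hs
    exact good_of_unsat hpos hcon hs

/-! ### Polynomial time -/

section PolyTime

set_option synthInstance.maxSize 4000

open Poly

theorem clAt_poly {α : Type} [TEnc α] {f : α → List Cl3} {n : α → ℕ} (hf : Poly f)
    (hn : Poly n) : Poly (fun a => clAt (f a) (n a)) := getD hf hn (const _)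

theorem vA_poly {α : Type} [TEnc α] {n : α → ℕ} (hn : Poly n) : Poly (fun a => vA (n a)) :=
  pair (const 0) (pair hn (pair (const _) (const _)))

theorem vB_poly {α : Type} [TEnc α] {n : α → ℕ} {c : α → Cl3} (hn : Poly n) (hc : Poly c) :
    Poly (fun a => vB (n a) (c a)) :=
  pair (const 1) (pair hn (pair hc (const _)))

theorem vL_poly {α : Type} [TEnc α] {l : α → Lit} (hl : Poly l) : Poly (fun a => vL (l a)) :=
  pair (const 3) (pair (const _) (pair (const _) hl))

theorem litsOf_poly {α : Type} [TEnc α] {f : α → List Cl3} (hf : Poly f) :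
    Poly (fun a => litsOf (f a)) := by
  have h1 : Poly (fun a => varsOf (f a)) :=
    ddup_poly (flatMap (F := fun _ (c : Cl3) => [c.1.2, c.2.1.2, c.2.2.2]) hf
      (cons (snd (fst (snd id))) (cons (snd (fst (snd (snd id)))) (cons
        (snd (snd (snd (snd id)))) (const [])))))
  exact flatMap (F := fun _ (x : ℕ) => [((true, x) : Lit), (false, x)]) h1
    (cons (pair (const _) (snd id)) (cons (pair (const _) (snd id)) (const [])))

theorem mains_poly {α : Type} [TEnc α] {f : α → List Cl3} (hf : Poly f) :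
    Poly (fun a => mains (f a)) := by
  have hr : Poly (fun a => List.range (f a).length) := range_length hf
  have hr1 : Poly (fun a => List.range ((f a).length + 1)) :=
    UPoly.range (UPoly.add (UPoly.length hf) (UPoly.const 1))
  exact append (map (F := fun _ i => vA i) hr1 (vA_poly (snd id)))
    (append (map (F := fun a j => vB j (clAt (f a) j)) hr
      (vB_poly (snd id) (clAt_poly (hf.comp (fst id)) (snd id))))
      (cons (const _) (map (F := fun _ l => vL l) (litsOf_poly hf) (vL_poly (snd id)))))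

theorem links_poly {α : Type} [TEnc α] {f : α → List Cl3} (hf : Poly f) :
    Poly (fun a => links (f a)) := by
  have hr : Poly (fun a => List.range (f a).length) := range_length hf
  have hB : Poly (fun p : α × ℕ => vB p.2 (clAt (f p.1) p.2)) :=
    vB_poly (snd id) (clAt_poly (hf.comp (fst id)) (snd id))
  exact append (map (F := fun a j => (vA j, vB j (clAt (f a) j))) hr
      (pair (vA_poly (snd id)) hB))
    (append (map (F := fun a j => (vB j (clAt (f a) j), vA (j + 1))) hr
      (pair hB (vA_poly (add (snd id) (const 1)))))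
      (cons (pair (vA_poly (length hf)) (const _)) (map (F := fun _ l => (vE, vL l))
        (litsOf_poly hf) (pair (const _) (vL_poly (snd id))))))

theorem labelsD_poly {α : Type} [TEnc α] {f : α → List Cl3} (hf : Poly f) :
    Poly (fun a => labelsD (f a)) :=
  append (map (F := fun _ u => (Sum.inl u : LL)) (mains_poly hf) (inl (snd id)))
    (flatMap (F := fun _ (e : L0 × L0) =>
      [(Sum.inr (e.1, e.2, false) : LL), Sum.inr (e.1, e.2, true)]) (links_poly hf)
      (cons (inr (pair (fst (snd id)) (pair (snd (snd id)) (const _))))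
        (cons (inr (pair (fst (snd id)) (pair (snd (snd id)) (const _)))) (const []))))

theorem half0_poly {α : Type} [TEnc α] {u v : α → L0} (hu : Poly u) (hv : Poly v) :
    Poly (fun a => half0 (u a) (v a)) := by
  have ku : Poly (fun a => (u a).1) := fst hu
  have kv : Poly (fun a => (v a).1) := fst hv
  have iu : Poly (fun a => (u a).2.1) := fst (snd hu)
  have iv : Poly (fun a => (v a).2.1) := fst (snd hv)
  have cu : Poly (fun a => (u a).2.2.1) := fst (snd (snd hu))
  have lu : Poly (fun a => (u a).2.2.2) := snd (snd (snd hu))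
  have lv : Poly (fun a => (v a).2.2.2) := snd (snd (snd hv))
  have eqc : ∀ {n : α → ℕ} (k : ℕ), Poly n → Poly (fun a => decide (n a = k)) :=
    fun k hn => decide_eq hn (const k)
  have inc : Poly (fun a => decide (inCl (v a).2.2.2 (u a).2.2.1)) :=
    decide_or (decide_eq lv (fst cu)) (decide_or (decide_eq lv (fst (snd cu)))
      (decide_eq lv (snd (snd cu))))
  exact decide_or (decide_and (eqc 0 ku) (decide_and (eqc 0 kv) (decide_not (decide_eq iu iv))))
    (decide_or (decide_and (eqc 0 ku) (eqc 1 kv))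
    (decide_or (decide_and (eqc 0 ku) (decide_and (eqc 2 kv) (decide_not (eqc 0 iu))))
    (decide_or (decide_and (eqc 0 ku) (eqc 3 kv))
    (decide_or (decide_and (eqc 1 ku) (decide_and (eqc 3 kv) (decide_not inc)))
    (decide_or (decide_and (eqc 2 ku) (eqc 3 kv))
    (decide_and (eqc 3 ku) (decide_and (eqc 3 kv) (decide_not (decide_eq (snd lu) (snd lv))))))))))

theorem halfL_poly : Poly (fun z : LL × LL => halfL z.1 z.2) := by
  have hLR : Poly (fun p : ((LL × LL) × L0) × (L0 × L0 × Bool) =>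
      bif p.2.2.2 then decide (p.1.2 = p.2.2.1) else decide (p.1.2 = p.2.1)) :=
    cond (snd (snd (snd id))) (decide_eq (snd (fst id)) (fst (snd (snd id))))
      (decide_eq (snd (fst id)) (fst (snd id)))
  have hRR : Poly (fun p : ((LL × LL) × (L0 × L0 × Bool)) × (L0 × L0 × Bool) =>
      decide (p.1.2.1 = p.2.1) && decide (p.1.2.2.1 = p.2.2.1) &&
      decide (p.1.2.2.2 ≠ p.2.2.2)) :=
    and (and (decide_eq (fst (snd (fst id))) (fst (snd id)))
      (decide_eq (fst (snd (snd (fst id)))) (fst (snd (snd id)))))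
      (decide_not (decide_eq (snd (snd (snd (fst id)))) (snd (snd (snd id)))))
  have h1 := sumCases (o := fun p : (LL × LL) × L0 => p.1.2)
    (g := fun p b => half0 p.2 b)
    (h := fun p q => bif q.2.2 then decide (p.2 = q.2.1) else decide (p.2 = q.1))
    (snd (fst id)) (half0_poly (snd (fst id)) (snd id)) hLR
  have h2 := sumCases (o := fun p : (LL × LL) × (L0 × L0 × Bool) => p.1.2)
    (g := fun _ _ => false)
    (h := fun p q => decide (p.2.1 = q.1) && decide (p.2.2.1 = q.2.1) &&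
      decide (p.2.2.2 ≠ q.2.2)) (snd (fst id)) (const _) hRR
  refine (sumCases (o := fun z : LL × LL => z.1)
    (g := fun z a => match z.2 with
      | Sum.inl b => half0 a b
      | Sum.inr q => bif q.2.2 then decide (a = q.2.1) else decide (a = q.1))
    (h := fun z p => match z.2 with
      | Sum.inl _ => false
      | Sum.inr q => decide (p.1 = q.1) && decide (p.2.1 = q.2.1) &&
        decide (p.2.2 ≠ q.2.2)) (fst id) (h1.congr ?_) (h2.congr ?_)).congr ?_
  · rintro ⟨⟨x, y⟩, a⟩
    rcases y with b | q <;> rfl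
  · rintro ⟨⟨x, y⟩, a⟩
    rcases y with b | q <;> rfl
  rintro ⟨x, y⟩
  rcases x with a | p <;> rcases y with b | q <;> rfl

theorem sdRed_poly : Poly sdRed :=
  mat_poly (adj := fun _ u v => halfL u v) (labelsD_poly (cons (const _) id))
    (comp (g := fun z : LL × LL => halfL z.1 z.2) halfL_poly (pair (snd (fst id)) (snd id)))

end PolyTime

end Pool.Agent.H622R2
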