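import Pool.Agent.H622R2.AcycST
import Pool.Agent.H622R2.StrongDivRed

/-!
# Acyclic orientations with two-terminal edge-connectivity: the reduction
-/

namespace Pool.Agent.H622R2.Acyc

open Pool.Agent.NPC Pool.Agent.H622R2

/-- The vertex of the clause with index `j`. -/
def vW (j : ℕ) : ℕ := 4 * j + 3

/-- The vertex of the variable `x`. -/
def vY (x : ℕ) : ℕ := 4 * x + 4

/-- The vertex of a literal. -/
def vLt (l : Lit) : ℕ := 4 * l.2 + (bif l.1 then 5 else 6)

/-- The edges at a clause vertex. -/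
def clE (c : Cl3) (j : ℕ) : List MEdge :=
  [(0, vLt c.1, vW j), (1, vLt c.2.1, vW j), (2, vLt c.2.2, vW j),
   (0, vW j, 2), (1, vW j, 2), (2, vW j, 2), (3, vW j, 2),
   (0, 0, vW j), (1, 0, vW j), (2, 0, vW j)]

/-- The edges at a variable vertex. -/
def varE (x : ℕ) : List MEdge :=
  [(0, 2, vY x), (1, 2, vY x), (2, 2, vY x),
   (0, vY x, vLt (true, x)), (0, vY x, vLt (false, x)),
   (0, 0, vY x), (0, vY x, 1), (1, vY x, 1), (2, vY x, 1)]

/-- Four parallel edges from the source to a vertex and from this vertex to the target. -/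
def endE (v : ℕ) : List MEdge :=
  [(0, 0, v), (1, 0, v), (2, 0, v), (3, 0, v), (0, v, 1), (1, v, 1), (2, v, 1), (3, v, 1)]

/-- The vertices of the multigraph. -/
def redV (φ : List Cl3) : List ℕ :=
  [0, 1, 2] ++ ((List.range φ.length).map (fun j => vW j) ++
    ((varsOf φ).map (fun x => vY x) ++ (litsOf φ).map (fun l => vLt l)))

/-- The edges of the multigraph. -/
def redE (φ : List Cl3) : List MEdge :=
  endE 2 ++ ((List.range φ.length).flatMap (fun j => clE (clAt φ j) j) ++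
    ((varsOf φ).flatMap (fun x => varE x) ++ (litsOf φ).flatMap (fun l => endE (vLt l))))

/-- The instance of ACYC-ST. -/
def acRed (φ : List Cl3) : List ℕ × List MEdge × ℕ × ℕ × ℕ := (redV φ, redE φ, 0, 1, 4)

theorem mem_redV (φ : List Cl3) (v : ℕ) : v ∈ redV φ ↔
    v = 0 ∨ v = 1 ∨ v = 2 ∨ (∃ j < φ.length, v = vW j) ∨ (∃ x ∈ varsOf φ, v = vY x) ∨
      ∃ l ∈ litsOf φ, v = vLt l := by
  simp only [redV, List.cons_append, List.nil_append, List.mem_cons, List.mem_append,
    List.mem_map, List.mem_range]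
  constructor
  · rintro (h | h | h | ⟨j, hj, rfl⟩ | ⟨x, hx, rfl⟩ | ⟨l, hl, rfl⟩)
    · exact Or.inl h
    · exact Or.inr (Or.inl h)
    · exact Or.inr (Or.inr (Or.inl h))
    · exact Or.inr (Or.inr (Or.inr (Or.inl ⟨j, hj, rfl⟩)))
    · exact Or.inr (Or.inr (Or.inr (Or.inr (Or.inl ⟨x, hx, rfl⟩))))
    · exact Or.inr (Or.inr (Or.inr (Or.inr (Or.inr ⟨l, hl, rfl⟩))))
  · rintro (h | h | h | ⟨j, hj, rfl⟩ | ⟨x, hx, rfl⟩ | ⟨l, hl, rfl⟩)
    · exact Or.inl h
    · exact Or.inr (Or.inl h)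
    · exact Or.inr (Or.inr (Or.inl h))
    · exact Or.inr (Or.inr (Or.inr (Or.inl ⟨j, hj, rfl⟩)))
    · exact Or.inr (Or.inr (Or.inr (Or.inr (Or.inl ⟨x, hx, rfl⟩))))
    · exact Or.inr (Or.inr (Or.inr (Or.inr (Or.inr ⟨l, hl, rfl⟩))))

theorem mem_redE (φ : List Cl3) (e : MEdge) : e ∈ redE φ ↔
    e ∈ endE 2 ∨ (∃ j < φ.length, e ∈ clE (clAt φ j) j) ∨ (∃ x ∈ varsOf φ, e ∈ varE x) ∨
      ∃ l ∈ litsOf φ, e ∈ endE (vLt l) := by
  simp only [redE, List.mem_append, List.mem_flatMap, List.mem_range]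

theorem mem_litsOf' (φ : List Cl3) (l : Lit) : l ∈ litsOf φ ↔ l.2 ∈ varsOf φ := mem_litsOf φ l

theorem mem_varsOf_clAt {φ : List Cl3} {j : ℕ} (hj : j < φ.length) :
    (clAt φ j).1.2 ∈ varsOf φ ∧ (clAt φ j).2.1.2 ∈ varsOf φ ∧ (clAt φ j).2.2.2 ∈ varsOf φ := by
  have h : clAt φ j ∈ φ := by
    unfold clAt
    rw [List.getD_eq_getElem?_getD, List.getElem?_eq_getElem hj, Option.getD_some]
    exact List.getElem_mem hj
  unfold varsOf
  simp only [mem_ddup, List.mem_flatMap, List.mem_cons, List.not_mem_nil, or_false]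
  exact ⟨⟨_, h, Or.inl rfl⟩, ⟨_, h, Or.inr (Or.inl rfl)⟩, ⟨_, h, Or.inr (Or.inr rfl)⟩⟩

theorem vLt_ne (l : Lit) : vLt l ≠ 0 ∧ vLt l ≠ 1 ∧ vLt l ≠ 2 ∧ (∀ j, vLt l ≠ vW j) ∧
    (∀ x, vLt l ≠ vY x) := by
  unfold vLt vW vY
  refine ⟨?_, ?_, ?_, fun j => ?_, fun x => ?_⟩ <;> cases l.1 <;> simp only [cond_true, cond_false] <;>
    omega

theorem vLt_inj {l l' : Lit} (h : vLt l = vLt l') : l = l' := by
  obtain ⟨b, x⟩ := l
  obtain ⟨b', x'⟩ := l'
  unfold vLt at h
  cases b <;> cases b' <;> simp only [cond_true, cond_false] at h <;>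
    simp only [Prod.mk.injEq, reduceCtorEq, true_and, false_and] <;> omega

/-- The edges at a clause vertex. -/
theorem edge_at_W {φ : List Cl3} {j : ℕ} {e : MEdge} (he : e ∈ redE φ)
    (h : e.2.1 = vW j ∨ e.2.2 = vW j) : j < φ.length ∧ e ∈ clE (clAt φ j) j := by
  rw [mem_redE] at he
  rcases he with he | ⟨i, hi, he⟩ | ⟨x, hx, he⟩ | ⟨l, hl, he⟩
  · exfalso
    simp only [endE, List.mem_cons, List.not_mem_nil, or_false] at he
    rcases he with rfl | rfl | rfl | rfl | rfl | rfl | rfl | rfl <;> simp only [vW] at h <;> omega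
  · have hij : i = j := by
      simp only [clE, List.mem_cons, List.not_mem_nil, or_false] at he
      have hl := fun (l : Lit) => (vLt_ne l).2.2.2.1 j
      rcases he with rfl | rfl | rfl | rfl | rfl | rfl | rfl | rfl | rfl | rfl <;>
        rcases h with h | h <;> first
        | exact absurd h (hl _)
        | (simp only [vW] at h; omega)
    subst hij
    exact ⟨hi, he⟩
  · exfalso
    simp only [varE, List.mem_cons, List.not_mem_nil, or_false] at he
    have hl := fun (l : Lit) => (vLt_ne l).2.2.2.1 j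
    rcases he with rfl | rfl | rfl | rfl | rfl | rfl | rfl | rfl | rfl <;>
      rcases h with h | h <;> first
      | exact absurd h (hl _)
      | (simp only [vW, vY] at h; omega)
  · exfalso
    simp only [endE, List.mem_cons, List.not_mem_nil, or_false] at he
    have hl := fun (l : Lit) => (vLt_ne l).2.2.2.1 j
    rcases he with rfl | rfl | rfl | rfl | rfl | rfl | rfl | rfl <;>
      rcases h with h | h <;> first
      | exact absurd h (hl _)
      | (simp only [vW] at h; omega)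

/-- The edges at a variable vertex. -/
theorem edge_at_Y {φ : List Cl3} {x : ℕ} {e : MEdge} (he : e ∈ redE φ)
    (h : e.2.1 = vY x ∨ e.2.2 = vY x) : x ∈ varsOf φ ∧ e ∈ varE x := by
  rw [mem_redE] at he
  have hl := fun (l : Lit) => (vLt_ne l).2.2.2.2 x
  rcases he with he | ⟨i, hi, he⟩ | ⟨y, hy, he⟩ | ⟨l, _, he⟩
  · exfalso
    simp only [endE, List.mem_cons, List.not_mem_nil, or_false] at he
    rcases he with rfl | rfl | rfl | rfl | rfl | rfl | rfl | rfl <;> simp only [vY] at h <;> omega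
  · exfalso
    simp only [clE, List.mem_cons, List.not_mem_nil, or_false] at he
    rcases he with rfl | rfl | rfl | rfl | rfl | rfl | rfl | rfl | rfl | rfl <;>
      rcases h with h | h <;> first
      | exact absurd h (hl _)
      | (simp only [vW, vY] at h; omega)
  · have hxy : y = x := by
      simp only [varE, List.mem_cons, List.not_mem_nil, or_false] at he
      rcases he with rfl | rfl | rfl | rfl | rfl | rfl | rfl | rfl | rfl <;>
        rcases h with h | h <;> first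
        | exact absurd h (hl _)
        | (simp only [vY] at h; omega)
    subst hxy
    exact ⟨hy, he⟩
  · exfalso
    simp only [endE, List.mem_cons, List.not_mem_nil, or_false] at he
    rcases he with rfl | rfl | rfl | rfl | rfl | rfl | rfl | rfl <;>
      rcases h with h | h <;> first
      | exact absurd h (hl _)
      | (simp only [vY] at h; omega)

theorem valid (φ : List Cl3) : (0 ∈ redV φ ∧ 1 ∈ redV φ ∧ ∀ e ∈ redE φ, e.2.1 ∈ redV φ ∧
    e.2.2 ∈ redV φ) := by
  have m0 : 0 ∈ redV φ := by simp [redV]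
  have m1 : 1 ∈ redV φ := by simp [redV]
  have m2 : 2 ∈ redV φ := by simp [redV]
  have mW : ∀ j < φ.length, vW j ∈ redV φ := fun j hj =>
    (mem_redV _ _).2 (Or.inr (Or.inr (Or.inr (Or.inl ⟨j, hj, rfl⟩))))
  have mY : ∀ x ∈ varsOf φ, vY x ∈ redV φ := fun x hx =>
    (mem_redV _ _).2 (Or.inr (Or.inr (Or.inr (Or.inr (Or.inl ⟨x, hx, rfl⟩)))))
  have mL : ∀ l : Lit, l.2 ∈ varsOf φ → vLt l ∈ redV φ := fun l hl =>
    (mem_redV _ _).2 (Or.inr (Or.inr (Or.inr (Or.inr (Or.inr ⟨l, (mem_litsOf' _ _).2 hl, rfl⟩)))))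
  refine ⟨m0, m1, ?_⟩
  intro e he
  rw [mem_redE] at he
  rcases he with he | ⟨i, hi, he⟩ | ⟨y, hy, he⟩ | ⟨l, hl, he⟩
  · simp only [endE, List.mem_cons, List.not_mem_nil, or_false] at he
    rcases he with rfl | rfl | rfl | rfl | rfl | rfl | rfl | rfl <;>
      exact ⟨by assumption, by assumption⟩
  · obtain ⟨c1, c2, c3⟩ := mem_varsOf_clAt hi
    have n1 := mL _ c1
    have n2 := mL _ c2
    have n3 := mL _ c3
    have n4 := mW i hi
    simp only [clE, List.mem_cons, List.not_mem_nil, or_false] at he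
    rcases he with rfl | rfl | rfl | rfl | rfl | rfl | rfl | rfl | rfl | rfl <;>
      exact ⟨by assumption, by assumption⟩
  · have n1 := mL (true, y) hy
    have n2 := mL (false, y) hy
    have n3 := mY y hy
    simp only [varE, List.mem_cons, List.not_mem_nil, or_false] at he
    rcases he with rfl | rfl | rfl | rfl | rfl | rfl | rfl | rfl | rfl <;>
      exact ⟨by assumption, by assumption⟩
  · have n1 := mL l ((mem_litsOf' _ _).1 hl)
    simp only [endE, List.mem_cons, List.not_mem_nil, or_false] at he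
    rcases he with rfl | rfl | rfl | rfl | rfl | rfl | rfl | rfl <;>
      exact ⟨by assumption, by assumption⟩

/-! ### From a good orientation to an assignment -/

section Back

theorem head_or_tail' (o : MEdge → Bool) (e : MEdge) : (e.tail o = e.2.1 ∧ e.head o = e.2.2) ∨
    (e.tail o = e.2.2 ∧ e.head o = e.2.1) := by
  unfold MEdge.tail MEdge.head
  cases o e <;> simp

variable {φ : List Cl3} {o : MEdge → Bool} (h : IsGoodOr (redV φ) (redE φ) 0 1 4 o)

include h

theorem arc_W {j : ℕ} (hj : j < φ.length) : HasArc (redE φ) o (vW j) 2 ∧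
    (HasArc (redE φ) o (vLt (clAt φ j).1) (vW j) ∨ HasArc (redE φ) o (vLt (clAt φ j).2.1) (vW j) ∨
      HasArc (redE φ) o (vLt (clAt φ j).2.2) (vW j)) := by
  have hV : vW j ∈ redV φ := (mem_redV _ _).2 (Or.inr (Or.inr (Or.inr (Or.inl ⟨j, hj, rfl⟩))))
  have h0 : vW j ≠ 0 := by unfold vW; omega
  have h1 : vW j ≠ 1 := by unfold vW; omega
  have h2 : vW j ≠ 2 := by unfold vW; omega
  have hs := h.no_arc_source (by norm_num) hV h0 h1
  obtain ⟨hin, hout⟩ := h.2 _ hV h0 h1
  have hl := fun (l : Lit) => (vLt_ne l).2.2.2.1 j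
  have c1 : HasArc (redE φ) o (vW j) 2 := by
    obtain ⟨e, he, ht, hB⟩ := hout.out_edge h1 [(0, vLt (clAt φ j).1, vW j),
      (1, vLt (clAt φ j).2.1, vW j), (2, vLt (clAt φ j).2.2, vW j)] (by simp)
    have hat : e.2.1 = vW j ∨ e.2.2 = vW j := by
      rcases head_or_tail' o e with ⟨h3, _⟩ | ⟨h3, _⟩
      · exact Or.inl (h3 ▸ ht)
      · exact Or.inr (h3 ▸ ht)
    obtain ⟨_, hcl⟩ := edge_at_W he hat
    simp only [clE, List.mem_cons, List.not_mem_nil, or_false] at hcl hB
    rcases hcl with rfl | rfl | rfl | rfl | rfl | rfl | rfl | rfl | rfl | rfl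
    · exact absurd (Or.inl rfl) hB
    · exact absurd (Or.inr (Or.inl rfl)) hB
    · exact absurd (Or.inr (Or.inr rfl)) hB
    all_goals
      rcases head_or_tail' o _ with ⟨h3, h4⟩ | ⟨h3, h4⟩
      · first
        | exact ⟨_, he, ht, h4⟩
        | exact absurd (h3.symm.trans ht) (Ne.symm h0)
      · first
        | exact absurd (h3.symm.trans ht) (Ne.symm h2)
        | exact absurd ⟨_, he, ht, h4⟩ hs
  refine ⟨c1, ?_⟩
  obtain ⟨e, he, ht, hB⟩ := hin.in_edge (Ne.symm h0) [(0, 0, vW j), (1, 0, vW j), (2, 0, vW j)]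
    (by simp)
  have hat : e.2.1 = vW j ∨ e.2.2 = vW j := by
    rcases head_or_tail' o e with ⟨_, h3⟩ | ⟨_, h3⟩
    · exact Or.inr (h3 ▸ ht)
    · exact Or.inl (h3 ▸ ht)
  obtain ⟨_, hcl⟩ := edge_at_W he hat
  simp only [clE, List.mem_cons, List.not_mem_nil, or_false] at hcl hB
  rcases hcl with rfl | rfl | rfl | rfl | rfl | rfl | rfl | rfl | rfl | rfl
  · left
    rcases head_or_tail' o _ with ⟨h3, h4⟩ | ⟨h3, h4⟩
    · exact ⟨_, he, h3, ht⟩
    · exact absurd (h4.symm.trans ht) (hl _)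
  · right; left
    rcases head_or_tail' o _ with ⟨h3, h4⟩ | ⟨h3, h4⟩
    · exact ⟨_, he, h3, ht⟩
    · exact absurd (h4.symm.trans ht) (hl _)
  · right; right
    rcases head_or_tail' o _ with ⟨h3, h4⟩ | ⟨h3, h4⟩
    · exact ⟨_, he, h3, ht⟩
    · exact absurd (h4.symm.trans ht) (hl _)
  iterate 4
    rcases head_or_tail' o _ with ⟨h3, h4⟩ | ⟨h3, h4⟩
    · exact absurd (h4.symm.trans ht) (Ne.symm h2)
    · exact (h.1.no_two c1 ⟨_, he, h3, ht⟩).elim
  · exact absurd (Or.inl rfl) hB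
  · exact absurd (Or.inr (Or.inl rfl)) hB
  · exact absurd (Or.inr (Or.inr rfl)) hB

theorem arc_Y {x : ℕ} (hx : x ∈ varsOf φ) : HasArc (redE φ) o 2 (vY x) ∧
    (HasArc (redE φ) o (vY x) (vLt (true, x)) ∨ HasArc (redE φ) o (vY x) (vLt (false, x))) := by
  have hV : vY x ∈ redV φ :=
    (mem_redV _ _).2 (Or.inr (Or.inr (Or.inr (Or.inr (Or.inl ⟨x, hx, rfl⟩)))))
  have h0 : vY x ≠ 0 := by unfold vY; omega
  have h1 : vY x ≠ 1 := by unfold vY; omega
  have h2 : vY x ≠ 2 := by unfold vY; omega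
  have hs := h.no_arc_source (by norm_num) hV h0 h1
  have hT := h.no_arc_target (by norm_num) hV h0 h1
  obtain ⟨hin, hout⟩ := h.2 _ hV h0 h1
  have hl := fun (l : Lit) => (vLt_ne l).2.2.2.2 x
  have c1 : HasArc (redE φ) o 2 (vY x) := by
    obtain ⟨e, he, ht, hB⟩ := hin.in_edge (Ne.symm h0) [(0, vY x, vLt (true, x)),
      (0, vY x, vLt (false, x)), (0, 0, vY x)] (by simp)
    have hat : e.2.1 = vY x ∨ e.2.2 = vY x := by
      rcases head_or_tail' o e with ⟨_, h3⟩ | ⟨_, h3⟩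
      · exact Or.inr (h3 ▸ ht)
      · exact Or.inl (h3 ▸ ht)
    obtain ⟨_, hcl⟩ := edge_at_Y he hat
    simp only [varE, List.mem_cons, List.not_mem_nil, or_false] at hcl hB
    rcases hcl with rfl | rfl | rfl | rfl | rfl | rfl | rfl | rfl | rfl
    iterate 3
      rcases head_or_tail' o _ with ⟨h3, h4⟩ | ⟨h3, h4⟩
      · exact ⟨_, he, h3, ht⟩
      · exact absurd (h4.symm.trans ht) (Ne.symm h2)
    · exact absurd (Or.inl rfl) hB
    · exact absurd (Or.inr (Or.inl rfl)) hB
    · exact absurd (Or.inr (Or.inr rfl)) hB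
    all_goals
      rcases head_or_tail' o _ with ⟨h3, h4⟩ | ⟨h3, h4⟩
      · exact absurd (h4.symm.trans ht) (Ne.symm h1)
      · exact absurd ⟨_, he, h3, ht⟩ hT
  refine ⟨c1, ?_⟩
  obtain ⟨e, he, ht, hB⟩ := hout.out_edge h1 [(0, vY x, 1), (1, vY x, 1), (2, vY x, 1)] (by simp)
  have hat : e.2.1 = vY x ∨ e.2.2 = vY x := by
    rcases head_or_tail' o e with ⟨h3, _⟩ | ⟨h3, _⟩
    · exact Or.inl (h3 ▸ ht)
    · exact Or.inr (h3 ▸ ht)
  obtain ⟨_, hcl⟩ := edge_at_Y he hat
  simp only [varE, List.mem_cons, List.not_mem_nil, or_false] at hcl hB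
  rcases hcl with rfl | rfl | rfl | rfl | rfl | rfl | rfl | rfl | rfl
  iterate 3
    rcases head_or_tail' o _ with ⟨h3, h4⟩ | ⟨h3, h4⟩
    · exact absurd (h3.symm.trans ht) (Ne.symm h2)
    · exact (h.1.no_two c1 ⟨_, he, ht, h4⟩).elim
  · left
    rcases head_or_tail' o _ with ⟨h3, h4⟩ | ⟨h3, h4⟩
    · exact ⟨_, he, h3, h4⟩
    · exact absurd (h3.symm.trans ht) (hl _)
  · right
    rcases head_or_tail' o _ with ⟨h3, h4⟩ | ⟨h3, h4⟩
    · exact ⟨_, he, h3, h4⟩
    · exact absurd (h3.symm.trans ht) (hl _)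
  · rcases head_or_tail' o _ with ⟨h3, h4⟩ | ⟨h3, h4⟩
    · exact absurd (h3.symm.trans ht) (Ne.symm h0)
    · exact absurd ⟨_, he, ht, h4⟩ hs
  · exact absurd (Or.inl rfl) hB
  · exact absurd (Or.inr (Or.inl rfl)) hB
  · exact absurd (Or.inr (Or.inr rfl)) hB

theorem sat_of_good : Sat3 φ := by
  classical
  refine ⟨fun x => decide (HasArc (redE φ) o (vY x) (vLt (false, x))), ?_⟩
  have key : ∀ l : Lit, l.2 ∈ varsOf φ → ¬ HasArc (redE φ) o (vY l.2) (vLt l) →
      decide (HasArc (redE φ) o (vY l.2) (vLt (false, l.2))) = l.1 := by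
    rintro ⟨b, x⟩ hx hn
    have h1 := (arc_Y h hx).2
    cases b
    · exact decide_eq_false hn
    · exact decide_eq_true (h1.resolve_left hn)
  intro c hc
  obtain ⟨j, hj, rfl⟩ : ∃ j < φ.length, clAt φ j = c := by
    obtain ⟨j, hj, hjc⟩ := List.getElem_of_mem hc
    refine ⟨j, hj, ?_⟩
    unfold clAt
    rw [List.getD_eq_getElem?_getD, List.getElem?_eq_getElem hj, Option.getD_some, hjc]
  obtain ⟨c1, c2, c3⟩ := mem_varsOf_clAt hj
  obtain ⟨hW, hlit⟩ := arc_W h hj
  rcases hlit with hlit | hlit | hlit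
  · left
    exact key _ c1 fun ha => h.1.no_four hlit hW (arc_Y h c1).1 ha
  · right; left
    exact key _ c2 fun ha => h.1.no_four hlit hW (arc_Y h c2).1 ha
  · right; right
    exact key _ c3 fun ha => h.1.no_four hlit hW (arc_Y h c3).1 ha

end Back

/-! ### From an assignment to a good orientation -/

section Forth

/-- The rank of a vertex; edges go from lower to higher rank. -/
def rk (τ : ℕ → Bool) (v : ℕ) : ℕ :=
  if v = 0 then 0 else if v = 1 then 6 else if v = 2 then 3 else if v % 4 = 3 then 2 else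
    if v % 4 = 0 then 4 else if v % 4 = 1 then (if τ ((v - 5) / 4) = true then 1 else 5) else
      (if τ ((v - 6) / 4) = false then 1 else 5)

theorem rk_W (τ : ℕ → Bool) (j : ℕ) : rk τ (vW j) = 2 := by
  unfold rk vW
  rw [if_neg (by omega), if_neg (by omega), if_neg (by omega), if_pos (by omega)]

theorem rk_Y (τ : ℕ → Bool) (x : ℕ) : rk τ (vY x) = 4 := by
  unfold rk vY
  rw [if_neg (by omega), if_neg (by omega), if_neg (by omega), if_neg (by omega),
    if_pos (by omega)]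

theorem rk_L (τ : ℕ → Bool) (l : Lit) : rk τ (vLt l) = if τ l.2 = l.1 then 1 else 5 := by
  obtain ⟨b, x⟩ := l
  cases b
  · have : vLt (false, x) = 4 * x + 6 := rfl
    rw [this]
    unfold rk
    rw [if_neg (by omega), if_neg (by omega), if_neg (by omega), if_neg (by omega),
      if_neg (by omega), if_neg (by omega)]
    have : (4 * x + 6 - 6) / 4 = x := by omega
    rw [this]
  · have : vLt (true, x) = 4 * x + 5 := rfl
    rw [this]
    unfold rk
    rw [if_neg (by omega), if_neg (by omega), if_neg (by omega), if_neg (by omega),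
      if_neg (by omega), if_pos (by omega)]
    have : (4 * x + 5 - 5) / 4 = x := by omega
    rw [this]

/-- The orientation from lower to higher rank. -/
def orr (τ : ℕ → Bool) (e : MEdge) : Bool := decide (rk τ e.2.1 < rk τ e.2.2)

theorem rk_ne {φ : List Cl3} (τ : ℕ → Bool) {e : MEdge} (he : e ∈ redE φ) :
    rk τ e.2.1 ≠ rk τ e.2.2 := by
  have k0 : rk τ 0 = 0 := rfl
  have k1 : rk τ 1 = 6 := rfl
  have k2 : rk τ 2 = 3 := rfl
  have kL : ∀ l, rk τ (vLt l) = 1 ∨ rk τ (vLt l) = 5 := by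
    intro l
    rw [rk_L]
    split_ifs <;> simp
  rw [mem_redE] at he
  rcases he with he | ⟨i, hi, he⟩ | ⟨y, hy, he⟩ | ⟨l, hl, he⟩
  · simp only [endE, List.mem_cons, List.not_mem_nil, or_false] at he
    rcases he with rfl | rfl | rfl | rfl | rfl | rfl | rfl | rfl <;> simp [k0, k1, k2]
  · have hW := rk_W τ i
    have h1 := kL (clAt φ i).1
    have h2 := kL (clAt φ i).2.1
    have h3 := kL (clAt φ i).2.2
    simp only [clE, List.mem_cons, List.not_mem_nil, or_false] at he
    rcases he with rfl | rfl | rfl | rfl | rfl | rfl | rfl | rfl | rfl | rfl <;>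
      simp only <;> omega
  · have hY := rk_Y τ y
    have h1 := kL (true, y)
    have h2 := kL (false, y)
    simp only [varE, List.mem_cons, List.not_mem_nil, or_false] at he
    rcases he with rfl | rfl | rfl | rfl | rfl | rfl | rfl | rfl | rfl <;>
      simp only <;> omega
  · have h1 := kL l
    simp only [endE, List.mem_cons, List.not_mem_nil, or_false] at he
    rcases he with rfl | rfl | rfl | rfl | rfl | rfl | rfl | rfl <;>
      simp only <;> omega

theorem acyclic_orr (φ : List Cl3) (τ : ℕ → Bool) : IsAcyclicOr (redE φ) (orr τ) := by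
  apply isAcyclicOr_of_rank (rk τ)
  intro e he
  have h := rk_ne τ he
  unfold MEdge.tail MEdge.head orr
  by_cases hlt : rk τ e.2.1 < rk τ e.2.2
  · simp [hlt]
  · have : rk τ e.2.2 < rk τ e.2.1 := by omega
    simp [hlt, this]

/-- A vertex with four edges from the source and to the target. -/
theorem paths_end {φ : List Cl3} {τ : ℕ → Bool} {v : ℕ} (hv : ∀ e ∈ endE v, e ∈ redE φ)
    (h0 : v ≠ 0) (h1 : v ≠ 1) (hr : 0 < rk τ v) (hr' : rk τ v < 6) :
    HasDisjointPaths (redE φ) (orr τ) 4 0 v ∧ HasDisjointPaths (redE φ) (orr τ) 4 v 1 := by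
  have k0 : rk τ 0 = 0 := rfl
  have k1 : rk τ 1 = 6 := rfl
  have p : ∀ i : ℕ, (i, 0, v) ∈ endE v → IsDiPath (redE φ) (orr τ) 0 [(i, 0, v)] v := by
    intro i hi
    exact path1 (hv _ hi) (by simp [orr, k0, hr]) (Ne.symm h0)
  have q : ∀ i : ℕ, (i, v, 1) ∈ endE v → IsDiPath (redE φ) (orr τ) v [(i, v, 1)] 1 := by
    intro i hi
    exact path1 (hv _ hi) (by simp [orr, k1, hr']) h1
  constructor
  · refine hasDisjointPaths_four (p 0 ?_) (p 1 ?_) (p 2 ?_) (p 3 ?_) ?_ ?_ ?_ ?_ ?_ ?_ <;>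
      simp [endE]
  · refine hasDisjointPaths_four (q 0 ?_) (q 1 ?_) (q 2 ?_) (q 3 ?_) ?_ ?_ ?_ ?_ ?_ ?_ <;>
      simp [endE]

theorem good_of_sat {φ : List Cl3} {τ : ℕ → Bool}
    (hτ : ∀ c ∈ φ, τ c.1.2 = c.1.1 ∨ τ c.2.1.2 = c.2.1.1 ∨ τ c.2.2.2 = c.2.2.1) :
    IsGoodOr (redV φ) (redE φ) 0 1 4 (orr τ) := by
  have k0 : rk τ 0 = 0 := rfl
  have k1 : rk τ 1 = 6 := rfl
  have k2 : rk τ 2 = 3 := rfl
  have kL : ∀ l, rk τ (vLt l) = 1 ∨ rk τ (vLt l) = 5 := by
    intro l
    rw [rk_L]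
    split_ifs <;> simp
  have hend2 : ∀ e ∈ endE 2, e ∈ redE φ := fun e he => (mem_redE _ _).2 (Or.inl he)
  refine ⟨acyclic_orr φ τ, ?_⟩
  intro v hv h0 h1
  rw [mem_redV] at hv
  rcases hv with hv | hv | rfl | ⟨j, hj, rfl⟩ | ⟨x, hx, rfl⟩ | ⟨l, hl, rfl⟩
  · exact absurd hv h0
  · exact absurd hv h1
  · exact paths_end hend2 h0 h1 (by rw [k2]; norm_num) (by rw [k2]; norm_num)
  · -- a clause vertex
    have h2 : vW j ≠ 2 := by unfold vW; omega
    have hW := rk_W τ j
    have hE : ∀ e ∈ clE (clAt φ j) j, e ∈ redE φ := fun e he =>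
      (mem_redE _ _).2 (Or.inr (Or.inl ⟨j, hj, he⟩))
    have hmem : clAt φ j ∈ φ := by
      unfold clAt
      rw [List.getD_eq_getElem?_getD, List.getElem?_eq_getElem hj, Option.getD_some]
      exact List.getElem_mem hj
    constructor
    · obtain ⟨i, l, hil, hlV, hτl⟩ : ∃ (i : ℕ) (l : Lit), (i, vLt l, vW j) ∈ clE (clAt φ j) j ∧
          l.2 ∈ varsOf φ ∧ τ l.2 = l.1 := by
        obtain ⟨c1, c2, c3⟩ := mem_varsOf_clAt hj
        rcases hτ _ hmem with h | h | h
        · exact ⟨0, _, by simp [clE], c1, h⟩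
        · exact ⟨1, _, by simp [clE], c2, h⟩
        · exact ⟨2, _, by simp [clE], c3, h⟩
      have hrl : rk τ (vLt l) = 1 := by rw [rk_L, if_pos hτl]
      have p : ∀ i : ℕ, (i, 0, vW j) ∈ clE (clAt φ j) j →
          IsDiPath (redE φ) (orr τ) 0 [(i, 0, vW j)] (vW j) := by
        intro i hi
        exact path1 (hE _ hi) (by simp [orr, k0, hW]) (Ne.symm h0)
      have hl1 : ((0, 0, vLt l) : MEdge) ∈ redE φ := by
        rw [mem_redE]
        exact Or.inr (Or.inr (Or.inr ⟨l, (mem_litsOf' _ _).2 hlV, by simp [endE]⟩))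
      have q : IsDiPath (redE φ) (orr τ) 0 [(0, 0, vLt l), (i, vLt l, vW j)] (vW j) :=
        path2 (e := (0, 0, vLt l)) (f := (i, vLt l, vW j)) hl1 (hE _ hil)
          (by simp [orr, k0, hrl]) (by simp [orr, hrl, hW]) rfl (Ne.symm (vLt_ne l).1)
          ((vLt_ne l).2.2.2.1 j) (Ne.symm h0)
      have hn1 := (vLt_ne l).2.2.2.1 j
      have hn0 := (vLt_ne l).1
      refine hasDisjointPaths_four (p 0 ?_) (p 1 ?_) (p 2 ?_) q ?_ ?_ ?_ ?_ ?_ ?_ <;>
        simp [clE, hn1, hn1.symm, hn0, hn0.symm]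
    · have q : ∀ i : ℕ, (i, vW j, 2) ∈ clE (clAt φ j) j → (i, 2, 1) ∈ endE 2 →
          IsDiPath (redE φ) (orr τ) (vW j) [(i, vW j, 2), (i, 2, 1)] 1 := by
        intro i hi hi2
        exact path2 (e := (i, vW j, 2)) (f := (i, 2, 1)) (hE _ hi) (hend2 _ hi2)
          (by simp [orr, k2, hW]) (by simp [orr, k2, k1]) rfl h2 (by simp) h1
      refine hasDisjointPaths_four (q 0 ?_ ?_) (q 1 ?_ ?_) (q 2 ?_ ?_) (q 3 ?_ ?_)
        ?_ ?_ ?_ ?_ ?_ ?_ <;> simp [clE, endE, h2]
  · -- a variable vertex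
    have h2 : vY x ≠ 2 := by unfold vY; omega
    have hY := rk_Y τ x
    have hE : ∀ e ∈ varE x, e ∈ redE φ := fun e he =>
      (mem_redE _ _).2 (Or.inr (Or.inr (Or.inl ⟨x, hx, he⟩)))
    constructor
    · have p : IsDiPath (redE φ) (orr τ) 0 [(0, 0, vY x)] (vY x) :=
        path1 (e := (0, 0, vY x)) (hE _ (by simp [varE])) (by simp [orr, k0, hY]) (Ne.symm h0)
      have q : ∀ i : ℕ, (i, 2, vY x) ∈ varE x → (i, 0, 2) ∈ endE 2 →
          IsDiPath (redE φ) (orr τ) 0 [(i, 0, 2), (i, 2, vY x)] (vY x) := by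
        intro i hi hi2
        exact path2 (e := (i, 0, 2)) (f := (i, 2, vY x)) (hend2 _ hi2) (hE _ hi)
          (by simp [orr, k2, k0]) (by simp [orr, k2, hY]) rfl (by simp) (Ne.symm h2) (Ne.symm h0)
      refine hasDisjointPaths_four (q 0 ?_ ?_) (q 1 ?_ ?_) (q 2 ?_ ?_) p
        ?_ ?_ ?_ ?_ ?_ ?_ <;> simp [varE, endE, h2, h0, Ne.symm h2, Ne.symm h0]
    · -- the false literal
      have hrl : rk τ (vLt (!(τ x), x)) = 5 := by
        rw [rk_L, if_neg (by simp)]
      have hm : ((0, vY x, vLt (!(τ x), x)) : MEdge) ∈ varE x := by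
        cases τ x <;> simp [varE]
      have hl1 : ((0, vLt (!(τ x), x), 1) : MEdge) ∈ redE φ := by
        rw [mem_redE]
        exact Or.inr (Or.inr (Or.inr ⟨(!(τ x), x), (mem_litsOf' _ _).2 hx, by simp [endE]⟩))
      have hn := vLt_ne (!(τ x), x)
      have hnY := hn.2.2.2.2 x
      have q : IsDiPath (redE φ) (orr τ) (vY x)
          [(0, vY x, vLt (!(τ x), x)), (0, vLt (!(τ x), x), 1)] 1 :=
        path2 (e := (0, vY x, vLt (!(τ x), x))) (f := (0, vLt (!(τ x), x), 1)) (hE _ hm) hl1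
          (by simp [orr, hrl, hY]) (by simp [orr, hrl, k1]) rfl (Ne.symm hnY) hn.2.1 h1
      have p : ∀ i : ℕ, (i, vY x, 1) ∈ varE x →
          IsDiPath (redE φ) (orr τ) (vY x) [(i, vY x, 1)] 1 := by
        intro i hi
        exact path1 (e := (i, vY x, 1)) (hE _ hi) (by simp [orr, k1, hY]) h1
      refine hasDisjointPaths_four (p 0 ?_) (p 1 ?_) (p 2 ?_) q ?_ ?_ ?_ ?_ ?_ ?_ <;>
        simp [varE, h1, hnY, Ne.symm hnY, hn.2.1, Ne.symm hn.2.1]
  · -- a literal vertex
    refine paths_end (fun e he => (mem_redE _ _).2 (Or.inr (Or.inr (Or.inr ⟨l, hl, he⟩))))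
      h0 h1 ?_ ?_
    · rcases kL l with h | h <;> omega
    · rcases kL l with h | h <;> omega

end Forth

theorem acRed_correct (φ : List Cl3) : Sat3 φ ↔ AcycST (acRed φ) := by
  constructor
  · rintro ⟨τ, hτ⟩
    exact ⟨valid φ, orr τ, good_of_sat hτ⟩
  · rintro ⟨_, o, ho⟩
    exact sat_of_good ho

/-! ### The reduction is computable in polynomial time -/

section PolyTime

set_option synthInstance.maxSize 4000

open Poly

theorem vW_poly {α : Type} [TEnc α] {n : α → ℕ} (hn : Poly n) : Poly (fun a => vW (n a)) :=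
  add (mul (const 4) hn) (const 3)

theorem vY_poly {α : Type} [TEnc α] {n : α → ℕ} (hn : Poly n) : Poly (fun a => vY (n a)) :=
  add (mul (const 4) hn) (const 4)

theorem vLt_poly {α : Type} [TEnc α] {l : α → Lit} (hl : Poly l) : Poly (fun a => vLt (l a)) :=
  add (mul (const 4) (snd hl)) (cond (fst hl) (const 5) (const 6))

theorem edge_poly {α : Type} [TEnc α] {u v : α → ℕ} (i : ℕ) (hu : Poly u) (hv : Poly v) :
    Poly (fun a => ((i, u a, v a) : MEdge)) := pair (const i) (pair hu hv)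

theorem endE_poly {α : Type} [TEnc α] {v : α → ℕ} (hv : Poly v) : Poly (fun a => endE (v a)) :=
  cons (edge_poly 0 (const 0) hv) (cons (edge_poly 1 (const 0) hv)
    (cons (edge_poly 2 (const 0) hv) (cons (edge_poly 3 (const 0) hv)
    (cons (edge_poly 0 hv (const 1)) (cons (edge_poly 1 hv (const 1))
    (cons (edge_poly 2 hv (const 1)) (cons (edge_poly 3 hv (const 1)) (const []))))))))

theorem varE_poly {α : Type} [TEnc α] {n : α → ℕ} (hn : Poly n) : Poly (fun a => varE (n a)) :=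
  have h := vY_poly hn
  cons (edge_poly 0 (const 2) h) (cons (edge_poly 1 (const 2) h)
    (cons (edge_poly 2 (const 2) h) (cons (edge_poly 0 h (vLt_poly (pair (const true) hn)))
    (cons (edge_poly 0 h (vLt_poly (pair (const false) hn))) (cons (edge_poly 0 (const 0) h)
    (cons (edge_poly 0 h (const 1)) (cons (edge_poly 1 h (const 1))
    (cons (edge_poly 2 h (const 1)) (const [])))))))))

theorem clE_poly {α : Type} [TEnc α] {c : α → Cl3} {n : α → ℕ} (hc : Poly c) (hn : Poly n) :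
    Poly (fun a => clE (c a) (n a)) :=
  have h := vW_poly hn
  cons (edge_poly 0 (vLt_poly (fst hc)) h) (cons (edge_poly 1 (vLt_poly (fst (snd hc))) h)
    (cons (edge_poly 2 (vLt_poly (snd (snd hc))) h) (cons (edge_poly 0 h (const 2))
    (cons (edge_poly 1 h (const 2)) (cons (edge_poly 2 h (const 2))
    (cons (edge_poly 3 h (const 2)) (cons (edge_poly 0 (const 0) h)
    (cons (edge_poly 1 (const 0) h) (cons (edge_poly 2 (const 0) h) (const []))))))))))

theorem varsOf_poly {α : Type} [TEnc α] {f : α → List Cl3} (hf : Poly f) :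
    Poly (fun a => varsOf (f a)) :=
  ddup_poly (flatMap (F := fun _ (c : Cl3) => [c.1.2, c.2.1.2, c.2.2.2]) hf
    (cons (snd (fst (snd id))) (cons (snd (fst (snd (snd id)))) (cons
      (snd (snd (snd (snd id)))) (const [])))))

theorem acRed_poly : Poly acRed := by
  have hr : Poly (fun φ : List Cl3 => List.range φ.length) := range_length id
  refine pair ?_ (pair ?_ (const _))
  · exact append (const _) (append (map (F := fun _ j => vW j) hr (vW_poly (snd id)))
      (append (map (F := fun _ x => vY x) (varsOf_poly id) (vY_poly (snd id)))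
        (map (F := fun _ l => vLt l) (litsOf_poly id) (vLt_poly (snd id)))))
  · exact append (const _) (append (flatMap (F := fun φ j => clE (clAt φ j) j) hr
      (clE_poly (clAt_poly (fst id) (snd id)) (snd id)))
      (append (flatMap (F := fun _ x => varE x) (varsOf_poly id) (varE_poly (snd id)))
        (flatMap (F := fun _ l => endE (vLt l)) (litsOf_poly id)
          (endE_poly (vLt_poly (snd id))))))

end PolyTime

end Pool.Agent.H622R2.Acyc
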