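import Pool.Agent.H622R2.Base

/-!
# Strong cliques through edges: the combinatorial reduction
-/

namespace Pool.Agent.H622R2

/-- A strong clique of a graph: a clique that meets every maximal stable set. -/
def IsStrongClique {V : Type} (G : SimpleGraph V) (C : Set V) : Prop :=
  G.IsClique C ∧ ∀ S : Set V, Maximal G.IsIndepSet S → (C ∩ S).Nonempty

/-- Every edge of the graph lies in a strong clique. -/
def EdgeStrong {V : Type} (G : SimpleGraph V) : Prop :=
  ∀ x y : V, G.Adj x y → ∃ C : Set V, IsStrongClique G C ∧ x ∈ C ∧ y ∈ C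

theorem EdgeStrong.of_iso {V W : Type} {G : SimpleGraph V} {H : SimpleGraph W} (e : G ≃g H)
    (h : EdgeStrong G) : EdgeStrong H := by
  intro x y hxy
  obtain ⟨C, ⟨hC1, hC2⟩, hx, hy⟩ := h (e.symm x) (e.symm y) ((e.symm.map_adj_iff).2 hxy)
  refine ⟨e '' C, ⟨?_, ?_⟩, ⟨_, hx, by simp⟩, ⟨_, hy, by simp⟩⟩
  · rintro _ ⟨a, ha, rfl⟩ _ ⟨b, hb, rfl⟩ hab
    exact (e.map_adj_iff).2 (hC1 ha hb (fun h => hab (by rw [h])))
  · intro S hS
    have hS' : Maximal G.IsIndepSet (e ⁻¹' S) := by
      refine ⟨?_, ?_⟩
      · intro a ha b hb hab h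
        exact hS.1 ha hb (fun h' => hab (e.injective h')) ((e.map_adj_iff).2 h)
      · intro T hT hST a ha
        have h1 : H.IsIndepSet (e '' T) := by
          rintro _ ⟨a, ha, rfl⟩ _ ⟨b, hb, rfl⟩ hab h
          exact hT ha hb (fun h => hab (by rw [h])) ((e.map_adj_iff).1 h)
        have h2 : S ⊆ e '' T := by
          intro s hs
          exact ⟨e.symm s, hST (by simpa using hs), by simp⟩
        exact hS.2 h1 h2 ⟨a, ha, rfl⟩
    obtain ⟨a, ha, ha'⟩ := hC2 _ hS'
    exact ⟨e a, ⟨a, ha, rfl⟩, ha'⟩

/-- A choice: a triple of clause indices, the index of a copy, a literal. -/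
abbrev Choice := (ℕ × ℕ × ℕ) × ℕ × Lit

/-- Labels of vertices. -/
abbrev Lab := Choice ⊕ (Choice × Choice)

/-- The component of a triple. -/
def sel (v : ℕ × ℕ × ℕ) (s : ℕ) : ℕ := if s = 0 then v.1 else if s = 1 then v.2.1 else v.2.2

/-- Two choices are in conflict. -/
def conf (a b : Choice) : Bool :=
  decide (a.1 ≠ b.1) && decide (a.2.1 = b.2.1) && decide (a.2.2.2 = b.2.2.2) &&
    decide (a.2.2.1 ≠ b.2.2.1)

theorem conf_iff (a b : Choice) : conf a b = true ↔
    a.1 ≠ b.1 ∧ a.2.1 = b.2.1 ∧ a.2.2.2 = b.2.2.2 ∧ a.2.2.1 ≠ b.2.2.1 := by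
  simp [conf, and_assoc]

theorem conf_comm (a b : Choice) : conf a b = conf b a := by
  rw [Bool.eq_iff_iff, conf_iff, conf_iff]
  constructor
  · rintro ⟨h1, h2, h3, h4⟩; exact ⟨h1.symm, h2.symm, h3.symm, h4.symm⟩
  · rintro ⟨h1, h2, h3, h4⟩; exact ⟨h1.symm, h2.symm, h3.symm, h4.symm⟩

/-- Adjacency of labels. -/
def adjL : Lab → Lab → Bool
  | Sum.inl a, Sum.inl b => decide (a.1 ≠ b.1) && !(conf a b)
  | Sum.inl a, Sum.inr p => decide (a ≠ p.1) && decide (a ≠ p.2)
  | Sum.inr p, Sum.inl a => decide (a ≠ p.1) && decide (a ≠ p.2)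
  | Sum.inr p, Sum.inr q => decide (p ≠ q)

theorem adjL_comm (x y : Lab) : adjL x y = adjL y x := by
  rcases x with a | p <;> rcases y with b | q
  · simp only [adjL, conf_comm a b, ne_comm]
  · rfl
  · rfl
  · simp only [adjL, ne_comm]

theorem adjL_irrefl (x : Lab) : adjL x x = false := by
  rcases x with a | p <;> simp [adjL]

/-- The valid choices. -/
def ValidC (m : ℕ) (cl : ℕ → List Lit) (a : Choice) : Prop :=
  a.1.1 < m ∧ a.1.2.1 < m ∧ a.1.2.2 < m ∧ a.2.1 < 3 ∧ a.2.2 ∈ cl (sel a.1 a.2.1)

/-- The valid labels. -/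
def Valid (m : ℕ) (cl : ℕ → List Lit) : Lab → Prop
  | Sum.inl a => ValidC m cl a
  | Sum.inr p => ValidC m cl p.1 ∧ ValidC m cl p.2 ∧ conf p.1 p.2 = true

theorem labGraph_adj {vs : List Lab} (x y : {x // x ∈ vs}) :
    (labGraph vs adjL).Adj x y ↔ adjL x.1 y.1 = true := by
  unfold labGraph
  simp only
  constructor
  · rintro ⟨_, h | h⟩
    · exact h
    · rw [adjL_comm]; exact h
  · intro h
    refine ⟨?_, Or.inl h⟩
    rintro rfl
    rw [adjL_irrefl] at h
    exact absurd h (by simp)

/-- The copy index of a label. -/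
def copyOf : Lab → ℕ
  | Sum.inl a => a.2.1
  | Sum.inr p => p.1.2.1

section Forward

variable {m : ℕ} {cl : ℕ → List Lit} {vs : List Lab} (hvs : ∀ x, x ∈ vs ↔ Valid m cl x)

/-- The choice made in the group `v`: `p` or `q` if they are choices in that group, otherwise
a true literal in the copy `t`. -/
def pick (p q : Lab) (t : ℕ) (lam : ℕ → Lit) (v : ℕ × ℕ × ℕ) : Choice :=
  match p with
  | Sum.inl a => if a.1 = v then a else
      match q with
      | Sum.inl b => if b.1 = v then b else (v, t, lam (sel v t))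
      | Sum.inr _ => (v, t, lam (sel v t))
  | Sum.inr _ =>
      match q with
      | Sum.inl b => if b.1 = v then b else (v, t, lam (sel v t))
      | Sum.inr _ => (v, t, lam (sel v t))

theorem pick_cases (p q : Lab) (t : ℕ) (lam : ℕ → Lit) (v : ℕ × ℕ × ℕ) :
    (p = Sum.inl (pick p q t lam v) ∧ (pick p q t lam v).1 = v) ∨
    (q = Sum.inl (pick p q t lam v) ∧ (pick p q t lam v).1 = v) ∨
    pick p q t lam v = (v, t, lam (sel v t)) := by
  unfold pick
  rcases p with a | p <;> rcases q with b | q
  · simp only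
    split_ifs with h1 h2
    · exact Or.inl ⟨rfl, h1⟩
    · exact Or.inr (Or.inl ⟨rfl, h2⟩)
    · exact Or.inr (Or.inr rfl)
  · simp only
    split_ifs with h1
    · exact Or.inl ⟨rfl, h1⟩
    · exact Or.inr (Or.inr rfl)
  · simp only
    split_ifs with h1
    · exact Or.inr (Or.inl ⟨rfl, h1⟩)
    · exact Or.inr (Or.inr rfl)
  · exact Or.inr (Or.inr rfl)

theorem pick_fst (p q : Lab) (t : ℕ) (lam : ℕ → Lit) (v : ℕ × ℕ × ℕ) :
    (pick p q t lam v).1 = v := by
  rcases pick_cases p q t lam v with h | h | h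
  · exact h.2
  · exact h.2
  · rw [h]

theorem pick_left (a : Choice) (q : Lab) (t : ℕ) (lam : ℕ → Lit) :
    pick (Sum.inl a) q t lam a.1 = a := by
  simp [pick]

theorem pick_right (p : Lab) (b : Choice) (t : ℕ) (lam : ℕ → Lit)
    (h : adjL p (Sum.inl b) = true) : pick p (Sum.inl b) t lam b.1 = b := by
  rcases p with a | p
  · simp only [adjL, Bool.and_eq_true, decide_eq_true_eq] at h
    simp [pick, h.1]
  · simp [pick]

/-- The clique used for the edge `pq`. -/
def bigK (p q : Lab) (t : ℕ) (lam : ℕ → Lit) : Set {x // x ∈ vs} :=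
  {x | match x.1 with
    | Sum.inl a => a = pick p q t lam a.1
    | Sum.inr r => r.1 ≠ pick p q t lam r.1.1 ∧ r.2 ≠ pick p q t lam r.2.1}

include hvs in
theorem edgeStrong_of_sat (τ : ℕ → Bool) (hτ : ∀ i < m, ∃ l ∈ cl i, τ l.2 = l.1) :
    EdgeStrong (labGraph vs adjL) := by
  classical
  -- a true literal in each clause
  have hlam : ∀ i, ∃ l : Lit, i < m → l ∈ cl i ∧ τ l.2 = l.1 := by
    intro i
    by_cases hi : i < m
    · obtain ⟨l, h1, h2⟩ := hτ i hi
      exact ⟨l, fun _ => ⟨h1, h2⟩⟩
    · exact ⟨(true, 0), fun h => absurd h hi⟩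
  choose lam hlam using hlam
  intro x y hxy
  rw [labGraph_adj] at hxy
  obtain ⟨t, ht3, htx, hty⟩ : ∃ t, t < 3 ∧ t ≠ copyOf x.1 ∧ t ≠ copyOf y.1 := by
    by_contra hcon
    push Not at hcon
    have h0 := hcon 0 (by norm_num)
    have h1 := hcon 1 (by norm_num)
    have h2 := hcon 2 (by norm_num)
    omega
  set f := pick x.1 y.1 t lam with hf
  have hxV : Valid m cl x.1 := (hvs _).1 x.2
  have hyV : Valid m cl y.1 := (hvs _).1 y.2
  -- the choice is valid
  have hfV : ∀ v : ℕ × ℕ × ℕ, v.1 < m → v.2.1 < m → v.2.2 < m → ValidC m cl (f v) := by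
    intro v h1 h2 h3
    rcases pick_cases x.1 y.1 t lam v with h | h | h
    · rw [← hf] at h
      rw [h.1] at hxV
      exact hxV
    · rw [← hf] at h
      rw [h.1] at hyV
      exact hyV
    · rw [← hf] at h
      rw [h]
      have hs : sel v t < m := by unfold sel; split_ifs <;> assumption
      exact ⟨h1, h2, h3, ht3, (hlam _ hs).1⟩
  -- no conflict between choices made
  have hfc : ∀ v w : ℕ × ℕ × ℕ, v.1 < m → v.2.1 < m → v.2.2 < m → w.1 < m → w.2.1 < m →
      w.2.2 < m → v ≠ w → adjL (Sum.inl (f v)) (Sum.inl (f w)) = true := by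
    intro v w v1 v2 v3 w1 w2 w3 hvw
    have hne : (f v).1 ≠ (f w).1 := by
      rw [hf, pick_fst, pick_fst]
      exact hvw
    rcases pick_cases x.1 y.1 t lam v with h | h | h <;>
      rcases pick_cases x.1 y.1 t lam w with h' | h' | h' <;> rw [← hf] at h h'
    · exfalso
      have := h.1.symm.trans h'.1
      simp only [Sum.inl.injEq] at this
      exact hne (by rw [this])
    · rw [h.1, h'.1] at hxy; exact hxy
    · rw [h.1] at htx
      simp only [copyOf] at htx
      simp only [adjL, Bool.and_eq_true, decide_eq_true_eq, Bool.not_eq_true']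
      refine ⟨hne, ?_⟩
      rw [← Bool.not_eq_true, conf_iff]
      rintro ⟨_, h2, _⟩
      rw [h'] at h2
      exact htx h2.symm
    · rw [h.1, h'.1, adjL_comm] at hxy; exact hxy
    · exfalso
      have := h.1.symm.trans h'.1
      simp only [Sum.inl.injEq] at this
      exact hne (by rw [this])
    · rw [h.1] at hty
      simp only [copyOf] at hty
      simp only [adjL, Bool.and_eq_true, decide_eq_true_eq, Bool.not_eq_true']
      refine ⟨hne, ?_⟩
      rw [← Bool.not_eq_true, conf_iff]
      rintro ⟨_, h2, _⟩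
      rw [h'] at h2
      exact hty h2.symm
    · rw [h'.1] at htx
      simp only [copyOf] at htx
      simp only [adjL, Bool.and_eq_true, decide_eq_true_eq, Bool.not_eq_true']
      refine ⟨hne, ?_⟩
      rw [← Bool.not_eq_true, conf_iff]
      rintro ⟨_, h2, _⟩
      rw [h] at h2
      exact htx h2
    · rw [h'.1] at hty
      simp only [copyOf] at hty
      simp only [adjL, Bool.and_eq_true, decide_eq_true_eq, Bool.not_eq_true']
      refine ⟨hne, ?_⟩
      rw [← Bool.not_eq_true, conf_iff]
      rintro ⟨_, h2, _⟩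
      rw [h] at h2
      exact hty h2
    · simp only [adjL, Bool.and_eq_true, decide_eq_true_eq, Bool.not_eq_true']
      refine ⟨hne, ?_⟩
      rw [← Bool.not_eq_true, conf_iff, h, h']
      rintro ⟨_, _, h3, h4⟩
      simp only at h3 h4
      have hs : sel v t < m := by unfold sel; split_ifs <;> assumption
      have hs' : sel w t < m := by unfold sel; split_ifs <;> assumption
      have e1 := (hlam _ hs).2
      have e2 := (hlam _ hs').2
      rw [h3, e2] at e1
      exact h4 e1.symm
  -- members of the clique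
  have memL : ∀ (a : Choice) (ha : Sum.inl a ∈ vs),
      (⟨Sum.inl a, ha⟩ : {x // x ∈ vs}) ∈ bigK (vs := vs) x.1 y.1 t lam ↔ a = f a.1 :=
    fun a ha => Iff.rfl
  have memR : ∀ (r : Choice × Choice) (hr : Sum.inr r ∈ vs),
      (⟨Sum.inr r, hr⟩ : {x // x ∈ vs}) ∈ bigK (vs := vs) x.1 y.1 t lam ↔
        (r.1 ≠ f r.1.1 ∧ r.2 ≠ f r.2.1) :=
    fun r hr => Iff.rfl
  -- labels with a copy index different from `t` which are picked are `x` or `y`
  have hpick : ∀ a : Choice, a.2.1 ≠ t → a = f a.1 → x.1 = Sum.inl a ∨ y.1 = Sum.inl a := by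
    intro a hat haf
    rcases pick_cases x.1 y.1 t lam a.1 with h | h | h <;> rw [← hf] at h
    · left; rw [h.1, ← haf]
    · right; rw [h.1, ← haf]
    · exfalso
      rw [← haf] at h
      apply hat
      rw [h]
  have hmemx : x ∈ bigK (vs := vs) x.1 y.1 t lam := by
    obtain ⟨lx, hlx⟩ := x
    obtain ⟨ly, hly⟩ := y
    rcases lx with a | r
    · rw [memL]
      exact (pick_left a _ t lam).symm
    · rw [memR]
      simp only [copyOf] at htx
      have hc := (conf_iff _ _).1 hxV.2.2
      constructor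
      · intro h
        rcases hpick r.1 (fun h => htx h.symm) h with h | h
        · exact absurd h (by simp)
        · simp only at h hxy
          rw [h] at hxy
          simp [adjL] at hxy
      · intro h
        rcases hpick r.2 (fun h => htx (by rw [← h, hc.2.1])) h with h | h
        · exact absurd h (by simp)
        · simp only at h hxy
          rw [h] at hxy
          simp [adjL] at hxy
  have hmemy : y ∈ bigK (vs := vs) x.1 y.1 t lam := by
    obtain ⟨lx, hlx⟩ := x
    obtain ⟨ly, hly⟩ := y
    rcases ly with b | r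
    · rw [memL]
      exact (pick_right _ b t lam hxy).symm
    · rw [memR]
      simp only [copyOf] at hty
      have hc := (conf_iff _ _).1 hyV.2.2
      constructor
      · intro h
        rcases hpick r.1 (fun h => hty h.symm) h with h | h
        · simp only at h hxy
          rw [h] at hxy
          simp [adjL] at hxy
        · exact absurd h (by simp)
      · intro h
        rcases hpick r.2 (fun h => hty (by rw [← h, hc.2.1])) h with h | h
        · simp only at h hxy
          rw [h] at hxy
          simp [adjL] at hxy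
        · exact absurd h (by simp)
  refine ⟨bigK (vs := vs) x.1 y.1 t lam, ⟨?_, ?_⟩, hmemx, hmemy⟩
  · -- it is a clique
    rintro ⟨u, hu⟩ hu' ⟨w, hw⟩ hw' huw
    rw [labGraph_adj]
    rcases u with a | r <;> rcases w with b | s
    · rw [memL] at hu' hw'
      have hVa : ValidC m cl a := (hvs _).1 hu
      have hVb : ValidC m cl b := (hvs _).1 hw
      change adjL (Sum.inl a) (Sum.inl b) = true
      rw [hu', hw']
      refine hfc _ _ hVa.1 hVa.2.1 hVa.2.2.1 hVb.1 hVb.2.1 hVb.2.2.1 ?_
      intro h
      apply huw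
      simp only [Subtype.mk.injEq, Sum.inl.injEq]
      rw [hu', hw', h]
    · rw [memL] at hu'
      rw [memR] at hw'
      simp only [adjL, Bool.and_eq_true, decide_eq_true_eq]
      constructor
      · rintro rfl; exact hw'.1 hu'
      · rintro rfl; exact hw'.2 hu'
    · rw [memR] at hu'
      rw [memL] at hw'
      simp only [adjL, Bool.and_eq_true, decide_eq_true_eq]
      constructor
      · rintro rfl; exact hu'.1 hw'
      · rintro rfl; exact hu'.2 hw'
    · simp only [adjL, decide_eq_true_eq]
      rintro rfl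
      exact huw rfl
  · -- it meets every maximal stable set
    intro S hS
    by_contra hcon
    rw [Set.not_nonempty_iff_eq_empty] at hcon
    have hdisj : ∀ u : {x // x ∈ vs}, u ∈ bigK (vs := vs) x.1 y.1 t lam → u ∉ S := by
      intro u h1 h2
      have : u ∈ bigK (vs := vs) x.1 y.1 t lam ∩ S := ⟨h1, h2⟩
      rw [hcon] at this
      exact this
    -- a vertex outside `S` has a neighbour in `S`
    have hdom : ∀ u : {x // x ∈ vs}, u ∈ bigK (vs := vs) x.1 y.1 t lam →
        ∃ w ∈ S, adjL u.1 w.1 = true := by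
      intro u hu
      by_contra hno
      push Not at hno
      have h1 : (labGraph vs adjL).IsIndepSet (insert u S) := by
        rintro a ha b hb hab h
        rw [labGraph_adj] at h
        rcases ha with rfl | ha <;> rcases hb with rfl | hb
        · exact hab rfl
        · exact hno b hb h
        · rw [adjL_comm] at h
          exact hno a ha h
        · exact hS.1 ha hb hab ((labGraph_adj _ _).2 h)
      exact hdisj u hu (hS.2 h1 (Set.subset_insert _ _) (Set.mem_insert _ _))
    have hstab : ∀ a b : {x // x ∈ vs}, a ∈ S → b ∈ S → adjL a.1 b.1 = false := by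
      intro a b ha hb
      by_cases hab : a = b
      · rw [hab, adjL_irrefl]
      · rw [← Bool.not_eq_true, ← labGraph_adj]
        exact hS.1 ha hb hab
    -- the key case distinction: a conflicting pair `(a, b)` containing all of `S` up to the
    -- corresponding extra vertex
    have key : ∀ (a b : Choice) (hab : Sum.inr (a, b) ∈ vs),
        (∀ w ∈ S, w.1 = Sum.inl a ∨ w.1 = Sum.inl b ∨ w.1 = Sum.inr (a, b)) → False := by
      intro a b hab hall
      have hV : ValidC m cl a ∧ ValidC m cl b ∧ conf a b = true := (hvs _).1 hab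
      have ha : Sum.inl a ∈ vs := (hvs _).2 hV.1
      have hb : Sum.inl b ∈ vs := (hvs _).2 hV.2.1
      have hcba : conf b a = true := by rw [conf_comm]; exact hV.2.2
      by_cases h1 : a = f a.1
      · obtain ⟨w, hw, hw'⟩ := hdom ⟨Sum.inl a, ha⟩ ((memL _ _).2 h1)
        rcases hall w hw with h | h | h
        · rw [h] at hw'; simp [adjL] at hw'
        · rw [h] at hw'; simp [adjL, hV.2.2] at hw'
        · rw [h] at hw'; simp [adjL] at hw'
      · by_cases h2 : b = f b.1
        · obtain ⟨w, hw, hw'⟩ := hdom ⟨Sum.inl b, hb⟩ ((memL _ _).2 h2)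
          rcases hall w hw with h | h | h
          · rw [h] at hw'; simp [adjL, hcba] at hw'
          · rw [h] at hw'; simp [adjL] at hw'
          · rw [h] at hw'; simp [adjL] at hw'
        · obtain ⟨w, hw, hw'⟩ := hdom ⟨Sum.inr (a, b), hab⟩ ((memR _ _).2 ⟨h1, h2⟩)
          rcases hall w hw with h | h | h
          · rw [h] at hw'; simp [adjL] at hw'
          · rw [h] at hw'; simp [adjL] at hw'
          · rw [h] at hw'; simp [adjL] at hw'
    by_cases hn : ∃ w ∈ S, ∃ r, w.1 = Sum.inr r
    · obtain ⟨⟨w, hwv⟩, hwS, ⟨a, b⟩, hw⟩ := hn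
      simp only at hw
      subst hw
      refine key a b hwv ?_
      rintro ⟨u, hu⟩ huS
      have h := hstab _ _ huS hwS
      rcases u with c | r
      · simp only [adjL, Bool.and_eq_false_iff, decide_eq_false_iff_not, ne_eq, not_not] at h
        rcases h with h | h
        · left; exact congrArg Sum.inl h
        · right; left; exact congrArg Sum.inl h
      · simp only [adjL, decide_eq_false_iff_not, ne_eq, not_not] at h
        right; right; exact congrArg Sum.inr h
    · push Not at hn
      -- `S` consists of choices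
      have hch : ∀ w ∈ S, ∃ a, w.1 = Sum.inl a := by
        intro w hw
        rcases h : w.1 with a | r
        · exact ⟨a, rfl⟩
        · exact absurd h (hn w hw r)
      obtain ⟨w0, hw0, _⟩ := hdom x hmemx
      obtain ⟨a, ha⟩ := hch w0 hw0
      have hVa : ValidC m cl a := by
        have := (hvs _).1 w0.2
        rw [ha] at this
        exact this
      by_cases hg : ∀ w ∈ S, ∀ b, w.1 = Sum.inl b → b.1 = a.1
      · -- all in one group
        have hfa := hfV a.1 hVa.1 hVa.2.1 hVa.2.2.1
        have hfm : Sum.inl (f a.1) ∈ vs := (hvs _).2 hfa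
        have e1 : (f a.1).1 = a.1 := pick_fst _ _ _ _ _
        obtain ⟨w, hw, hw'⟩ := hdom ⟨Sum.inl (f a.1), hfm⟩ ((memL _ _).2 (by rw [e1]))
        obtain ⟨b, hb⟩ := hch w hw
        have := hg w hw b hb
        rw [hb] at hw'
        simp [adjL, e1, this] at hw'
      · push Not at hg
        obtain ⟨w1, hw1, b, hb, hba⟩ := hg
        have hVb : ValidC m cl b := by
          have := (hvs _).1 w1.2
          rw [hb] at this
          exact this
        have hab := hstab w0 w1 hw0 hw1
        rw [ha, hb] at hab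
        simp only [adjL, Bool.and_eq_false_iff, decide_eq_false_iff_not, ne_eq, not_not,
          Bool.not_eq_false'] at hab
        have hcab : conf a b = true := by
          rcases hab with h | h
          · exact absurd h.symm hba
          · exact h
        refine key a b ((hvs _).2 ⟨hVa, hVb, hcab⟩) ?_
        intro w hw
        obtain ⟨c, hc⟩ := hch w hw
        have hca := hstab w w0 hw hw0
        have hcb := hstab w w1 hw hw1
        rw [hc, ha] at hca
        rw [hc, hb] at hcb
        simp only [adjL, Bool.and_eq_false_iff, decide_eq_false_iff_not, ne_eq, not_not,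
          Bool.not_eq_false'] at hca hcb
        rw [conf_iff] at hca hcb hcab
        obtain ⟨_, g2, g3, g4⟩ := hcab
        rw [hc]
        obtain ⟨cv, cs, cb, cx⟩ := c
        obtain ⟨av, as, ab, ax⟩ := a
        obtain ⟨bv, bs, bb, bx⟩ := b
        simp only at g2 g3 g4 hca hcb hba
        rcases hca with h | ⟨_, h2, h3, h4⟩ <;> rcases hcb with h' | ⟨_, h2', h3', h4'⟩
        · exact absurd (h'.symm.trans h) hba
        · left
          have : cb = ab := by revert g4 h4'; cases cb <;> cases ab <;> cases bb <;> simp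
          rw [h, h2', ← g2, this, h3', ← g3]
        · right; left
          have : cb = bb := by revert g4 h4; cases cb <;> cases ab <;> cases bb <;> simp
          rw [h', h2, g2, this, h3, g3]
        · exfalso
          revert g4 h4 h4'; cases cb <;> cases ab <;> cases bb <;> simp

end Forward

section Backward

variable {m : ℕ} {cl : ℕ → List Lit} {vs : List Lab} (hvs : ∀ x, x ∈ vs ↔ Valid m cl x)
  (hne : ∀ i < m, cl i ≠ [])

include hvs hne in
theorem sat_of_edgeStrong (h : EdgeStrong (labGraph vs adjL)) :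
    ∃ τ : ℕ → Bool, ∀ i < m, ∃ l ∈ cl i, τ l.2 = l.1 := by
  classical
  have hhead : ∀ i, ∃ l : Lit, i < m → l ∈ cl i := by
    intro i
    by_cases hi : i < m
    · obtain ⟨l, hl⟩ := List.exists_mem_of_ne_nil _ (hne i hi)
      exact ⟨l, fun _ => hl⟩
    · exact ⟨(true, 0), fun h => absurd h hi⟩
  choose hd hhd using hhead
  rcases Nat.lt_or_ge m 2 with hm | hm
  · -- at most one clause
    refine ⟨fun n => if n = (hd 0).2 then (hd 0).1 else true, fun i hi => ?_⟩
    have : i = 0 := by omega
    subst this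
    exact ⟨hd 0, hhd 0 hi, by simp⟩
  -- an edge
  have vx : ValidC m cl ((0, 0, 0), 0, hd 0) :=
    ⟨by simp; omega, by simp; omega, by simp; omega, by simp, by simpa [sel] using hhd 0 (by omega)⟩
  have vy : ValidC m cl ((0, 1, 0), 1, hd 1) :=
    ⟨by simp; omega, by simp; omega, by simp; omega, by simp, by simpa [sel] using hhd 1 (by omega)⟩
  obtain ⟨K, ⟨hK1, hK2⟩, -, -⟩ := h ⟨Sum.inl ((0, 0, 0), 0, hd 0), (hvs _).2 vx⟩
    ⟨Sum.inl ((0, 1, 0), 1, hd 1), (hvs _).2 vy⟩ (by
      rw [labGraph_adj]
      simp [adjL, conf])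
  -- the groups are maximal stable sets
  have hQ : ∀ v : ℕ × ℕ × ℕ, v.1 < m → v.2.1 < m → v.2.2 < m →
      ∃ a : Choice, ∃ ha : Sum.inl a ∈ vs, a.1 = v ∧ (⟨Sum.inl a, ha⟩ : {x // x ∈ vs}) ∈ K := by
    intro v h1 h2 h3
    have hmem : ∀ s < 3, Sum.inl (v, s, hd (sel v s)) ∈ vs := by
      intro s hs
      refine (hvs _).2 ⟨h1, h2, h3, hs, hhd _ ?_⟩
      unfold sel
      split_ifs <;> assumption
    have hmax : Maximal (labGraph vs adjL).IsIndepSet
        {x : {x // x ∈ vs} | ∃ a : Choice, x.1 = Sum.inl a ∧ a.1 = v} := by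
      refine ⟨?_, ?_⟩
      · rintro x ⟨a, ha, hav⟩ y ⟨b, hb, hbv⟩ _ hxy
        rw [labGraph_adj, ha, hb] at hxy
        simp [adjL, hav, hbv] at hxy
      · intro T hT hsub x hx
        by_contra hxn
        have hnon : ∀ s < 3, adjL x.1 (Sum.inl (v, s, hd (sel v s))) = false := by
          intro s hs
          rw [← Bool.not_eq_true, ← labGraph_adj x ⟨Sum.inl (v, s, hd (sel v s)), hmem s hs⟩]
          refine hT hx (hsub ⟨_, rfl, rfl⟩) ?_
          rintro rfl
          exact hxn ⟨_, rfl, rfl⟩
        have n0 := hnon 0 (by norm_num)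
        have n1 := hnon 1 (by norm_num)
        have n2 := hnon 2 (by norm_num)
        rcases hx1 : x.1 with a | r
        · have hav : a.1 ≠ v := fun h => hxn ⟨a, hx1, h⟩
          rw [hx1] at n0 n1
          simp only [adjL, Bool.and_eq_false_iff, decide_eq_false_iff_not, ne_eq, not_not,
            Bool.not_eq_false', hav, false_or, conf_iff] at n0 n1
          omega
        · rw [hx1] at n0 n1 n2
          have hr : ValidC m cl r.1 ∧ ValidC m cl r.2 ∧ conf r.1 r.2 = true := by
            have := (hvs _).1 x.2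
            rw [hx1] at this
            exact this
          simp only [adjL, Bool.and_eq_false_iff, decide_eq_false_iff_not, ne_eq, not_not]
            at n0 n1 n2
          have hc := (conf_iff _ _).1 hr.2.2
          rcases n0 with e0 | e0 <;> rcases n1 with e1 | e1
          · rw [← e0] at e1; simp at e1
          · apply hc.1; rw [← e0, ← e1]
          · apply hc.1; rw [← e0, ← e1]
          · rw [← e0] at e1; simp at e1
    obtain ⟨⟨x, hx⟩, hxK, a, ha, hav⟩ := hK2 _ hmax
    simp only at ha
    subst ha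
    exact ⟨a, hx, hav, hxK⟩
  -- one copy is satisfied
  by_contra hcon
  push Not at hcon
  have hbad : ∀ s : ℕ, ∃ i < m, ∀ l ∈ cl i, (decide (∃ a : Choice, ∃ ha : Sum.inl a ∈ vs,
      (⟨Sum.inl a, ha⟩ : {x // x ∈ vs}) ∈ K ∧ a.2.1 = s ∧ a.2.2 = (true, l.2))) ≠ l.1 :=
    fun s => hcon (fun n => decide (∃ a : Choice, ∃ ha : Sum.inl a ∈ vs,
      (⟨Sum.inl a, ha⟩ : {x // x ∈ vs}) ∈ K ∧ a.2.1 = s ∧ a.2.2 = (true, n)))
  choose bad hbad1 hbad2 using hbad
  obtain ⟨a, ha, hav, haK⟩ := hQ (bad 0, bad 1, bad 2) (hbad1 0) (hbad1 1) (hbad1 2)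
  have hVa : ValidC m cl a := (hvs _).1 ha
  have hs : sel a.1 a.2.1 = bad a.2.1 := by
    have := hVa.2.2.2.1
    rw [hav]
    unfold sel
    simp only
    split_ifs with h0 h1
    · rw [h0]
    · rw [h1]
    · have : a.2.1 = 2 := by omega
      rw [this]
  have hl := hVa.2.2.2.2
  rw [hs] at hl
  have h1 := hbad2 a.2.1 a.2.2 hl
  apply h1
  rcases hb : a.2.2.1 with _ | _
  · -- negative literal: the positive one is not chosen
    rw [decide_eq_false_iff_not]
    rintro ⟨b, hbv, hbK, hbs, hbl⟩
    have hne' : (⟨Sum.inl a, ha⟩ : {x // x ∈ vs}) ≠ ⟨Sum.inl b, hbv⟩ := by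
      intro h
      simp only [Subtype.mk.injEq, Sum.inl.injEq] at h
      rw [← h] at hbl
      rw [hbl] at hb
      simp at hb
    have hadj := hK1 haK hbK hne'
    rw [labGraph_adj] at hadj
    simp only [adjL, Bool.and_eq_true, decide_eq_true_eq, Bool.not_eq_true'] at hadj
    have hc : conf a b = true := by
      rw [conf_iff]
      refine ⟨hadj.1, hbs.symm, ?_, ?_⟩
      · rw [hbl]
      · rw [hbl, hb]; simp
    rw [hc] at hadj
    simp at hadj
  · rw [decide_eq_true_eq]
    exact ⟨a, ha, haK, rfl, by rw [← hb]⟩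

end Backward

end Pool.Agent.H622R2
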