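import Pool.Agent.H622R2.EdgeStrong


/-!
# Strong cliques through edges: the reduction is computable in polynomial time
-/

namespace Pool.Agent.H622R2

open Pool.Agent.NPC

/-- The distinct literals of a clause. -/
def lits3 (c : Cl3) : List Lit :=
  c.1 :: ((if c.2.1 = c.1 then [] else [c.2.1]) ++
    (if c.2.2 = c.1 ∨ c.2.2 = c.2.1 then [] else [c.2.2]))

theorem mem_lits3 (c : Cl3) (l : Lit) : l ∈ lits3 c ↔ l = c.1 ∨ l = c.2.1 ∨ l = c.2.2 := by
  obtain ⟨a, b, c⟩ := c
  simp only [lits3, List.mem_cons, List.mem_append]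
  constructor
  · rintro (h | h | h)
    · exact Or.inl h
    · split_ifs at h
      · simp at h
      · rw [List.mem_singleton] at h; exact Or.inr (Or.inl h)
    · split_ifs at h
      · simp at h
      · rw [List.mem_singleton] at h; exact Or.inr (Or.inr h)
  · rintro (h | h | h)
    · exact Or.inl h
    · by_cases hb : b = a
      · left; rw [h, hb]
      · right; left; rw [if_neg hb, List.mem_singleton]; exact h
    · by_cases hc : c = a ∨ c = b
      · rcases hc with hc | hc
        · left; rw [h, hc]
        · by_cases hb : b = a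
          · left; rw [h, hc, hb]
          · right; left; rw [if_neg hb, List.mem_singleton, h, hc]
      · right; right; rw [if_neg hc, List.mem_singleton]; exact h

theorem lits3_ne_nil (c : Cl3) : lits3 c ≠ [] := by simp [lits3]

theorem lits3_nodup (c : Cl3) : (lits3 c).Nodup := by
  obtain ⟨a, b, c⟩ := c
  simp only [lits3]
  by_cases hb : b = a <;> by_cases hc : c = a ∨ c = b
  · rw [if_pos hb, if_pos hc]
    simp
  · push Not at hc
    simp [hb, hc.1, hc.1.symm]
  · rw [if_neg hb, if_pos hc]
    simp [Ne.symm hb]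
  · rw [if_neg hb, if_neg hc]
    push Not at hc
    simp [Ne.symm hb, hc.1.symm, hc.2.symm]

/-- The literals of the `i`-th clause. -/
def clauseAt (φ : List Cl3) (i : ℕ) : List Lit :=
  match φ[i]? with
  | none => []
  | some c => lits3 c

/-- The choices of a formula. -/
def choices (φ : List Cl3) : List Choice :=
  (List.range φ.length).flatMap fun i => (List.range φ.length).flatMap fun j =>
    (List.range φ.length).flatMap fun k => (List.range 3).flatMap fun s =>
      (clauseAt φ (sel (i, j, k) s)).map fun l => ((i, j, k), s, l)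

/-- The vertices of the graph. -/
def labels (φ : List Cl3) : List Lab :=
  (choices φ).map (fun a => (Sum.inl a : Lab)) ++
    (choices φ).flatMap fun a => ((choices φ).filter (fun b => conf a b)).map
      fun b => (Sum.inr (a, b) : Lab)

theorem mem_choices (φ : List Cl3) (a : Choice) :
    a ∈ choices φ ↔ ValidC φ.length (clauseAt φ) a := by
  obtain ⟨⟨i, j, k⟩, s, l⟩ := a
  simp only [choices, List.mem_flatMap, List.mem_range, List.mem_map, Prod.mk.injEq, ValidC]
  constructor
  · rintro ⟨i', hi, j', hj, k', hk, s', hs, l', hl, ⟨rfl, rfl, rfl⟩, rfl, rfl⟩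
    exact ⟨hi, hj, hk, hs, hl⟩
  · rintro ⟨hi, hj, hk, hs, hl⟩
    exact ⟨i, hi, j, hj, k, hk, s, hs, l, hl, ⟨rfl, rfl, rfl⟩, rfl, rfl⟩

theorem mem_labels (φ : List Cl3) (x : Lab) :
    x ∈ labels φ ↔ Valid φ.length (clauseAt φ) x := by
  rcases x with a | ⟨a, b⟩
  · simp only [labels, List.mem_append, List.mem_map, Sum.inl.injEq, exists_eq_right,
      List.mem_flatMap, reduceCtorEq, and_false, exists_false, or_false, Valid]
    exact mem_choices φ a
  · simp only [labels, List.mem_append, List.mem_map, reduceCtorEq, and_false, exists_false,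
      List.mem_flatMap, List.mem_filter, Sum.inr.injEq, Prod.mk.injEq, false_or, Valid]
    constructor
    · rintro ⟨a', ha, b', ⟨hb, hc⟩, rfl, rfl⟩
      exact ⟨(mem_choices _ _).1 ha, (mem_choices _ _).1 hb, hc⟩
    · rintro ⟨ha, hb, hc⟩
      exact ⟨a, (mem_choices _ _).2 ha, b, ⟨(mem_choices _ _).2 hb, hc⟩, rfl, rfl⟩

theorem clauseAt_nodup (φ : List Cl3) (i : ℕ) : (clauseAt φ i).Nodup := by
  unfold clauseAt
  cases φ[i]? with
  | none => exact List.nodup_nil
  | some c => exact lits3_nodup c

theorem choices_nodup (φ : List Cl3) : (choices φ).Nodup := by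
  unfold choices
  refine nodup_flatMap_of (fun a => a.1.1) List.nodup_range (fun i _ => ?_) ?_
  · refine nodup_flatMap_of (fun a => a.1.2.1) List.nodup_range (fun j _ => ?_) ?_
    · refine nodup_flatMap_of (fun a => a.1.2.2) List.nodup_range (fun k _ => ?_) ?_
      · refine nodup_flatMap_of (fun a => a.2.1) List.nodup_range (fun s _ => ?_) ?_
        · refine List.Nodup.map ?_ (clauseAt_nodup _ _)
          intro l l' h
          simpa using h
        · intro s _ b hb
          simp only [List.mem_map] at hb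
          obtain ⟨l, _, rfl⟩ := hb
          rfl
      · intro k _ b hb
        simp only [List.mem_flatMap, List.mem_map] at hb
        obtain ⟨_, _, _, _, rfl⟩ := hb
        rfl
    · intro k _ b hb
      simp only [List.mem_flatMap, List.mem_map] at hb
      obtain ⟨_, _, _, _, _, _, rfl⟩ := hb
      rfl
  · intro k _ b hb
    simp only [List.mem_flatMap, List.mem_map] at hb
    obtain ⟨_, _, _, _, _, _, _, _, rfl⟩ := hb
    rfl

theorem labels_nodup (φ : List Cl3) : (labels φ).Nodup := by
  unfold labels
  rw [List.nodup_append]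
  refine ⟨(choices_nodup φ).map Sum.inl_injective, ?_, ?_⟩
  · refine nodup_flatMap_of (fun x : Lab => match x with
        | Sum.inl a => a
        | Sum.inr p => p.1) (choices_nodup φ) (fun a _ => ?_) ?_
    · refine ((choices_nodup φ).filter _).map ?_
      intro b b' h
      simpa using h
    · intro a _ x hx
      rw [List.mem_map] at hx
      obtain ⟨b, _, rfl⟩ := hx
      rfl
  · intro x hx y hy hxy
    subst hxy
    rw [List.mem_map] at hx
    obtain ⟨a, _, rfl⟩ := hx
    rw [List.mem_flatMap] at hy
    obtain ⟨b, _, hb⟩ := hy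
    rw [List.mem_map] at hb
    obtain ⟨c, _, hc⟩ := hb
    exact absurd hc (by simp)

/-- The reduction. -/
def esRed (φ : List Cl3) : List (List Bool) := mat (labels φ) adjL

theorem esRed_correct (φ : List Cl3) : Sat3 φ ↔ EdgeStrong (matGraph (esRed φ)) := by
  classical
  have e := matIso (labels φ) adjL (labels_nodup φ)
  have hsat : Sat3 φ ↔ ∃ τ : ℕ → Bool, ∀ i < φ.length, ∃ l ∈ clauseAt φ i, τ l.2 = l.1 := by
    constructor
    · rintro ⟨τ, hτ⟩
      refine ⟨τ, fun i hi => ?_⟩
      have hc : clauseAt φ i = lits3 φ[i] := by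
        unfold clauseAt
        rw [List.getElem?_eq_getElem hi]
      rw [hc]
      rcases hτ φ[i] (List.getElem_mem hi) with h | h | h
      · exact ⟨_, (mem_lits3 _ _).2 (Or.inl rfl), h⟩
      · exact ⟨_, (mem_lits3 _ _).2 (Or.inr (Or.inl rfl)), h⟩
      · exact ⟨_, (mem_lits3 _ _).2 (Or.inr (Or.inr rfl)), h⟩
    · rintro ⟨τ, hτ⟩
      refine ⟨τ, fun c hc => ?_⟩
      obtain ⟨i, hi, rfl⟩ := List.getElem_of_mem hc
      obtain ⟨l, hl, h⟩ := hτ i hi
      have hc : clauseAt φ i = lits3 φ[i] := by
        unfold clauseAt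
        rw [List.getElem?_eq_getElem hi]
      rw [hc, mem_lits3] at hl
      rcases hl with rfl | rfl | rfl
      · exact Or.inl h
      · exact Or.inr (Or.inl h)
      · exact Or.inr (Or.inr h)
  rw [hsat]
  constructor
  · rintro ⟨τ, hτ⟩
    exact EdgeStrong.of_iso e.symm (edgeStrong_of_sat (mem_labels φ) τ hτ)
  · intro h
    refine sat_of_edgeStrong (mem_labels φ) ?_ (EdgeStrong.of_iso e h)
    intro i hi
    unfold clauseAt
    rw [List.getElem?_eq_getElem hi]
    exact lits3_ne_nil _

/-! ### Polynomial time -/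

section PolyTime

open Poly

theorem lits3_poly {α : Type} [TEnc α] {f : α → Cl3} (hf : Poly f) :
    Poly (fun a => lits3 (f a)) := by
  have h1 : Poly (fun a => (f a).1) := fst hf
  have h2 : Poly (fun a => (f a).2.1) := fst (snd hf)
  have h3 : Poly (fun a => (f a).2.2) := snd (snd hf)
  exact cons h1 (append (ite (decide_eq h2 h1) (const []) (cons h2 (const [])))
    (ite (decide_or (decide_eq h3 h1) (decide_eq h3 h2)) (const []) (cons h3 (const []))))

theorem clauseAt_poly {α : Type} [TEnc α] {f : α → List Cl3} {n : α → ℕ} (hf : Poly f)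
    (hn : Poly n) : Poly (fun a => clauseAt (f a) (n a)) :=
  (optCases (h := fun _ c => lits3 c) (getElem? hf hn) (const []) (lits3_poly (snd id))).congr
    fun a => by
      unfold clauseAt
      cases (f a)[n a]? <;> rfl

theorem sel_poly {α : Type} [TEnc α] {v : α → ℕ × ℕ × ℕ} {s : α → ℕ} (hv : Poly v)
    (hs : Poly s) : Poly (fun a => sel (v a) (s a)) :=
  ite (decide_eq hs (const 0)) (fst hv) (ite (decide_eq hs (const 1)) (fst (snd hv))
    (snd (snd hv)))

theorem conf_poly {α : Type} [TEnc α] {a b : α → Choice} (ha : Poly a) (hb : Poly b) :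
    Poly (fun x => conf (a x) (b x)) :=
  and (and (and (decide_not (decide_eq (fst ha) (fst hb)))
    (decide_eq (fst (snd ha)) (fst (snd hb))))
    (decide_eq (snd (snd (snd ha))) (snd (snd (snd hb)))))
    (decide_not (decide_eq (fst (snd (snd ha))) (fst (snd (snd hb)))))

theorem adjL_poly : Poly (fun z : Lab × Lab => adjL z.1 z.2) := by
  have hLL : Poly (fun p : ((Lab × Lab) × Choice) × Choice =>
      decide (p.1.2.1 ≠ p.2.1) && !(conf p.1.2 p.2)) :=
    and (decide_not (decide_eq (fst (snd (fst id))) (fst (snd id))))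
      (not (conf_poly (snd (fst id)) (snd id)))
  have hLR : Poly (fun p : ((Lab × Lab) × Choice) × (Choice × Choice) =>
      decide (p.1.2 ≠ p.2.1) && decide (p.1.2 ≠ p.2.2)) :=
    and (decide_not (decide_eq (snd (fst id)) (fst (snd id))))
      (decide_not (decide_eq (snd (fst id)) (snd (snd id))))
  have hRL : Poly (fun p : ((Lab × Lab) × (Choice × Choice)) × Choice =>
      decide (p.2 ≠ p.1.2.1) && decide (p.2 ≠ p.1.2.2)) :=
    and (decide_not (decide_eq (snd id) (fst (snd (fst id)))))
      (decide_not (decide_eq (snd id) (snd (snd (fst id)))))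
  have hRR : Poly (fun p : ((Lab × Lab) × (Choice × Choice)) × (Choice × Choice) =>
      decide (p.1.2 ≠ p.2)) :=
    decide_not (decide_eq (snd (fst id)) (snd id))
  have h1 := sumCases (o := fun p : (Lab × Lab) × Choice => p.1.2)
    (g := fun p b => decide (p.2.1 ≠ b.1) && !(conf p.2 b))
    (h := fun p q => decide (p.2 ≠ q.1) && decide (p.2 ≠ q.2)) (snd (fst id)) hLL hLR
  have h2 := sumCases (o := fun p : (Lab × Lab) × (Choice × Choice) => p.1.2)
    (g := fun p b => decide (b ≠ p.2.1) && decide (b ≠ p.2.2))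
    (h := fun p q => decide (p.2 ≠ q)) (snd (fst id)) hRL hRR
  refine (sumCases (o := fun z : Lab × Lab => z.1)
    (g := fun z a => match z.2 with
      | Sum.inl b => decide (a.1 ≠ b.1) && !(conf a b)
      | Sum.inr q => decide (a ≠ q.1) && decide (a ≠ q.2))
    (h := fun z p => match z.2 with
      | Sum.inl b => decide (b ≠ p.1) && decide (b ≠ p.2)
      | Sum.inr q => decide (p ≠ q)) (fst id) (h1.congr ?_) (h2.congr ?_)).congr ?_
  · rintro ⟨⟨x, y⟩, a⟩
    rcases y with b | q <;> rfl
  · rintro ⟨⟨x, y⟩, a⟩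
    rcases y with b | q <;> rfl
  rintro ⟨x, y⟩
  rcases x with a | p <;> rcases y with b | q <;> rfl

theorem range3_poly {α : Type} [TEnc α] {f : α → List Cl3} (hf : Poly f) :
    Poly (fun a => List.range (f a).length) := range_length hf

theorem choices_poly {α : Type} [TEnc α] {f : α → List Cl3} (hf : Poly f) :
    Poly (fun a => choices (f a)) := by
  have h5 : Poly (fun p : ((((α × ℕ) × ℕ) × ℕ) × ℕ) × Lit =>
      (((p.1.1.1.1.2, p.1.1.1.2, p.1.1.2), p.1.2, p.2) : Choice)) :=
    pair (pair (snd (fst (fst (fst (fst id))))) (pair (snd (fst (fst (fst id))))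
      (snd (fst (fst id))))) (pair (snd (fst id)) (snd id))
  have h4 : Poly (fun p : (((α × ℕ) × ℕ) × ℕ) × ℕ =>
      (clauseAt (f p.1.1.1.1) (sel (p.1.1.1.2, p.1.1.2, p.1.2) p.2)).map
        fun l => (((p.1.1.1.2, p.1.1.2, p.1.2), p.2, l) : Choice)) :=
    map (F := fun (p : (((α × ℕ) × ℕ) × ℕ) × ℕ) l =>
        (((p.1.1.1.2, p.1.1.2, p.1.2), p.2, l) : Choice))
      (clauseAt_poly (hf.comp (fst (fst (fst (fst id)))))
        (sel_poly (pair (snd (fst (fst (fst id)))) (pair (snd (fst (fst id))) (snd (fst id))))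
          (snd id))) h5
  have h3 : Poly (fun p : ((α × ℕ) × ℕ) × ℕ => (List.range 3).flatMap fun s =>
      (clauseAt (f p.1.1.1) (sel (p.1.1.2, p.1.2, p.2) s)).map
        fun l => (((p.1.1.2, p.1.2, p.2), s, l) : Choice)) :=
    flatMap (F := fun (p : ((α × ℕ) × ℕ) × ℕ) s =>
      (clauseAt (f p.1.1.1) (sel (p.1.1.2, p.1.2, p.2) s)).map
        fun l => (((p.1.1.2, p.1.2, p.2), s, l) : Choice)) (const _) h4
  have h2 : Poly (fun p : (α × ℕ) × ℕ => (List.range (f p.1.1).length).flatMap fun k =>
      (List.range 3).flatMap fun s => (clauseAt (f p.1.1) (sel (p.1.2, p.2, k) s)).map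
        fun l => (((p.1.2, p.2, k), s, l) : Choice)) :=
    flatMap (F := fun (p : (α × ℕ) × ℕ) k => (List.range 3).flatMap fun s =>
      (clauseAt (f p.1.1) (sel (p.1.2, p.2, k) s)).map
        fun l => (((p.1.2, p.2, k), s, l) : Choice))
      (range_length (hf.comp (fst (fst id)))) h3
  have h1 : Poly (fun p : α × ℕ => (List.range (f p.1).length).flatMap fun j =>
      (List.range (f p.1).length).flatMap fun k =>
      (List.range 3).flatMap fun s => (clauseAt (f p.1) (sel (p.2, j, k) s)).map
        fun l => (((p.2, j, k), s, l) : Choice)) :=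
    flatMap (F := fun (p : α × ℕ) j => (List.range (f p.1).length).flatMap fun k =>
      (List.range 3).flatMap fun s => (clauseAt (f p.1) (sel (p.2, j, k) s)).map
        fun l => (((p.2, j, k), s, l) : Choice))
      (range_length (hf.comp (fst id))) h2
  exact flatMap (F := fun (a : α) i => (List.range (f a).length).flatMap fun j =>
      (List.range (f a).length).flatMap fun k =>
      (List.range 3).flatMap fun s => (clauseAt (f a) (sel (i, j, k) s)).map
        fun l => (((i, j, k), s, l) : Choice)) (range_length hf) h1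

theorem labels_poly : Poly (fun φ : List Cl3 => labels φ) := by
  have h1 : Poly (fun φ : List Cl3 => choices φ) := choices_poly id
  have h2 : Poly (fun p : List Cl3 × Choice => (choices p.1).filter (fun b => conf p.2 b)) :=
    filter (p := fun (p : List Cl3 × Choice) b => conf p.2 b) (choices_poly (fst id))
      (conf_poly (snd (fst id)) (snd id))
  have h3 : Poly (fun p : List Cl3 × Choice =>
      ((choices p.1).filter (fun b => conf p.2 b)).map fun b => (Sum.inr (p.2, b) : Lab)) :=
    map (F := fun (p : List Cl3 × Choice) b => (Sum.inr (p.2, b) : Lab)) h2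
      (inr (pair (snd (fst id)) (snd id)))
  exact append (map (F := fun (_ : List Cl3) a => (Sum.inl a : Lab)) h1 (inl (snd id)))
    (flatMap (F := fun (φ : List Cl3) a => ((choices φ).filter (fun b => conf a b)).map
      fun b => (Sum.inr (a, b) : Lab)) h1 h3)

theorem esRed_poly : Poly esRed :=
  mat_poly (adj := fun _ u v => adjL u v) labels_poly
    (comp (g := fun z : Lab × Lab => adjL z.1 z.2) adjL_poly (pair (snd (fst id)) (snd id)))

end PolyTime

end Pool.Agent.H622R2
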