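import Pool.Agent.H622R2.AcycST

/-!
# Internally disjoint odd paths: definitions and general facts
-/

namespace Pool.Agent.H622R2

open Pool.Agent.NPC

/-- A walk starting at the vertex `a`, in the undirected multigraph with edges `E`: the list of the
steps, each step being the edge used and the vertex reached. -/
def IsUWalk (E : List MEdge) : ℕ → List (MEdge × ℕ) → Prop
  | _, [] => True
  | a, q :: p => q.1 ∈ E ∧ ((q.1.2.1 = a ∧ q.1.2.2 = q.2) ∨ (q.1.2.1 = q.2 ∧ q.1.2.2 = a)) ∧
      IsUWalk E q.2 p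

/-- The vertices of the walk starting at `a` with steps `p`. -/
def wVerts (a : ℕ) (p : List (MEdge × ℕ)) : List ℕ := a :: p.map Prod.snd

/-- The internal vertices of a walk: all vertices except the first and the last one. -/
def wInner (p : List (MEdge × ℕ)) : List ℕ := (p.map Prod.snd).dropLast

/-- The edges of a walk. -/
def wEdges (p : List (MEdge × ℕ)) : List MEdge := p.map Prod.fst

/-- An `(X, Y)`-path: a walk with distinct vertices whose first vertex `a` lies in `X`, whose last
vertex lies in `Y`, and none of whose internal vertices lies in `X ∪ Y`. -/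
def IsXYPath (E : List MEdge) (X Y : List ℕ) (a : ℕ) (p : List (MEdge × ℕ)) : Prop :=
  IsUWalk E a p ∧ (wVerts a p).Nodup ∧ a ∈ X ∧ (wVerts a p).getLast (List.cons_ne_nil _ _) ∈ Y ∧
    ∀ v ∈ wInner p, v ∉ X ∧ v ∉ Y

/-- The data `(V, E, k, X, Y)` form an instance of ODD-PATHS: the ends of all edges lie in the
vertex set `V`, the number `k` is positive, and `X`, `Y` are sets of `k` vertices. -/
def OPValid (V : List ℕ) (E : List MEdge) (k : ℕ) (X Y : List ℕ) : Prop :=
  (∀ e ∈ E, e.2.1 ∈ V ∧ e.2.2 ∈ V) ∧ 1 ≤ k ∧ (∀ v ∈ X, v ∈ V) ∧ (∀ v ∈ Y, v ∈ V) ∧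
    X.Nodup ∧ Y.Nodup ∧ X.length = k ∧ Y.length = k

/-- The problem ODD-PATHS: the instance `(V, E, k, X, Y)` is valid, and there are `k` different
pairwise internally disjoint `(X, Y)`-paths, each of odd length. -/
def OddPaths (I : List ℕ × List MEdge × ℕ × List ℕ × List ℕ) : Prop :=
  OPValid I.1 I.2.1 I.2.2.1 I.2.2.2.1 I.2.2.2.2 ∧
  ∃ (a : Fin I.2.2.1 → ℕ) (P : Fin I.2.2.1 → List (MEdge × ℕ)),
    (∀ i, IsXYPath I.2.1 I.2.2.2.1 I.2.2.2.2 (a i) (P i) ∧ Odd (P i).length) ∧
    ∀ i j, i ≠ j → List.Disjoint (wInner (P i)) (wInner (P j)) ∧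
      (wEdges (P i)).toFinset ≠ (wEdges (P j)).toFinset

/-! ### General facts -/

/-- Adjacency. -/
def UAdj (E : List MEdge) (u v : ℕ) : Prop :=
  ∃ e ∈ E, (e.2.1 = u ∧ e.2.2 = v) ∨ (e.2.1 = v ∧ e.2.2 = u)

theorem IsUWalk.isChain {E : List MEdge} : ∀ {a : ℕ} {p : List (MEdge × ℕ)}, IsUWalk E a p →
    List.IsChain (UAdj E) (wVerts a p)
  | a, [], _ => by simp [wVerts]
  | a, q :: p, h => by
    unfold wVerts
    rw [List.map_cons, List.isChain_cons_cons]
    exact ⟨⟨q.1, h.1, h.2.1⟩, IsUWalk.isChain h.2.2⟩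

/-- The structure of the vertex list of an odd `(X, Y)`-path. -/
theorem IsXYPath.split {E : List MEdge} {X Y : List ℕ} {a : ℕ} {p : List (MEdge × ℕ)}
    (h : IsXYPath E X Y a p) (hp : Odd p.length) : ∃ b ∈ Y,
      List.IsChain (UAdj E) (a :: (wInner p ++ [b])) ∧ Even (wInner p).length := by
  obtain ⟨h1, h2, h3, h4, h5⟩ := h
  have hne : p.map Prod.snd ≠ [] := by
    intro h0
    rw [List.map_eq_nil_iff] at h0
    subst h0
    simp at hp
  have e1 : p.map Prod.snd = wInner p ++ [(p.map Prod.snd).getLast hne] :=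
    (List.dropLast_append_getLast hne).symm
  refine ⟨(p.map Prod.snd).getLast hne, ?_, ?_, ?_⟩
  · have : (wVerts a p).getLast (List.cons_ne_nil _ _) = (p.map Prod.snd).getLast hne := by
      unfold wVerts
      rw [List.getLast_cons hne]
    rwa [this] at h4
  · rw [← e1]
    exact h1.isChain
  · unfold wInner
    rw [List.length_dropLast, List.length_map]
    obtain ⟨k, hk⟩ := hp
    exact ⟨k, by omega⟩

theorem chain_first {R : ℕ → ℕ → Prop} {a b : ℕ} {l : List ℕ}
    (h : List.IsChain R (a :: (l ++ [b]))) (hl : l ≠ []) : R a (l.head hl) := by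
  cases l with
  | nil => exact absurd rfl hl
  | cons c l =>
    rw [List.cons_append, List.isChain_cons_cons] at h
    exact h.1

theorem chain_last {R : ℕ → ℕ → Prop} {a b : ℕ} {l : List ℕ}
    (h : List.IsChain R (a :: (l ++ [b]))) (hl : l ≠ []) : R (l.getLast hl) b := by
  rw [← List.cons_append, List.isChain_append] at h
  have h3 := h.2.2
  rw [List.getLast?_cons, List.getLast?_eq_getLast_of_ne_nil hl] at h3
  simpa using h3

theorem chain_mid {R : ℕ → ℕ → Prop} {a b : ℕ} {l : List ℕ}
    (h : List.IsChain R (a :: (l ++ [b]))) : List.IsChain R l := by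
  rw [← List.cons_append, List.isChain_append] at h
  exact h.1.tail

/-- Parity of a chain in a bipartite graph. -/
theorem chain_parity {R : ℕ → ℕ → Prop} {cls : ℕ → Bool} :
    ∀ {l : List ℕ} (hl : l ≠ []), List.IsChain R l →
      (∀ u ∈ l, ∀ v ∈ l, R u v → cls u ≠ cls v) → Even l.length →
      cls (l.head hl) ≠ cls (l.getLast hl)
  | [], hl, _, _, _ => absurd rfl hl
  | [u], _, _, _, he => by simp at he
  | [u, v], _, hc, hR, _ => by
    rw [List.isChain_cons_cons] at hc
    simpa using hR u (by simp) v (by simp) hc.1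
  | u :: v :: w :: l, _, hc, hR, he => by
    rw [List.isChain_cons_cons, List.isChain_cons_cons] at hc
    have h1 := hR u (by simp) v (by simp) hc.1
    have h2 := hR v (by simp) w (by simp) hc.2.1
    have ih := chain_parity (l := w :: l) (cls := cls) (by simp) hc.2.2
      (fun x hx y hy => hR x (by simp at hx ⊢; tauto) y (by simp at hy ⊢; tauto)) (by
        simp only [List.length_cons] at he ⊢
        rcases he with ⟨r, hr⟩
        exact ⟨r - 1, by omega⟩)
    simp only [List.head_cons, List.getLast_cons_cons, ne_eq] at ih ⊢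
    intro h3
    apply ih
    rw [← h3]
    revert h1 h2
    cases cls u <;> cases cls v <;> cases cls w <;> simp

/-- A chain leaves a set at some pair of consecutive elements. -/
theorem chain_cross {R : ℕ → ℕ → Prop} {L : ℕ → Prop} :
    ∀ {l : List ℕ} (hl : l ≠ []), List.IsChain R l → L (l.head hl) → ¬ L (l.getLast hl) →
      ∃ u ∈ l, ∃ v ∈ l, R u v ∧ L u ∧ ¬ L v
  | [], hl, _, _, _ => absurd rfl hl
  | [u], _, _, h1, h2 => absurd h1 h2
  | u :: v :: l, _, hc, h1, h2 => by
    rw [List.isChain_cons_cons] at hc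
    by_cases hv : L v
    · obtain ⟨x, hx, y, hy, h3⟩ := chain_cross (l := v :: l) (by simp) hc.2 hv (by
        rwa [List.getLast_cons_cons] at h2)
      exact ⟨x, List.mem_cons_of_mem _ hx, y, List.mem_cons_of_mem _ hy, h3⟩
    · exact ⟨u, by simp, v, by simp, hc.1, h1, hv⟩

/-- In a chain with at least two elements the last element has a predecessor. -/
theorem chain_pred {R : ℕ → ℕ → Prop} : ∀ {l : List ℕ} (hl : l ≠ []), List.IsChain R l →
    2 ≤ l.length → ∃ u ∈ l, R u (l.getLast hl)
  | [], hl, _, _ => absurd rfl hl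
  | [u], _, _, h => by simp at h
  | [u, v], _, hc, _ => by
    rw [List.isChain_cons_cons] at hc
    exact ⟨u, by simp, by simpa using hc.1⟩
  | u :: v :: w :: l, _, hc, _ => by
    rw [List.isChain_cons_cons] at hc
    obtain ⟨x, hx, h⟩ := chain_pred (l := v :: w :: l) (by simp) hc.2 (by simp)
    exact ⟨x, List.mem_cons_of_mem _ hx, by simpa using h⟩

/-- In a chain with at least two elements the first element has a successor. -/
theorem chain_succ {R : ℕ → ℕ → Prop} {l : List ℕ} (hl : l ≠ []) (hc : List.IsChain R l)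
    (h2 : 2 ≤ l.length) : ∃ u ∈ l, R (l.head hl) u := by
  match l, hl, hc, h2 with
  | [], hl, _, _ => exact absurd rfl hl
  | [u], _, _, h => simp at h
  | u :: v :: l, _, hc, _ =>
    rw [List.isChain_cons_cons] at hc
    exact ⟨v, by simp, hc.1⟩

/-- The steps of a path given by a sequence of vertices. -/
def stepsOf (g : ℕ → ℕ) (N : ℕ) : List (MEdge × ℕ) :=
  (List.range N).map fun p => ((0, g p, g (p + 1)), g (p + 1))

theorem isUWalk_map (E : List MEdge) (g : ℕ → ℕ) : ∀ (n s : ℕ),
    (∀ p, s ≤ p → p < s + n → (0, g p, g (p + 1)) ∈ E) →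
    IsUWalk E (g s) ((List.range' s n).map fun p => (((0, g p, g (p + 1)) : MEdge), g (p + 1)))
  | 0, s, _ => by simp [IsUWalk]
  | n + 1, s, h => by
    rw [List.range'_succ, List.map_cons]
    exact ⟨h s le_rfl (by omega), Or.inl ⟨rfl, rfl⟩,
      isUWalk_map E g n (s + 1) fun p h1 h2 => h p (by omega) (by omega)⟩

theorem wVerts_stepsOf (g : ℕ → ℕ) (N : ℕ) :
    wVerts (g 0) (stepsOf g N) = (List.range (N + 1)).map g := by
  unfold wVerts stepsOf
  rw [List.range_succ_eq_map, List.map_cons, List.map_map, List.map_map]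
  rfl

theorem wInner_stepsOf (g : ℕ → ℕ) (N : ℕ) :
    wInner (stepsOf g (N + 1)) = (List.range N).map fun p => g (p + 1) := by
  unfold wInner stepsOf
  rw [List.map_map, List.range_succ, List.map_append, List.map_singleton,
    List.dropLast_concat]
  rfl

theorem isXYPath_stepsOf {E : List MEdge} {X Y : List ℕ} {g : ℕ → ℕ} {N : ℕ}
    (hE : ∀ p < N + 1, (0, g p, g (p + 1)) ∈ E)
    (hinj : ∀ p < N + 2, ∀ q < N + 2, g p = g q → p = q) (hX : g 0 ∈ X) (hY : g (N + 1) ∈ Y)
    (hin : ∀ p, 1 ≤ p → p < N + 1 → g p ∉ X ∧ g p ∉ Y) :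
    IsXYPath E X Y (g 0) (stepsOf g (N + 1)) := by
  refine ⟨?_, ?_, hX, ?_, ?_⟩
  · unfold stepsOf
    rw [List.range_eq_range']
    exact isUWalk_map E g (N + 1) 0 fun p _ h => hE p (by omega)
  · rw [wVerts_stepsOf]
    exact List.Nodup.map_on (fun p hp q hq h => hinj p (by rw [List.mem_range] at hp; omega) q
      (by rw [List.mem_range] at hq; omega) h)
      List.nodup_range
  · have h1 : (wVerts (g 0) (stepsOf g (N + 1))).getLast (List.cons_ne_nil _ _) = g (N + 1) := by
      have h2 := wVerts_stepsOf g (N + 1)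
      have h3 : ((List.range (N + 1 + 1)).map g).getLast (by simp) = g (N + 1) := by
        rw [List.getLast_map]
        simp
      rw [← h3]
      congr 1
    rw [h1]
    exact hY
  · intro v hv
    rw [wInner_stepsOf, List.mem_map] at hv
    obtain ⟨p, hp, rfl⟩ := hv
    rw [List.mem_range] at hp
    exact hin (p + 1) (by omega) (by omega)

end Pool.Agent.H622R2
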