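import Pool.Agent.H622R2.OddPathsSound

/-!
# Internally disjoint odd paths: completeness of the reduction
-/

namespace Pool.Agent.H622R2.OP

open Pool.Agent.NPC Pool.Agent.H622R2

theorem TT_mod (m : ℕ) : TT m % m = 0 := by simp [TT]

theorem pos_lt_TT {φ : List Cl3} {i j : ℕ} (hi : i < 3 * φ.length) (hj : j < φ.length) :
    i * φ.length + j < TT φ.length := by
  have h3 : (i + 1) * φ.length ≤ 3 * φ.length * φ.length := Nat.mul_le_mul_right _ (by omega)
  unfold TT
  rw [Nat.add_mul, Nat.one_mul] at h3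
  omega

section Valid

variable (φ : List Cl3)

theorem mem_opX (v : ℕ) : v ∈ opX φ ↔ ∃ i ≤ φ.length, v = 10 * i := by
  unfold opX
  simp only [List.mem_map, List.mem_range]
  constructor
  · rintro ⟨i, hi, rfl⟩; exact ⟨i, by omega, rfl⟩
  · rintro ⟨i, hi, rfl⟩; exact ⟨i, by omega, rfl⟩

theorem mem_opY (v : ℕ) : v ∈ opY φ ↔ ∃ i ≤ φ.length, v = 10 * i + 1 := by
  unfold opY
  simp only [List.mem_map, List.mem_range]
  constructor
  · rintro ⟨i, hi, rfl⟩; exact ⟨i, by omega, rfl⟩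
  · rintro ⟨i, hi, rfl⟩; exact ⟨i, by omega, rfl⟩

theorem mem_opV (v : ℕ) : v ∈ opV φ ↔ v ∈ opX φ ∨ v ∈ opY φ ∨ v = 2 ∨
    (∃ j < φ.length, v = 10 * j + 3 ∨ v = 10 * j + 4 ∨ v = 10 * j + 5) ∨
    (∃ t < TT φ.length, v = 10 * t + 6 ∨ v = 10 * t + 7) ∨
    ∃ t < TT φ.length + 1, v = 10 * t + 8 ∨ v = 10 * t + 9 := by
  unfold opV
  simp only [List.mem_append, List.mem_cons, List.mem_flatMap, List.mem_range, List.not_mem_nil,
    or_false]

theorem nO_mem {t : ℕ} (ht : t < TT φ.length) (s : Bool) : nO t s ∈ opV φ := by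
  rw [mem_opV]
  have := nO_cases t s
  exact Or.inr (Or.inr (Or.inr (Or.inr (Or.inl ⟨t, ht, by omega⟩))))

theorem nK_mem {t : ℕ} (ht : t < TT φ.length + 1) (s : Bool) : nK φ.length t s ∈ opV φ := by
  rw [mem_opV]
  have := nK_cases φ.length t s
  exact Or.inr (Or.inr (Or.inr (Or.inr (Or.inr ⟨t, ht, by omega⟩))))

theorem arc_mem {φ : List Cl3} (hb : Bounded3 φ) {u v : ℕ} (h : Arc φ u v) :
    u ∈ opV φ ∧ v ∈ opV φ := by
  have m0 : 0 ∈ opV φ := by
    rw [mem_opV, mem_opX]; exact Or.inl ⟨0, by omega, rfl⟩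
  have m1 : 1 ∈ opV φ := by
    rw [mem_opV, mem_opY]; exact Or.inr (Or.inl ⟨0, by omega, rfl⟩)
  have m2 : 2 ∈ opV φ := by
    rw [mem_opV]; exact Or.inr (Or.inr (Or.inl rfl))
  have m3 : ∀ j < φ.length, 10 * j + 3 ∈ opV φ := by
    intro j hj
    rw [mem_opV]; exact Or.inr (Or.inr (Or.inr (Or.inl ⟨j, hj, Or.inl rfl⟩)))
  have m4 : ∀ j < φ.length, 10 * j + 4 ∈ opV φ := by
    intro j hj
    rw [mem_opV]; exact Or.inr (Or.inr (Or.inr (Or.inl ⟨j, hj, Or.inr (Or.inl rfl)⟩)))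
  have m5 : ∀ j < φ.length, 10 * j + 5 ∈ opV φ := by
    intro j hj
    rw [mem_opV]; exact Or.inr (Or.inr (Or.inr (Or.inl ⟨j, hj, Or.inr (Or.inr rfl)⟩)))
  rcases h with ⟨rfl, rfl⟩ | ⟨rfl, rfl⟩ | ⟨rfl, rfl⟩ | ⟨j, hj, h⟩ | ⟨t, ht, s, h⟩
  · exact ⟨m0, m2⟩
  · exact ⟨m2, nK_mem φ (by omega) _⟩
  · refine ⟨?_, m1⟩
    have := nK_mem φ (t := TT φ.length) (by omega) true
    rwa [nK_mul (TT_mod _)] at this
  · rcases h with ⟨rfl, rfl⟩ | ⟨rfl, rfl⟩ | ⟨rfl, rfl⟩ | ⟨l, hl, ⟨rfl, rfl⟩ | ⟨rfl, rfl⟩⟩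
    · exact ⟨m0, m3 j hj⟩
    · exact ⟨m5 j hj, m4 j hj⟩
    · exact ⟨m4 j hj, m1⟩
    · exact ⟨m3 j hj, nO_mem φ (pos_lt_TT (inCl_lt hb hj hl) hj) _⟩
    · exact ⟨nO_mem φ (pos_lt_TT (inCl_lt hb hj hl) hj) _, m5 j hj⟩
  · rcases h with ⟨rfl, rfl⟩ | ⟨rfl, rfl⟩
    · exact ⟨nK_mem φ (by omega) _, nO_mem φ ht _⟩
    · exact ⟨nO_mem φ ht _, nK_mem φ (by omega) _⟩

theorem valid {φ : List Cl3} (hb : Bounded3 φ) :
    OPValid (opV φ) (opE φ) (φ.length + 1) (opX φ) (opY φ) := by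
  refine ⟨?_, by omega, ?_, ?_, ?_, ?_, ?_, ?_⟩
  · rintro ⟨i, u, v⟩ he
    exact arc_mem hb ((mem_opE _ _ _ _).1 he).2
  · intro v hv
    rw [mem_opV]; exact Or.inl hv
  · intro v hv
    rw [mem_opV]; exact Or.inr (Or.inl hv)
  · exact List.Nodup.map_on (fun p _ q _ h => by omega) List.nodup_range
  · exact List.Nodup.map_on (fun p _ q _ h => by omega) List.nodup_range
  · simp [opX]
  · simp [opY]

end Valid

/-- Two families of steps with disjoint internal vertices use different edges. -/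
theorem edges_ne {g h : ℕ → ℕ} {N M : ℕ} (hN : 1 ≤ N)
    (hdis : ∀ p < N, ∀ q < M, g (p + 1) ≠ h (q + 1)) (hg1 : g 1 ≠ 1) (hh : h (M + 1) = 1) :
    (wEdges (stepsOf g (N + 1))).toFinset ≠ (wEdges (stepsOf h (M + 1))).toFinset := by
  intro heq
  have h1 : ((0, g 0, g 1) : MEdge) ∈ (wEdges (stepsOf g (N + 1))).toFinset := by
    rw [List.mem_toFinset]
    unfold wEdges stepsOf
    rw [List.map_map, List.mem_map]
    exact ⟨0, by simp, rfl⟩
  rw [heq, List.mem_toFinset] at h1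
  unfold wEdges stepsOf at h1
  rw [List.map_map, List.mem_map] at h1
  obtain ⟨q, hq, h2⟩ := h1
  rw [List.mem_range] at hq
  simp only [Function.comp, Prod.mk.injEq] at h2
  by_cases hqM : q < M
  · exact hdis 0 (by omega) q hqM h2.2.2.symm
  · have : q = M := by omega
    subst this
    rw [hh] at h2
    exact hg1 h2.2.2.symm

section Compl

variable {φ : List Cl3} {τ : ℕ → Bool} {l : ℕ → Lit}

/-- The side chosen by the path through the chain. -/
def sd (m : ℕ) (τ : ℕ → Bool) (t : ℕ) : Bool := !(τ (t / m))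

theorem sd_succ {m : ℕ} (hm : 0 < m) (τ : ℕ → Bool) (q : ℕ) :
    nK m (q + 1) (sd m τ (q + 1)) = nK m (q + 1) (sd m τ q) := by
  by_cases h : (q + 1) % m = 0
  · rw [nK_mul h, nK_mul h]
  · have : (q + 1) / m = q / m := by
      rw [Nat.succ_div]
      rw [if_neg (fun hd => h (Nat.mod_eq_zero_of_dvd hd))]
      rfl
    unfold sd
    rw [this]

theorem gA_edge (hm : 0 < φ.length) : ∀ p < 2 * TT φ.length + 2 + 1,
    (0, gA φ.length (sd φ.length τ) p, gA φ.length (sd φ.length τ) (p + 1)) ∈ opE φ := by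
  intro p hp
  rw [mem_opE]
  refine ⟨rfl, ?_⟩
  have hT : 0 < TT φ.length := by unfold TT; positivity
  by_cases h0 : p = 0
  · subst h0
    exact Or.inl ⟨rfl, rfl⟩
  by_cases h1 : p = 1
  · subst h1
    refine Or.inr (Or.inl ⟨rfl, ?_⟩)
    rw [show (1 + 1) = 2 * 0 + 2 from rfl, gA_even, nK_mul (Nat.zero_mod _),
      nK_mul (Nat.zero_mod _)]
  by_cases h3 : p % 2 = 0
  · obtain ⟨q, rfl⟩ : ∃ q, p = 2 * q + 2 := ⟨(p - 2) / 2, by omega⟩
    rw [gA_even]
    by_cases hq : q = TT φ.length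
    · subst hq
      refine Or.inr (Or.inr (Or.inl ⟨nK_mul (TT_mod _) _, ?_⟩))
      exact gA_last _ _
    · rw [show 2 * q + 2 + 1 = 2 * q + 3 from rfl, gA_odd _ _ hq]
      exact Or.inr (Or.inr (Or.inr (Or.inr ⟨q, by omega, _, Or.inl ⟨rfl, rfl⟩⟩)))
  · obtain ⟨q, rfl⟩ : ∃ q, p = 2 * q + 3 := ⟨(p - 3) / 2, by omega⟩
    rw [gA_odd _ _ (by omega), show 2 * q + 3 + 1 = 2 * (q + 1) + 2 from by ring, gA_even,
      sd_succ hm]
    exact Or.inr (Or.inr (Or.inr (Or.inr ⟨q, by omega, _, Or.inr ⟨rfl, rfl⟩⟩)))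

theorem gC_edge (hl : ∀ j < φ.length, InCl (clAt φ j) (l j)) {j : ℕ} (hj : j < φ.length) :
    ∀ p < 4 + 1, (0, gC φ.length l j p, gC φ.length l j (p + 1)) ∈ opE φ := by
  intro p hp
  rw [mem_opE]
  refine ⟨rfl, Or.inr (Or.inr (Or.inr (Or.inl ⟨j, hj, ?_⟩)))⟩
  obtain rfl | rfl | rfl | rfl | rfl : p = 0 ∨ p = 1 ∨ p = 2 ∨ p = 3 ∨ p = 4 := by omega
  · exact Or.inl ⟨rfl, rfl⟩
  · exact Or.inr (Or.inr (Or.inr ⟨l j, hl j hj, Or.inl ⟨rfl, rfl⟩⟩))
  · exact Or.inr (Or.inr (Or.inr ⟨l j, hl j hj, Or.inr ⟨rfl, rfl⟩⟩))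
  · exact Or.inr (Or.inl ⟨rfl, rfl⟩)
  · exact Or.inr (Or.inr (Or.inl ⟨rfl, rfl⟩))

theorem gA_inner (m : ℕ) (s : ℕ → Bool) {p : ℕ} (h1 : 1 ≤ p) (h2 : p < 2 * TT m + 2 + 1) :
    (∀ i, gA m s p ≠ 10 * i) ∧ ∀ i, gA m s p ≠ 10 * i + 1 := by
  rcases gA_cases m s p with ⟨k1, k2⟩ | ⟨k1, k2⟩ | ⟨k1, k2⟩ | ⟨a, k1, k2⟩ | ⟨a, k1, _, k2⟩ <;>
    rw [k2]
  · omega
  · exact ⟨fun i => by omega, fun i => by omega⟩
  · omega
  · have := nK_cases m a (s a)
    exact ⟨fun i => by omega, fun i => by omega⟩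
  · have := nO_cases a (s a)
    exact ⟨fun i => by omega, fun i => by omega⟩

theorem gC_inner (m : ℕ) (l : ℕ → Lit) (j : ℕ) {p : ℕ} (h1 : 1 ≤ p) (h2 : p < 4 + 1) :
    (∀ i, gC m l j p ≠ 10 * i) ∧ ∀ i, gC m l j p ≠ 10 * i + 1 := by
  have := nO_cases ((l j).2 * m + j) (l j).1
  unfold gC
  split_ifs <;> exact ⟨fun i => by omega, fun i => by omega⟩

theorem gC_disj {m : ℕ} (l : ℕ → Lit) {i j : ℕ} (hi : i < m) (hj : j < m) (hij : i ≠ j) :
    ∀ p < 4, ∀ q < 4, gC m l i (p + 1) ≠ gC m l j (q + 1) := by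
  intro p hp q hq h
  have e1 := nO_cases ((l i).2 * m + i) (l i).1
  have e2 := nO_cases ((l j).2 * m + j) (l j).1
  have e3 : (l i).2 * m + i ≠ (l j).2 * m + j := by
    intro h
    have h1 : ((l i).2 * m + i) % m = ((l j).2 * m + j) % m := congrArg (· % m) h
    rw [Nat.mul_comm, Nat.mul_add_mod, Nat.mul_comm, Nat.mul_add_mod, Nat.mod_eq_of_lt hi,
      Nat.mod_eq_of_lt hj] at h1
    exact hij h1
  unfold gC at h
  split_ifs at h <;> omega

theorem gA_gC_disj {m : ℕ} (τ : ℕ → Bool) (l : ℕ → Lit) {j : ℕ} (hj : j < m)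
    (hτ : τ (l j).2 = (l j).1) :
    ∀ p < 2 * TT m + 2, ∀ q < 4, gA m (sd m τ) (p + 1) ≠ gC m l j (q + 1) := by
  intro p hp q hq h
  have e1 := nO_cases ((l j).2 * m + j) (l j).1
  have hq' : gC m l j (q + 1) = 10 * j + 3 ∨ gC m l j (q + 1) = nO ((l j).2 * m + j) (l j).1 ∨
      gC m l j (q + 1) = 10 * j + 5 ∨ gC m l j (q + 1) = 10 * j + 4 := by
    obtain rfl | rfl | rfl | rfl : q = 0 ∨ q = 1 ∨ q = 2 ∨ q = 3 := by omega
    · exact Or.inl rfl
    · exact Or.inr (Or.inl rfl)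
    · exact Or.inr (Or.inr (Or.inl rfl))
    · exact Or.inr (Or.inr (Or.inr rfl))
  rcases gA_cases m (sd m τ) (p + 1) with ⟨k1, k2⟩ | ⟨k1, k2⟩ | ⟨k1, k2⟩ | ⟨a, k1, k2⟩ |
    ⟨a, k1, _, k2⟩ <;> rw [k2] at h
  · omega
  · omega
  · omega
  · have := nK_cases m a (sd m τ a); omega
  · have e2 := nO_cases a (sd m τ a)
    rcases hq' with h1 | h1 | h1 | h1
    · omega
    · rw [h1] at h
      obtain ⟨h3, h4⟩ := nO_inj h
      subst h3
      unfold sd at h4
      have h5 : ((l j).2 * m + j) / m = (l j).2 := by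
        rw [Nat.mul_comm, Nat.mul_add_div (by omega), Nat.div_eq_of_lt hj, Nat.add_zero]
      rw [h5, hτ] at h4
      cases h6 : (l j).1 <;> rw [h6] at h4 <;> simp at h4
    · omega
    · omega

theorem paths_of_sat (hb : Bounded3 φ) (hne : φ ≠ []) (h : Sat3 φ) : OddPaths (opRed φ) := by
  obtain ⟨τ, hτ⟩ := h
  have hm : 0 < φ.length := List.length_pos_iff.2 hne
  have hlit : ∀ j, ∃ l, j < φ.length → InCl (clAt φ j) l ∧ τ l.2 = l.1 := by
    intro j
    by_cases hj : j < φ.length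
    · rcases hτ _ (clAt_mem hj) with h | h | h
      · exact ⟨_, fun _ => ⟨Or.inl rfl, h⟩⟩
      · exact ⟨_, fun _ => ⟨Or.inr (Or.inl rfl), h⟩⟩
      · exact ⟨_, fun _ => ⟨Or.inr (Or.inr rfl), h⟩⟩
    · exact ⟨(true, 0), fun h => absurd h hj⟩
  choose l hl using hlit
  refine ⟨valid hb, ?_⟩
  change ∃ (a : Fin (φ.length + 1) → ℕ) (P : Fin (φ.length + 1) → List (MEdge × ℕ)),
    (∀ i, IsXYPath (opE φ) (opX φ) (opY φ) (a i) (P i) ∧ Odd (P i).length) ∧
    ∀ i j, i ≠ j → List.Disjoint (wInner (P i)) (wInner (P j)) ∧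
      (wEdges (P i)).toFinset ≠ (wEdges (P j)).toFinset
  let G : Fin (φ.length + 1) → ℕ → ℕ := fun i =>
    if i.1 = 0 then gA φ.length (sd φ.length τ) else gC φ.length l (i.1 - 1)
  let NN : Fin (φ.length + 1) → ℕ := fun i => if i.1 = 0 then 2 * TT φ.length + 2 else 4
  have hG0 : ∀ i, G i 0 = 0 := by
    intro i
    simp only [G]
    split_ifs <;> rfl
  have hGl : ∀ i, G i (NN i + 1) = 1 := by
    intro i
    simp only [G, NN]
    split_ifs
    · exact gA_last _ _
    · rfl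
  have hGi : ∀ i p, 1 ≤ p → p < NN i + 1 →
      (∀ k, G i p ≠ 10 * k) ∧ ∀ k, G i p ≠ 10 * k + 1 := by
    intro i p h1 h2
    simp only [G, NN] at h2 ⊢
    split_ifs at h2 ⊢
    · exact gA_inner _ _ h1 h2
    · exact gC_inner _ _ _ h1 h2
  have hGd : ∀ i j, i ≠ j → ∀ p < NN i, ∀ q < NN j, G i (p + 1) ≠ G j (q + 1) := by
    intro i j hij p hp q hq
    have hi := i.2
    have hj := j.2
    have hij' : i.1 ≠ j.1 := fun h => hij (Fin.ext h)
    simp only [G, NN] at hp hq ⊢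
    split_ifs at hp hq ⊢ with h1 h2 h2
    · omega
    · exact gA_gC_disj τ l (by omega) (hl _ (by omega)).2 p hp q hq
    · exact (gA_gC_disj τ l (by omega) (hl _ (by omega)).2 q hq p hp).symm
    · exact gC_disj l (by omega) (by omega) (by omega) p hp q hq
  refine ⟨fun i => G i 0, fun i => stepsOf (G i) (NN i + 1), ?_, ?_⟩
  · intro i
    constructor
    · apply isXYPath_stepsOf
      · intro p hp
        simp only [G, NN] at hp ⊢
        split_ifs at hp ⊢
        · exact gA_edge hm p hp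
        · have := i.2
          exact gC_edge (fun j hj => (hl j hj).1) (by omega) p hp
      · simp only [G, NN]
        split_ifs
        · exact gA_inj _ _
        · exact gC_inj _ _ _
      · rw [hG0, mem_opX]; exact ⟨0, by omega, rfl⟩
      · rw [hGl, mem_opY]; exact ⟨0, by omega, rfl⟩
      · intro p h1 h2
        obtain ⟨h3, h4⟩ := hGi i p h1 h2
        rw [mem_opX, mem_opY]
        constructor
        · rintro ⟨k, _, hk⟩; exact h3 k hk
        · rintro ⟨k, _, hk⟩; exact h4 k hk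
    · have : (stepsOf (G i) (NN i + 1)).length = NN i + 1 := by simp [stepsOf]
      rw [this]
      simp only [NN]
      split_ifs
      · exact ⟨TT φ.length + 1, by ring⟩
      · exact ⟨2, rfl⟩
  · intro i j hij
    constructor
    · intro v hv hv'
      rw [wInner_stepsOf, List.mem_map] at hv hv'
      obtain ⟨p, hp, rfl⟩ := hv
      obtain ⟨q, hq, h⟩ := hv'
      rw [List.mem_range] at hp hq
      exact hGd i j hij p hp q hq h.symm
    · have hNi : 1 ≤ NN i := by
        simp only [NN]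
        split_ifs <;> omega
      refine edges_ne hNi (hGd i j hij) ?_ (hGl j)
      have := (hGi i 1 le_rfl (by omega)).2 0
      simpa using this

end Compl

theorem opRed_correct {φ : List Cl3} (hb : Bounded3 φ) (hne : φ ≠ []) :
    Sat3 φ ↔ OddPaths (opRed φ) := ⟨paths_of_sat hb hne, sat_of_paths hb⟩

/-! ### The reduction is computable in polynomial time -/

section PolyTime

set_option synthInstance.maxSize 4000

open Poly

theorem nO_poly {α : Type} [TEnc α] {t : α → ℕ} {s : α → Bool} (ht : Poly t) (hs : Poly s) :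
    Poly (fun a => nO (t a) (s a)) :=
  add (mul (const 10) ht) (cond hs (const 6) (const 7))

theorem nK_poly {α : Type} [TEnc α] {m t : α → ℕ} {s : α → Bool} (hm : Poly m) (ht : Poly t)
    (hs : Poly s) : Poly (fun a => nK (m a) (t a) (s a)) :=
  add (mul (const 10) ht) (cond (or (decide_eq (mod ht hm) (const 0)) hs) (const 8) (const 9))

theorem lin_poly {α : Type} [TEnc α] {t : α → ℕ} (d : ℕ) (ht : Poly t) :
    Poly (fun a => 10 * t a + d) := add (mul (const 10) ht) (const d)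

theorem e0_poly {α : Type} [TEnc α] {u v : α → ℕ} (hu : Poly u) (hv : Poly v) :
    Poly (fun a => ((0, u a, v a) : MEdge)) := pair (const 0) (pair hu hv)

theorem litE_poly {α : Type} [TEnc α] {m j : α → ℕ} {l : α → Lit} (hm : Poly m) (hj : Poly j)
    (hl : Poly l) : Poly (fun a => litE (m a) (j a) (l a)) :=
  have h := nO_poly (add (mul (snd hl) hm) hj) (fst hl)
  cons (e0_poly (lin_poly 3 hj) h) (cons (e0_poly h (lin_poly 5 hj)) (const []))

theorem clsE_poly {α : Type} [TEnc α] {m j : α → ℕ} {c : α → Cl3} (hm : Poly m) (hj : Poly j)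
    (hc : Poly c) : Poly (fun a => clsE (m a) (j a) (c a)) :=
  append (cons (e0_poly (const 0) (lin_poly 3 hj)) (cons (e0_poly (lin_poly 5 hj) (lin_poly 4 hj))
    (cons (e0_poly (lin_poly 4 hj) (const 1)) (const []))))
    (append (litE_poly hm hj (fst hc)) (append (litE_poly hm hj (fst (snd hc)))
      (litE_poly hm hj (snd (snd hc)))))

theorem chE_poly {α : Type} [TEnc α] {m t : α → ℕ} (hm : Poly m) (ht : Poly t) :
    Poly (fun a => chE (m a) (t a)) :=
  have h1 := nO_poly ht (const true)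
  have h2 := nO_poly ht (const false)
  have h3 := add ht (const 1)
  cons (e0_poly (nK_poly hm ht (const true)) h1) (cons (e0_poly h1 (nK_poly hm h3 (const true)))
    (cons (e0_poly (nK_poly hm ht (const false)) h2)
      (cons (e0_poly h2 (nK_poly hm h3 (const false))) (const []))))

theorem TT_upoly : UPoly (fun φ : List Cl3 => TT φ.length) :=
  UPoly.mul (UPoly.mul (UPoly.const 3) (UPoly.length id)) (UPoly.length id)

theorem opX_poly : Poly opX :=
  map (F := fun _ i => 10 * i) (UPoly.range (UPoly.add (UPoly.length id) (UPoly.const 1)))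
    (mul (const 10) (snd id))

theorem opY_poly : Poly opY :=
  map (F := fun _ i => 10 * i + 1) (UPoly.range (UPoly.add (UPoly.length id) (UPoly.const 1)))
    (lin_poly 1 (snd id))

theorem opV1_poly : Poly (fun φ : List Cl3 => (List.range φ.length).flatMap
    (fun j => [10 * j + 3, 10 * j + 4, 10 * j + 5])) :=
  flatMap (F := fun _ j => [10 * j + 3, 10 * j + 4, 10 * j + 5]) (range_length id)
        (cons (lin_poly 3 (snd id)) (cons (lin_poly 4 (snd id)) (cons (lin_poly 5 (snd id))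
          (const []))))

theorem opV2_poly : Poly (fun φ : List Cl3 => (List.range (TT φ.length)).flatMap
    (fun t => [10 * t + 6, 10 * t + 7])) :=
  flatMap (F := fun _ t => [10 * t + 6, 10 * t + 7]) (UPoly.range TT_upoly)
        (cons (lin_poly 6 (snd id)) (cons (lin_poly 7 (snd id)) (const [])))

theorem opV3_poly : Poly (fun φ : List Cl3 => (List.range (TT φ.length + 1)).flatMap
    (fun t => [10 * t + 8, 10 * t + 9])) :=
  flatMap (F := fun _ t => [10 * t + 8, 10 * t + 9])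
    (UPoly.range (UPoly.add TT_upoly (UPoly.const 1)))
        (cons (lin_poly 8 (snd id)) (cons (lin_poly 9 (snd id)) (const [])))

theorem opV_poly : Poly opV :=
  append opX_poly (append opY_poly (cons (const 2) (append opV1_poly (append opV2_poly
    opV3_poly))))

theorem clsE_at_poly :
    Poly (fun p : List Cl3 × ℕ => clsE p.1.length p.2 (clAt p.1 p.2)) :=
  clsE_poly (m := fun p : List Cl3 × ℕ => p.1.length) (j := fun p => p.2)
    (c := fun p => clAt p.1 p.2) (length (fst id)) (snd id) (clAt_poly (fst id) (snd id))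

section

attribute [local irreducible] clsE clAt chE TT

theorem opE1_poly : Poly (fun φ : List Cl3 => (List.range φ.length).flatMap
    (fun j => clsE φ.length j (clAt φ j))) :=
  flatMap (F := fun φ j => clsE φ.length j (clAt φ j)) (range_length id) clsE_at_poly

end

theorem opE2_poly : Poly (fun φ : List Cl3 => (List.range (TT φ.length)).flatMap
    (fun t => chE φ.length t)) :=
  flatMap (F := fun φ t => chE φ.length t) (UPoly.range TT_upoly)
    (chE_poly (length (fst id)) (snd id))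

theorem opE0_poly : Poly (fun φ : List Cl3 =>
    [((0, 0, 2) : MEdge), (0, 2, nK φ.length 0 true), (0, 10 * TT φ.length + 8, 1)]) :=
  cons (const _) (cons (e0_poly (const 2) (nK_poly (length id) (const 0) (const true)))
      (cons (e0_poly (lin_poly 8 (UPoly.toPoly TT_upoly)) (const 1)) (const [])))

theorem opE_poly : Poly opE := append opE0_poly (append opE1_poly opE2_poly)

theorem opRed_poly : Poly opRed :=
  pair opV_poly (pair opE_poly (pair (add (length id) (const 1)) (pair opX_poly opY_poly)))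

end PolyTime

/-- ODD-PATHS is hard. -/
theorem hardI_oddPaths : HardI OddPaths := by
  refine (HardPr.trans (Pr' := fun _ => True) (Q := OddPaths) hardPr_SAT3b opRed_poly
    (fun _ _ => trivial) ?_).toHardI
  rintro φ ⟨_, hb, hne⟩
  exact opRed_correct hb hne

end Pool.Agent.H622R2.OP
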