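import Pool.Agent.H622R2.OddPathsCompl
import Pool.Agent.H622R2.CoNP

/-!
# ODD-PATHS is in `NP`
-/

namespace Pool.Agent.H622R2.OP

open Pool.Agent.NPC Pool.Agent.H622R2

/-- An instance of ODD-PATHS. -/
abbrev Inst := List ℕ × List MEdge × ℕ × List ℕ × List ℕ

/-- A walk: its first vertex and its steps. -/
abbrev Wk := ℕ × List (MEdge × ℕ)

/-- The test of a step: the edge joins the previous vertex and the vertex reached. -/
def stepB (E : List MEdge) (z : ℕ × MEdge × ℕ) : Bool :=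
  decide (z.2.1 ∈ E) && (decide (z.2.1.2.1 = z.1) && decide (z.2.1.2.2 = z.2.2) ||
    decide (z.2.1.2.1 = z.2.2) && decide (z.2.1.2.2 = z.1))

/-- The test of a walk. -/
def walkB (E : List MEdge) (w : Wk) : Bool :=
  ((w.1 :: w.2.map Prod.snd).zip w.2).all (stepB E)

theorem walkB_iff (E : List MEdge) : ∀ (a : ℕ) (p : List (MEdge × ℕ)),
    walkB E (a, p) = true ↔ IsUWalk E a p
  | a, [] => by simp [walkB, IsUWalk]
  | a, q :: p => by
    have ih := walkB_iff E q.2 p
    unfold walkB at ih ⊢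
    simp only [List.map_cons, List.zip_cons_cons, List.all_cons, Bool.and_eq_true, IsUWalk] at ih ⊢
    rw [ih]
    unfold stepB
    simp only [Bool.and_eq_true, Bool.or_eq_true, decide_eq_true_eq]
    tauto

theorem ddup_eq_iff {β : Type} [DecidableEq β] (l : List β) : ddup l = l ↔ l.Nodup := by
  constructor
  · intro h
    rw [← h]
    exact ddup_nodup l
  · intro h
    induction l with
    | nil => rfl
    | cons a l ih =>
      rw [List.nodup_cons] at h
      have h1 := ih h.2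
      unfold ddup at h1 ⊢
      rw [List.foldr_cons, h1, if_neg h.1]

/-- The list of internal vertices, computed with reversals. -/
theorem wInner_eq (p : List (MEdge × ℕ)) :
    wInner p = ((p.map Prod.snd).reverse.tail).reverse := by
  unfold wInner
  rw [List.tail_reverse, List.reverse_reverse]

/-- The test of the last vertex. -/
def lastB (Y : List ℕ) (w : Wk) : Bool :=
  decide ((wVerts w.1 w.2).reverse.head?.getD 0 ∈ Y)

theorem lastB_iff (Y : List ℕ) (a : ℕ) (p : List (MEdge × ℕ)) :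
    lastB Y (a, p) = true ↔ (wVerts a p).getLast (List.cons_ne_nil _ _) ∈ Y := by
  unfold lastB wVerts
  rw [decide_eq_true_eq, List.head?_reverse,
    List.getLast?_eq_getLast_of_ne_nil (List.cons_ne_nil _ _), Option.getD_some]

/-- The test of an odd `(X, Y)`-path. -/
def pathB (E : List MEdge) (X Y : List ℕ) (w : Wk) : Bool :=
  walkB E w && (decide (ddup (wVerts w.1 w.2) = wVerts w.1 w.2) && (decide (w.1 ∈ X) &&
    (lastB Y w && ((wInner w.2).all (fun v => !(decide (v ∈ X)) && !(decide (v ∈ Y))) &&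
      decide (w.2.length % 2 = 1)))))

theorem pathB_iff (E : List MEdge) (X Y : List ℕ) (a : ℕ) (p : List (MEdge × ℕ)) :
    pathB E X Y (a, p) = true ↔ IsXYPath E X Y a p ∧ Odd p.length := by
  unfold pathB IsXYPath
  rw [Bool.and_eq_true, Bool.and_eq_true, Bool.and_eq_true, Bool.and_eq_true, Bool.and_eq_true,
    walkB_iff, lastB_iff, decide_eq_true_eq, ddup_eq_iff, decide_eq_true_eq, decide_eq_true_eq,
    Nat.odd_iff, List.all_eq_true]
  simp only [Bool.and_eq_true, Bool.not_eq_true', decide_eq_false_iff_not]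
  tauto

/-- The test of two paths. -/
def sepB (w w' : Wk) : Bool :=
  (wInner w.2).all (fun v => !(decide (v ∈ wInner w'.2))) &&
    !((wEdges w.2).all (fun e => decide (e ∈ wEdges w'.2)) &&
      (wEdges w'.2).all (fun e => decide (e ∈ wEdges w.2)))

theorem sepB_iff (w w' : Wk) : sepB w w' = true ↔ List.Disjoint (wInner w.2) (wInner w'.2) ∧
    (wEdges w.2).toFinset ≠ (wEdges w'.2).toFinset := by
  unfold sepB
  rw [Bool.and_eq_true, List.all_eq_true, Bool.not_eq_true', ← Bool.not_eq_true,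
    Bool.and_eq_true, List.all_eq_true, List.all_eq_true]
  simp only [Bool.not_eq_true', decide_eq_false_iff_not, decide_eq_true_eq]
  refine and_congr ?_ (not_congr ?_)
  · exact Iff.rfl
  · rw [Finset.ext_iff]
    simp only [List.mem_toFinset]
    constructor
    · rintro ⟨h1, h2⟩ e
      exact ⟨h1 e, h2 e⟩
    · intro h
      exact ⟨fun e he => (h e).1 he, fun e he => (h e).2 he⟩

/-- The test of the validity of an instance. -/
def validB (I : Inst) : Bool :=
  I.2.1.all (fun e => decide (e.2.1 ∈ I.1) && decide (e.2.2 ∈ I.1)) && (decide (1 ≤ I.2.2.1) &&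
    (I.2.2.2.1.all (fun v => decide (v ∈ I.1)) && (I.2.2.2.2.all (fun v => decide (v ∈ I.1)) &&
      (decide (ddup I.2.2.2.1 = I.2.2.2.1) && (decide (ddup I.2.2.2.2 = I.2.2.2.2) &&
        (decide (I.2.2.2.1.length = I.2.2.1) && decide (I.2.2.2.2.length = I.2.2.1)))))))

theorem validB_iff (I : Inst) : validB I = true ↔
    OPValid I.1 I.2.1 I.2.2.1 I.2.2.2.1 I.2.2.2.2 := by
  unfold validB OPValid
  simp only [Bool.and_eq_true, List.all_eq_true, decide_eq_true_eq, ddup_eq_iff]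

/-- The verifier. -/
def verB (z : Inst × List Wk) : Bool :=
  validB z.1 && (decide (z.2.length = z.1.2.2.1) &&
    (z.2.all (fun w => pathB z.1.2.1 z.1.2.2.2.1 z.1.2.2.2.2 w) &&
      z.2.zipIdx.all (fun u => z.2.zipIdx.all (fun v => decide (u.2 = v.2) || sepB u.1 v.1))))

theorem verB_sound {I : Inst} {w : List Wk} (h : verB (I, w) = true) : OddPaths I := by
  unfold verB at h
  simp only [Bool.and_eq_true, decide_eq_true_eq, List.all_eq_true] at h
  obtain ⟨h1, h2, h3, h4⟩ := h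
  refine ⟨(validB_iff I).1 h1, fun i => (w[i.1]'(by rw [h2]; exact i.2)).1,
    fun i => (w[i.1]'(by rw [h2]; exact i.2)).2, ?_, ?_⟩
  · intro i
    exact (pathB_iff _ _ _ _ _).1 (h3 _ (List.getElem_mem _))
  · intro i j hij
    have hi : (w[i.1]'(by rw [h2]; exact i.2), i.1) ∈ w.zipIdx := by
      rw [List.mem_zipIdx_iff_getElem?]
      exact List.getElem?_eq_getElem _
    have hj : (w[j.1]'(by rw [h2]; exact j.2), j.1) ∈ w.zipIdx := by
      rw [List.mem_zipIdx_iff_getElem?]
      exact List.getElem?_eq_getElem _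
    have h5 := h4 _ hi _ hj
    rw [Bool.or_eq_true, decide_eq_true_eq] at h5
    rcases h5 with h5 | h5
    · exact absurd (Fin.ext h5) hij
    · exact (sepB_iff _ _).1 h5

/-- The size of a path in an instance. -/
theorem sz_wk_le {I : Inst} (hI : OPValid I.1 I.2.1 I.2.2.1 I.2.2.2.1 I.2.2.2.2) {a : ℕ}
    {p : List (MEdge × ℕ)} (h : IsXYPath I.2.1 I.2.2.2.1 I.2.2.2.2 a p) :
    sz ((a, p) : Wk) ≤ sz I + (sz I * (2 * sz I + 2) + 1) + 1 := by
  obtain ⟨h1, h2, h3, -⟩ := h
  obtain ⟨v1, v2, v3, -⟩ := hI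
  have hV : sz I.1 ≤ sz I := by
    have : sz I = sz I.1 + sz I.2 + 1 := sz_pair I.1 I.2
    omega
  have hE : sz I.2.1 ≤ sz I := by
    have e1 : sz I = sz I.1 + sz I.2 + 1 := sz_pair I.1 I.2
    have e2 : sz I.2 = sz I.2.1 + sz I.2.2 + 1 := sz_pair I.2.1 I.2.2
    omega
  have key : ∀ (p : List (MEdge × ℕ)) (a : ℕ), IsUWalk I.2.1 a p →
      ∀ q ∈ p, q.1 ∈ I.2.1 ∧ q.2 ∈ I.1 := by
    intro p
    induction p with
    | nil => intro a _ q hq; simp at hq
    | cons s p ih =>
      intro a hw q hq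
      obtain ⟨g1, g2, g3⟩ := hw
      rcases List.mem_cons.1 hq with rfl | hq
      · refine ⟨g1, ?_⟩
        rcases g2 with ⟨_, g2⟩ | ⟨g2, _⟩
        · rw [← g2]; exact (v1 _ g1).2
        · rw [← g2]; exact (v1 _ g1).1
      · exact ih _ g3 q hq
  have hlen : p.length ≤ I.1.length := by
    have hn : (p.map Prod.snd).Nodup := (List.nodup_cons.1 h2).2
    have hs : (p.map Prod.snd) ⊆ I.1 := by
      intro v hv
      rw [List.mem_map] at hv
      obtain ⟨q, hq, rfl⟩ := hv
      exact (key p a h1 q hq).2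
    have := List.Nodup.length_le_of_subset hn hs
    simpa using this
  have hlen' : p.length ≤ sz I := by
    have := length_lt_sz I.1
    omega
  have hq : ∀ q ∈ p, sz q ≤ 2 * sz I + 1 := by
    intro q hq
    obtain ⟨g1, g2⟩ := key p a h1 q hq
    have e1 : sz q = sz q.1 + sz q.2 + 1 := sz_pair q.1 q.2
    have e2 := sz_le_of_mem g1
    have e3 := sz_le_of_mem g2
    omega
  have hp : sz p ≤ sz I * (2 * sz I + 2) + 1 := by
    refine (sz_le_length_mul p _ hq).trans ?_
    have : p.length * (2 * sz I + 1 + 1) ≤ sz I * (2 * sz I + 2) :=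
      Nat.mul_le_mul hlen' le_rfl
    omega
  have ha : sz a ≤ sz I := by
    have := sz_le_of_mem (v3 a h3)
    omega
  have e : sz ((a, p) : Wk) = sz a + sz p + 1 := sz_pair a p
  omega

/-- The bound for the size of a certificate. -/
noncomputable def bnd : Polynomial ℕ :=
  Polynomial.X * (Polynomial.X + (Polynomial.X * (2 * Polynomial.X + 2) + 1) + 1 + 1) + 1

theorem verB_complete {I : Inst} (h : OddPaths I) :
    ∃ w : List Wk, sz w ≤ bnd.eval (sz I) ∧ verB (I, w) = true := by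
  obtain ⟨hI, a, P, hP, hd⟩ := h
  refine ⟨List.ofFn (fun i => ((a i, P i) : Wk)), ?_, ?_⟩
  · have h1 : ∀ w ∈ List.ofFn (fun i => ((a i, P i) : Wk)),
        sz w ≤ sz I + (sz I * (2 * sz I + 2) + 1) + 1 := by
      intro w hw
      rw [List.mem_ofFn] at hw
      obtain ⟨i, rfl⟩ := hw
      exact sz_wk_le hI (hP i).1
    refine (sz_le_length_mul _ _ h1).trans ?_
    rw [List.length_ofFn]
    have hk : I.2.2.1 ≤ sz I := by
      have e1 : sz I = sz I.1 + sz I.2 + 1 := sz_pair I.1 I.2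
      have e2 : sz I.2 = sz I.2.1 + sz I.2.2 + 1 := sz_pair I.2.1 I.2.2
      have e3 : sz I.2.2 = sz I.2.2.1 + sz I.2.2.2 + 1 := sz_pair I.2.2.1 I.2.2.2
      have e4 : sz I.2.2.2 = sz I.2.2.2.1 + sz I.2.2.2.2 + 1 := sz_pair I.2.2.2.1 I.2.2.2.2
      have e5 := length_lt_sz I.2.2.2.1
      have e6 : I.2.2.2.1.length = I.2.2.1 := hI.2.2.2.2.2.2.1
      omega
    have : bnd.eval (sz I) = sz I * (sz I + (sz I * (2 * sz I + 2) + 1) + 1 + 1) + 1 := by
      simp [bnd]
    rw [this]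
    have := Nat.mul_le_mul hk (le_refl (sz I + (sz I * (2 * sz I + 2) + 1) + 1 + 1))
    omega
  · unfold verB
    simp only [Bool.and_eq_true, decide_eq_true_eq, List.all_eq_true]
    refine ⟨(validB_iff I).2 hI, by simp, ?_, ?_⟩
    · intro w hw
      rw [List.mem_ofFn] at hw
      obtain ⟨i, rfl⟩ := hw
      exact (pathB_iff _ _ _ _ _).2 (hP i)
    · rintro ⟨u, i⟩ hu ⟨v, j⟩ hv
      rw [List.mem_zipIdx_iff_getElem?] at hu hv
      rw [Bool.or_eq_true, decide_eq_true_eq]
      by_cases hij : i = j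
      · exact Or.inl hij
      · right
        rw [sepB_iff]
        rw [List.getElem?_ofFn] at hu hv
        split_ifs at hu hv with h1 h2
        simp only [Option.some.injEq] at hu hv
        rw [← hu, ← hv]
        exact hd ⟨i, h1⟩ ⟨j, h2⟩ (fun h => hij (congrArg Fin.val h))

/-! ### The verifier runs in polynomial time -/

section PolyTime

set_option synthInstance.maxSize 4000

theorem stepB_poly : NPC.Poly (fun z : List MEdge × (ℕ × MEdge × ℕ) => stepB z.1 z.2) := by
  unfold stepB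
  fun_prop

theorem walkB_poly : NPC.Poly (fun z : List MEdge × Wk => walkB z.1 z.2) := by
  unfold walkB
  refine NPC.Poly.all (p := fun (z : List MEdge × Wk) y => stepB z.1 y) ?_ ?_
  · fun_prop
  · exact stepB_poly.comp (NPC.Poly.pair (NPC.Poly.fst (NPC.Poly.fst NPC.Poly.id))
      (NPC.Poly.snd NPC.Poly.id))

theorem ddupN_poly {α : Type} [TEnc α] {l : α → List ℕ} (hl : NPC.Poly l) :
    NPC.Poly (fun a => ddup (l a)) := ddup_poly hl

theorem wVerts_poly {α : Type} [TEnc α] {w : α → Wk} (hw : NPC.Poly w) :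
    NPC.Poly (fun a => wVerts (w a).1 (w a).2) := by
  unfold wVerts
  fun_prop

theorem wInner_poly {α : Type} [TEnc α] {p : α → List (MEdge × ℕ)} (hp : NPC.Poly p) :
    NPC.Poly (fun a => wInner (p a)) := by
  simp only [wInner_eq]
  fun_prop

theorem wEdges_poly {α : Type} [TEnc α] {p : α → List (MEdge × ℕ)} (hp : NPC.Poly p) :
    NPC.Poly (fun a => wEdges (p a)) := by
  unfold wEdges
  fun_prop

theorem lastB_poly : NPC.Poly (fun z : List ℕ × Wk => lastB z.1 z.2) := by
  unfold lastB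
  have h := wVerts_poly (w := fun z : List ℕ × Wk => z.2) (NPC.Poly.snd NPC.Poly.id)
  exact NPC.Poly.decide_mem (NPC.Poly.head?_getD (NPC.Poly.reverse h) 0)
    (NPC.Poly.fst NPC.Poly.id)

theorem pathB_poly :
    NPC.Poly (fun z : (List MEdge × List ℕ × List ℕ) × Wk => pathB z.1.1 z.1.2.1 z.1.2.2 z.2) := by
  have hw : NPC.Poly (fun z : (List MEdge × List ℕ × List ℕ) × Wk => z.2) :=
    NPC.Poly.snd NPC.Poly.id
  have hv := wVerts_poly hw
  have h1 : NPC.Poly (fun z : (List MEdge × List ℕ × List ℕ) × Wk => walkB z.1.1 z.2) :=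
    walkB_poly.comp (NPC.Poly.pair (NPC.Poly.fst (NPC.Poly.fst NPC.Poly.id)) hw)
  have h2 : NPC.Poly (fun z : (List MEdge × List ℕ × List ℕ) × Wk =>
      decide (ddup (wVerts z.2.1 z.2.2) = wVerts z.2.1 z.2.2)) :=
    NPC.Poly.decide_eq (ddupN_poly hv) hv
  have h3 : NPC.Poly (fun z : (List MEdge × List ℕ × List ℕ) × Wk => decide (z.2.1 ∈ z.1.2.1)) := by
    fun_prop
  have h4 : NPC.Poly (fun z : (List MEdge × List ℕ × List ℕ) × Wk => lastB z.1.2.2 z.2) :=
    lastB_poly.comp (NPC.Poly.pair (NPC.Poly.snd (NPC.Poly.snd (NPC.Poly.fst NPC.Poly.id))) hw)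
  have h5 : NPC.Poly (fun z : (List MEdge × List ℕ × List ℕ) × Wk =>
      (wInner z.2.2).all (fun v => !(decide (v ∈ z.1.2.1)) && !(decide (v ∈ z.1.2.2)))) := by
    refine NPC.Poly.all (p := fun (z : (List MEdge × List ℕ × List ℕ) × Wk) v =>
      !(decide (v ∈ z.1.2.1)) && !(decide (v ∈ z.1.2.2))) (wInner_poly (NPC.Poly.snd hw)) ?_
    fun_prop
  have h6 : NPC.Poly (fun z : (List MEdge × List ℕ × List ℕ) × Wk =>
      decide (z.2.2.length % 2 = 1)) := by
    fun_prop
  exact NPC.Poly.and h1 (NPC.Poly.and h2 (NPC.Poly.and h3 (NPC.Poly.and h4 (NPC.Poly.and h5 h6))))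

theorem sepB_poly : NPC.Poly (fun z : Wk × Wk => sepB z.1 z.2) := by
  have h1 := wInner_poly (p := fun z : Wk × Wk => z.1.2) (NPC.Poly.snd (NPC.Poly.fst NPC.Poly.id))
  have h2 := wInner_poly (p := fun z : Wk × Wk => z.2.2) (NPC.Poly.snd (NPC.Poly.snd NPC.Poly.id))
  have h3 := wEdges_poly (p := fun z : Wk × Wk => z.1.2) (NPC.Poly.snd (NPC.Poly.fst NPC.Poly.id))
  have h4 := wEdges_poly (p := fun z : Wk × Wk => z.2.2) (NPC.Poly.snd (NPC.Poly.snd NPC.Poly.id))
  refine NPC.Poly.and (NPC.Poly.all (p := fun (z : Wk × Wk) v => !(decide (v ∈ wInner z.2.2))) h1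
    (NPC.Poly.not (NPC.Poly.decide_mem (NPC.Poly.snd NPC.Poly.id)
      (h2.comp (NPC.Poly.fst NPC.Poly.id)))))
    (NPC.Poly.not (NPC.Poly.and
      (NPC.Poly.all (p := fun (z : Wk × Wk) e => decide (e ∈ wEdges z.2.2)) h3
        (NPC.Poly.dec_mem (NPC.Poly.snd NPC.Poly.id) (h4.comp (NPC.Poly.fst NPC.Poly.id))))
      (NPC.Poly.all (p := fun (z : Wk × Wk) e => decide (e ∈ wEdges z.1.2)) h4
        (NPC.Poly.dec_mem (NPC.Poly.snd NPC.Poly.id) (h3.comp (NPC.Poly.fst NPC.Poly.id))))))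

theorem validB_poly : NPC.Poly validB := by
  unfold validB
  have h1 := ddupN_poly (l := fun I : Inst => I.2.2.2.1) (by fun_prop)
  have h2 := ddupN_poly (l := fun I : Inst => I.2.2.2.2) (by fun_prop)
  refine NPC.Poly.and (by fun_prop) (NPC.Poly.and (by fun_prop) (NPC.Poly.and (by fun_prop)
    (NPC.Poly.and (by fun_prop) (NPC.Poly.and (NPC.Poly.decide_eq h1 (by fun_prop))
    (NPC.Poly.and (NPC.Poly.decide_eq h2 (by fun_prop)) (NPC.Poly.and (by fun_prop)
      (by fun_prop)))))))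

theorem verB_poly : NPC.Poly verB := by
  have h1 : NPC.Poly (fun z : Inst × List Wk => validB z.1) :=
    validB_poly.comp (NPC.Poly.fst NPC.Poly.id)
  have h2 : NPC.Poly (fun z : Inst × List Wk => decide (z.2.length = z.1.2.2.1)) := by fun_prop
  have h3 : NPC.Poly (fun z : Inst × List Wk =>
      z.2.all (fun w => pathB z.1.2.1 z.1.2.2.2.1 z.1.2.2.2.2 w)) := by
    refine NPC.Poly.all (p := fun (z : Inst × List Wk) w =>
      pathB z.1.2.1 z.1.2.2.2.1 z.1.2.2.2.2 w) (NPC.Poly.snd NPC.Poly.id) ?_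
    exact pathB_poly.comp (f := fun y : (Inst × List Wk) × Wk =>
      ((y.1.1.2.1, y.1.1.2.2.2.1, y.1.1.2.2.2.2), y.2)) (by fun_prop)
  have hz : NPC.Poly (fun z : Inst × List Wk => z.2.zipIdx) :=
    NPC.Poly.zipIdx (NPC.Poly.snd NPC.Poly.id)
  have h4 : NPC.Poly (fun z : Inst × List Wk =>
      z.2.zipIdx.all (fun u => z.2.zipIdx.all
        (fun v => decide (u.2 = v.2) || sepB u.1 v.1))) := by
    refine NPC.Poly.all (p := fun (z : Inst × List Wk) u => z.2.zipIdx.all
        (fun v => decide (u.2 = v.2) || sepB u.1 v.1)) hz ?_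
    refine NPC.Poly.all (p := fun (y : (Inst × List Wk) × (Wk × ℕ)) v =>
      decide (y.2.2 = v.2) || sepB y.2.1 v.1) (hz.comp (NPC.Poly.fst NPC.Poly.id)) ?_
    refine NPC.Poly.or (by fun_prop) ?_
    exact sepB_poly.comp (f := fun y : ((Inst × List Wk) × (Wk × ℕ)) × (Wk × ℕ) =>
      (y.1.2.1, y.2.1)) (by fun_prop)
  exact NPC.Poly.and h1 (NPC.Poly.and h2 (NPC.Poly.and h3 h4))

end PolyTime

/-- ODD-PATHS is in `NP`. -/
theorem inNPP_oddPaths : InNPP OddPaths :=
  inNPP_of verB_poly bnd fun _ => ⟨verB_complete, fun ⟨_, _, h⟩ => verB_sound h⟩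

end Pool.Agent.H622R2.OP
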