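import Pool.Agent.H622R2.OddPaths
import Pool.Agent.H622R2.StrongDivRed
import Pool.Agent.H671R2.PolyAuto
import Pool.Agent.NPC.Sat2

/-!
# Internally disjoint odd paths: the reduction
-/

namespace Pool.Agent.H622R2.OP

open Pool.Agent.NPC Pool.Agent.H622R2

/-- The node of the chain at position `t`, on the side `s`. -/
def nO (t : ℕ) (s : Bool) : ℕ := 10 * t + (bif s then 6 else 7)

/-- The link of the chain before position `t`, on the side `s`; at multiples of `m` both sides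
share it. -/
def nK (m t : ℕ) (s : Bool) : ℕ := 10 * t + (bif (decide (t % m = 0) || s) then 8 else 9)

/-- The literal occurs in the clause. -/
def InCl (c : Cl3) (l : Lit) : Prop := l = c.1 ∨ l = c.2.1 ∨ l = c.2.2

/-- The edges for a literal in the clause with index `j`. -/
def litE (m j : ℕ) (l : Lit) : List MEdge :=
  [(0, 10 * j + 3, nO (l.2 * m + j) l.1), (0, nO (l.2 * m + j) l.1, 10 * j + 5)]

/-- The edges for a clause. -/
def clsE (m j : ℕ) (c : Cl3) : List MEdge :=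
  [(0, 0, 10 * j + 3), (0, 10 * j + 5, 10 * j + 4), (0, 10 * j + 4, 1)] ++
    (litE m j c.1 ++ (litE m j c.2.1 ++ litE m j c.2.2))

/-- The edges for a position of the chain. -/
def chE (m t : ℕ) : List MEdge :=
  [(0, nK m t true, nO t true), (0, nO t true, nK m (t + 1) true),
    (0, nK m t false, nO t false), (0, nO t false, nK m (t + 1) false)]

/-- The length of the chain for `m` clauses. -/
def TT (m : ℕ) : ℕ := 3 * m * m

/-- The edges of the graph. -/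
def opE (φ : List Cl3) : List MEdge :=
  [(0, 0, 2), (0, 2, nK φ.length 0 true), (0, 10 * TT φ.length + 8, 1)] ++
    ((List.range φ.length).flatMap (fun j => clsE φ.length j (clAt φ j)) ++
      (List.range (TT φ.length)).flatMap (fun t => chE φ.length t))

/-- The first set of terminals. -/
def opX (φ : List Cl3) : List ℕ := (List.range (φ.length + 1)).map fun i => 10 * i

/-- The second set of terminals. -/
def opY (φ : List Cl3) : List ℕ := (List.range (φ.length + 1)).map fun i => 10 * i + 1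

/-- The vertices. -/
def opV (φ : List Cl3) : List ℕ :=
  opX φ ++ (opY φ ++ (2 :: ((List.range φ.length).flatMap
    (fun j => [10 * j + 3, 10 * j + 4, 10 * j + 5]) ++
      ((List.range (TT φ.length)).flatMap (fun t => [10 * t + 6, 10 * t + 7]) ++
        (List.range (TT φ.length + 1)).flatMap (fun t => [10 * t + 8, 10 * t + 9])))))

/-- The instance of ODD-PATHS. -/
def opRed (φ : List Cl3) : List ℕ × List MEdge × ℕ × List ℕ × List ℕ :=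
  (opV φ, opE φ, φ.length + 1, opX φ, opY φ)

/-- The directed arcs of the construction. -/
def Arc (φ : List Cl3) (u v : ℕ) : Prop :=
  (u = 0 ∧ v = 2) ∨ (u = 2 ∧ v = nK φ.length 0 true) ∨ (u = 10 * TT φ.length + 8 ∧ v = 1) ∨
  (∃ j < φ.length, (u = 0 ∧ v = 10 * j + 3) ∨ (u = 10 * j + 5 ∧ v = 10 * j + 4) ∨
    (u = 10 * j + 4 ∧ v = 1) ∨
    ∃ l, InCl (clAt φ j) l ∧ ((u = 10 * j + 3 ∧ v = nO (l.2 * φ.length + j) l.1) ∨
      (u = nO (l.2 * φ.length + j) l.1 ∧ v = 10 * j + 5))) ∨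
  (∃ t < TT φ.length, ∃ s, (u = nK φ.length t s ∧ v = nO t s) ∨
    (u = nO t s ∧ v = nK φ.length (t + 1) s))

theorem mem_opE (φ : List Cl3) (i u v : ℕ) : (i, u, v) ∈ opE φ ↔ i = 0 ∧ Arc φ u v := by
  unfold opE clsE litE chE Arc InCl
  simp only [List.mem_append, List.mem_cons, List.not_mem_nil, or_false, List.mem_flatMap,
    List.mem_range, Prod.mk.injEq]
  constructor
  · rintro ((⟨h0, h1, h2⟩ | ⟨h0, h1, h2⟩ | ⟨h0, h1, h2⟩) |
      (⟨j, hj, (⟨h0, h1, h2⟩ | ⟨h0, h1, h2⟩ | ⟨h0, h1, h2⟩) |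
        ((⟨h0, h1, h2⟩ | ⟨h0, h1, h2⟩) | (⟨h0, h1, h2⟩ | ⟨h0, h1, h2⟩) |
        (⟨h0, h1, h2⟩ | ⟨h0, h1, h2⟩))⟩) |
      (⟨t, ht, (⟨h0, h1, h2⟩ | ⟨h0, h1, h2⟩ | ⟨h0, h1, h2⟩ | ⟨h0, h1, h2⟩)⟩))
    · exact ⟨h0, Or.inl ⟨h1, h2⟩⟩
    · exact ⟨h0, Or.inr (Or.inl ⟨h1, h2⟩)⟩
    · exact ⟨h0, Or.inr (Or.inr (Or.inl ⟨h1, h2⟩))⟩
    · exact ⟨h0, Or.inr (Or.inr (Or.inr (Or.inl ⟨j, hj, Or.inl ⟨h1, h2⟩⟩)))⟩
    · exact ⟨h0, Or.inr (Or.inr (Or.inr (Or.inl ⟨j, hj, Or.inr (Or.inl ⟨h1, h2⟩)⟩)))⟩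
    · exact ⟨h0, Or.inr (Or.inr (Or.inr (Or.inl ⟨j, hj, Or.inr (Or.inr (Or.inl ⟨h1, h2⟩))⟩)))⟩
    · exact ⟨h0, Or.inr (Or.inr (Or.inr (Or.inl ⟨j, hj, Or.inr (Or.inr (Or.inr
        ⟨_, Or.inl rfl, Or.inl ⟨h1, h2⟩⟩))⟩)))⟩
    · exact ⟨h0, Or.inr (Or.inr (Or.inr (Or.inl ⟨j, hj, Or.inr (Or.inr (Or.inr
        ⟨_, Or.inl rfl, Or.inr ⟨h1, h2⟩⟩))⟩)))⟩
    · exact ⟨h0, Or.inr (Or.inr (Or.inr (Or.inl ⟨j, hj, Or.inr (Or.inr (Or.inr
        ⟨_, Or.inr (Or.inl rfl), Or.inl ⟨h1, h2⟩⟩))⟩)))⟩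
    · exact ⟨h0, Or.inr (Or.inr (Or.inr (Or.inl ⟨j, hj, Or.inr (Or.inr (Or.inr
        ⟨_, Or.inr (Or.inl rfl), Or.inr ⟨h1, h2⟩⟩))⟩)))⟩
    · exact ⟨h0, Or.inr (Or.inr (Or.inr (Or.inl ⟨j, hj, Or.inr (Or.inr (Or.inr
        ⟨_, Or.inr (Or.inr rfl), Or.inl ⟨h1, h2⟩⟩))⟩)))⟩
    · exact ⟨h0, Or.inr (Or.inr (Or.inr (Or.inl ⟨j, hj, Or.inr (Or.inr (Or.inr
        ⟨_, Or.inr (Or.inr rfl), Or.inr ⟨h1, h2⟩⟩))⟩)))⟩
    · exact ⟨h0, Or.inr (Or.inr (Or.inr (Or.inr ⟨t, ht, true, Or.inl ⟨h1, h2⟩⟩)))⟩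
    · exact ⟨h0, Or.inr (Or.inr (Or.inr (Or.inr ⟨t, ht, true, Or.inr ⟨h1, h2⟩⟩)))⟩
    · exact ⟨h0, Or.inr (Or.inr (Or.inr (Or.inr ⟨t, ht, false, Or.inl ⟨h1, h2⟩⟩)))⟩
    · exact ⟨h0, Or.inr (Or.inr (Or.inr (Or.inr ⟨t, ht, false, Or.inr ⟨h1, h2⟩⟩)))⟩
  · rintro ⟨rfl, (⟨rfl, rfl⟩ | ⟨rfl, rfl⟩ | ⟨rfl, rfl⟩ | ⟨j, hj, h⟩ | ⟨t, ht, s, h⟩)⟩
    · simp
    · simp
    · simp
    · right; left
      refine ⟨j, hj, ?_⟩
      rcases h with ⟨rfl, rfl⟩ | ⟨rfl, rfl⟩ | ⟨rfl, rfl⟩ | ⟨l, (rfl | rfl | rfl), h⟩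
      · simp
      · simp
      · simp
      · rcases h with ⟨rfl, rfl⟩ | ⟨rfl, rfl⟩ <;> simp
      · rcases h with ⟨rfl, rfl⟩ | ⟨rfl, rfl⟩ <;> simp
      · rcases h with ⟨rfl, rfl⟩ | ⟨rfl, rfl⟩ <;> simp
    · right; right
      refine ⟨t, ht, ?_⟩
      cases s <;> rcases h with ⟨rfl, rfl⟩ | ⟨rfl, rfl⟩ <;> simp

theorem uadj_iff (φ : List Cl3) (u v : ℕ) : UAdj (opE φ) u v ↔ Arc φ u v ∨ Arc φ v u := by
  unfold UAdj
  constructor
  · rintro ⟨⟨i, x, y⟩, he, ⟨h1, h2⟩ | ⟨h1, h2⟩⟩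
    · simp only at h1 h2
      subst h1 h2
      exact Or.inl ((mem_opE _ _ _ _).1 he).2
    · simp only at h1 h2
      subst h1 h2
      exact Or.inr ((mem_opE _ _ _ _).1 he).2
  · rintro (h | h)
    · exact ⟨(0, u, v), (mem_opE _ _ _ _).2 ⟨rfl, h⟩, Or.inl ⟨rfl, rfl⟩⟩
    · exact ⟨(0, v, u), (mem_opE _ _ _ _).2 ⟨rfl, h⟩, Or.inr ⟨rfl, rfl⟩⟩

theorem nO_cases (t : ℕ) (s : Bool) :
    (nO t s = 10 * t + 6 ∧ s = true) ∨ (nO t s = 10 * t + 7 ∧ s = false) := by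
  unfold nO
  cases s <;> simp

theorem nK_cases (m t : ℕ) (s : Bool) :
    (nK m t s = 10 * t + 8 ∧ (t % m = 0 ∨ s = true)) ∨
      (nK m t s = 10 * t + 9 ∧ t % m ≠ 0 ∧ s = false) := by
  unfold nK
  by_cases h : t % m = 0 <;> cases s <;> simp [h]

theorem nK_mul {m t : ℕ} (h : t % m = 0) (s : Bool) : nK m t s = 10 * t + 8 := by
  rcases nK_cases m t s with ⟨h1, _⟩ | ⟨_, h1, _⟩
  · exact h1
  · exact absurd h h1

/-- The bipartition of the vertices other than the terminals. -/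
def cls (v : ℕ) : Bool := decide (v % 10 = 2 ∨ v % 10 = 4 ∨ v % 10 = 6 ∨ v % 10 = 7)

theorem arc_cls {φ : List Cl3} {u v : ℕ} (h : Arc φ u v) (hu : u ≠ 0) (hv : v ≠ 1) :
    cls u ≠ cls v := by
  have key : ∀ a b : ℕ, ((a % 10 = 2 ∨ a % 10 = 4 ∨ a % 10 = 6 ∨ a % 10 = 7) ∧
      ¬ (b % 10 = 2 ∨ b % 10 = 4 ∨ b % 10 = 6 ∨ b % 10 = 7)) → cls a ≠ cls b := by
    intro a b h
    unfold cls
    rw [decide_eq_true h.1, decide_eq_false h.2]
    simp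
  rcases h with ⟨h1, h2⟩ | ⟨h1, h2⟩ | ⟨h1, h2⟩ | ⟨j, hj, h⟩ | ⟨t, ht, s, h⟩
  · exact absurd h1 hu
  · have := nK_cases φ.length 0 true
    apply key
    omega
  · exact absurd h2 hv
  · rcases h with ⟨h1, h2⟩ | ⟨h1, h2⟩ | ⟨h1, h2⟩ | ⟨l, hl, ⟨h1, h2⟩ | ⟨h1, h2⟩⟩
    · exact absurd h1 hu
    · apply Ne.symm; apply key; omega
    · exact absurd h2 hv
    · have := nO_cases (l.2 * φ.length + j) l.1
      apply Ne.symm; apply key; omega
    · have := nO_cases (l.2 * φ.length + j) l.1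
      apply key; omega
  · have h3 := nO_cases t s
    rcases h with ⟨h1, h2⟩ | ⟨h1, h2⟩
    · have := nK_cases φ.length t s
      apply Ne.symm; apply key; omega
    · have := nK_cases φ.length (t + 1) s
      apply key; omega

theorem uadj_cls {φ : List Cl3} {u v : ℕ} (h : UAdj (opE φ) u v) (hu : u ≠ 0) (hu' : u ≠ 1)
    (hv : v ≠ 0) (hv' : v ≠ 1) : cls u ≠ cls v := by
  rw [uadj_iff] at h
  rcases h with h | h
  · exact arc_cls h hu hv'
  · exact (arc_cls h hv hu').symm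

/-- The neighbours of a vertex whose last digit is zero. -/
theorem uadj_zero {φ : List Cl3} {u v : ℕ} (h : UAdj (opE φ) u v) (hu : u % 10 = 0) :
    u = 0 ∧ (v = 2 ∨ ∃ j < φ.length, v = 10 * j + 3) := by
  rw [uadj_iff] at h
  rcases h with h | h
  · rcases h with ⟨h1, h2⟩ | ⟨h1, h2⟩ | ⟨h1, h2⟩ | ⟨j, hj, h⟩ | ⟨t, ht, s, h⟩
    · exact ⟨h1, Or.inl h2⟩
    · omega
    · omega
    · rcases h with ⟨h1, h2⟩ | ⟨h1, h2⟩ | ⟨h1, h2⟩ | ⟨l, hl, ⟨h1, h2⟩ | ⟨h1, h2⟩⟩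
      · exact ⟨h1, Or.inr ⟨j, hj, h2⟩⟩
      · omega
      · omega
      · omega
      · have := nO_cases (l.2 * φ.length + j) l.1
        omega
    · have h3 := nO_cases t s
      rcases h with ⟨h1, h2⟩ | ⟨h1, h2⟩
      · have := nK_cases φ.length t s
        omega
      · omega
  · exfalso
    rcases h with ⟨h1, h2⟩ | ⟨h1, h2⟩ | ⟨h1, h2⟩ | ⟨j, hj, h⟩ | ⟨t, ht, s, h⟩
    · omega
    · have := nK_cases φ.length 0 true
      omega
    · omega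
    · rcases h with ⟨h1, h2⟩ | ⟨h1, h2⟩ | ⟨h1, h2⟩ | ⟨l, hl, ⟨h1, h2⟩ | ⟨h1, h2⟩⟩
      · omega
      · omega
      · omega
      · have := nO_cases (l.2 * φ.length + j) l.1
        omega
      · omega
    · have h3 := nO_cases t s
      rcases h with ⟨h1, h2⟩ | ⟨h1, h2⟩
      · omega
      · have := nK_cases φ.length (t + 1) s
        omega

/-- The neighbours of a vertex whose last digit is one. -/
theorem uadj_one {φ : List Cl3} {u v : ℕ} (h : UAdj (opE φ) u v) (hv : v % 10 = 1) :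
    v = 1 ∧ (u = 10 * TT φ.length + 8 ∨ ∃ j < φ.length, u = 10 * j + 4) := by
  rw [uadj_iff] at h
  rcases h with h | h
  · rcases h with ⟨h1, h2⟩ | ⟨h1, h2⟩ | ⟨h1, h2⟩ | ⟨j, hj, h⟩ | ⟨t, ht, s, h⟩
    · omega
    · have := nK_cases φ.length 0 true
      omega
    · exact ⟨h2, Or.inl h1⟩
    · rcases h with ⟨h1, h2⟩ | ⟨h1, h2⟩ | ⟨h1, h2⟩ | ⟨l, hl, ⟨h1, h2⟩ | ⟨h1, h2⟩⟩
      · omega
      · omega
      · exact ⟨h2, Or.inr ⟨j, hj, h1⟩⟩
      · have := nO_cases (l.2 * φ.length + j) l.1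
        omega
      · omega
    · have h3 := nO_cases t s
      rcases h with ⟨h1, h2⟩ | ⟨h1, h2⟩
      · omega
      · have := nK_cases φ.length (t + 1) s
        omega
  · exfalso
    rcases h with ⟨h1, h2⟩ | ⟨h1, h2⟩ | ⟨h1, h2⟩ | ⟨j, hj, h⟩ | ⟨t, ht, s, h⟩
    · omega
    · omega
    · omega
    · rcases h with ⟨h1, h2⟩ | ⟨h1, h2⟩ | ⟨h1, h2⟩ | ⟨l, hl, ⟨h1, h2⟩ | ⟨h1, h2⟩⟩
      · omega
      · omega
      · omega
      · omega
      · have := nO_cases (l.2 * φ.length + j) l.1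
        omega
    · have h3 := nO_cases t s
      rcases h with ⟨h1, h2⟩ | ⟨h1, h2⟩
      · have := nK_cases φ.length t s
        omega
      · omega

theorem uadj_d {φ : List Cl3} {u j : ℕ} (h : UAdj (opE φ) u (10 * j + 4)) (hu : u ≠ 1) :
    u = 10 * j + 5 := by
  rw [uadj_iff] at h
  rcases h with h | h
  · rcases h with ⟨h1, h2⟩ | ⟨h1, h2⟩ | ⟨h1, h2⟩ | ⟨i, hi, h⟩ | ⟨t, ht, s, h⟩
    · omega
    · have := nK_cases φ.length 0 true
      omega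
    · omega
    · rcases h with ⟨h1, h2⟩ | ⟨h1, h2⟩ | ⟨h1, h2⟩ | ⟨l, hl, ⟨h1, h2⟩ | ⟨h1, h2⟩⟩
      · omega
      · omega
      · omega
      · have := nO_cases (l.2 * φ.length + i) l.1
        omega
      · omega
    · have h3 := nO_cases t s
      rcases h with ⟨h1, h2⟩ | ⟨h1, h2⟩
      · omega
      · have := nK_cases φ.length (t + 1) s
        omega
  · rcases h with ⟨h1, h2⟩ | ⟨h1, h2⟩ | ⟨h1, h2⟩ | ⟨i, hi, h⟩ | ⟨t, ht, s, h⟩
    · omega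
    · omega
    · omega
    · rcases h with ⟨h1, h2⟩ | ⟨h1, h2⟩ | ⟨h1, h2⟩ | ⟨l, hl, ⟨h1, h2⟩ | ⟨h1, h2⟩⟩
      · omega
      · omega
      · omega
      · omega
      · have := nO_cases (l.2 * φ.length + i) l.1
        omega
    · have h3 := nO_cases t s
      rcases h with ⟨h1, h2⟩ | ⟨h1, h2⟩
      · have := nK_cases φ.length t s
        omega
      · omega

theorem uadj_c {φ : List Cl3} {v j : ℕ} (h : UAdj (opE φ) (10 * j + 3) v) (hv : v ≠ 0) :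
    ∃ l, InCl (clAt φ j) l ∧ v = nO (l.2 * φ.length + j) l.1 := by
  rw [uadj_iff] at h
  rcases h with h | h
  · rcases h with ⟨h1, h2⟩ | ⟨h1, h2⟩ | ⟨h1, h2⟩ | ⟨i, hi, h⟩ | ⟨t, ht, s, h⟩
    · omega
    · omega
    · omega
    · rcases h with ⟨h1, h2⟩ | ⟨h1, h2⟩ | ⟨h1, h2⟩ | ⟨l, hl, ⟨h1, h2⟩ | ⟨h1, h2⟩⟩
      · omega
      · omega
      · omega
      · have hij : i = j := by omega
        subst hij
        exact ⟨l, hl, h2⟩
      · have := nO_cases (l.2 * φ.length + i) l.1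
        omega
    · have h3 := nO_cases t s
      rcases h with ⟨h1, h2⟩ | ⟨h1, h2⟩
      · have := nK_cases φ.length t s
        omega
      · omega
  · exfalso
    rcases h with ⟨h1, h2⟩ | ⟨h1, h2⟩ | ⟨h1, h2⟩ | ⟨i, hi, h⟩ | ⟨t, ht, s, h⟩
    · omega
    · have := nK_cases φ.length 0 true
      omega
    · omega
    · rcases h with ⟨h1, h2⟩ | ⟨h1, h2⟩ | ⟨h1, h2⟩ | ⟨l, hl, ⟨h1, h2⟩ | ⟨h1, h2⟩⟩
      · omega
      · omega
      · omega
      · have := nO_cases (l.2 * φ.length + i) l.1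
        omega
      · omega
    · have h3 := nO_cases t s
      rcases h with ⟨h1, h2⟩ | ⟨h1, h2⟩
      · omega
      · have := nK_cases φ.length (t + 1) s
        omega

/-! ### The cut -/

section Cut

variable {φ : List Cl3} {i : ℕ} {js : Bool → ℕ}

/-- The part of the chain before the cut, at position `i * m + js s` on the side `s`. -/
def Low (m i : ℕ) (js : Bool → ℕ) (v : ℕ) : Prop :=
  v = 2 ∨ (∃ t s, v = nO t s ∧ t < i * m + js s) ∨ ∃ t s, v = nK m t s ∧ t ≤ i * m + js s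

theorem nO_inj {t t' : ℕ} {s s' : Bool} (h : nO t s = nO t' s') : t = t' ∧ s = s' := by
  have h1 := nO_cases t s
  have h2 := nO_cases t' s'
  refine ⟨by omega, ?_⟩
  rcases h1 with ⟨h1, rfl⟩ | ⟨h1, rfl⟩ <;> rcases h2 with ⟨h2, rfl⟩ | ⟨h2, rfl⟩ <;>
    first | rfl | omega

theorem low_nO {m : ℕ} {t : ℕ} {s : Bool} (h : Low m i js (nO t s)) : t < i * m + js s := by
  have h1 := nO_cases t s
  rcases h with h | ⟨t', s', h, h'⟩ | ⟨t', s', h, _⟩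
  · omega
  · obtain ⟨rfl, rfl⟩ := nO_inj h
    exact h'
  · have := nK_cases m t' s'
    omega

theorem low_nK {m : ℕ} (hjs : ∀ s, js s < m) {t : ℕ} {s : Bool} (h : Low m i js (nK m t s)) :
    t ≤ i * m + js s := by
  have h1 := nK_cases m t s
  rcases h with h | ⟨t', s', h, h'⟩ | ⟨t', s', h, h'⟩
  · omega
  · have := nO_cases t' s'
    omega
  · have h2 := nK_cases m t' s'
    have ht : t = t' := by omega
    subst ht
    by_cases hm : t % m = 0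
    · have h3 := hjs s'
      have h4 : t < (i + 1) * m := by
        rw [Nat.add_mul, Nat.one_mul]; omega
      obtain ⟨q, rfl⟩ := Nat.dvd_of_mod_eq_zero hm
      have h5 : q < i + 1 := by
        rw [Nat.mul_comm m q] at h4
        exact lt_of_mul_lt_mul_right h4 (Nat.zero_le _)
      have h6 : m * q ≤ m * i := Nat.mul_le_mul_left _ (by omega)
      rw [Nat.mul_comm m i] at h6
      omega
    · have : s = s' := by
        rcases h1 with ⟨h1, h1' | rfl⟩ | ⟨h1, _, rfl⟩ <;>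
          rcases h2 with ⟨h2, h2' | rfl⟩ | ⟨h2, _, rfl⟩ <;> first | rfl | omega
      rw [this]
      exact h'

theorem cut {φ : List Cl3} {r : List ℕ} (hr : r ≠ []) (hc : List.IsChain (UAdj (opE φ)) r)
    (hh : r.head hr = 2) (hlast : r.getLast hr = 10 * TT φ.length + 8)
    (h01 : ∀ v ∈ r, v ≠ 0 ∧ v ≠ 1)
    (hcd : ∀ v ∈ r, ∀ j < φ.length, v ≠ 10 * j + 3 ∧ v ≠ 10 * j + 4 ∧ v ≠ 10 * j + 5)
    (hi : i < 3 * φ.length) (hjs : ∀ s, js s < φ.length) :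
    ∃ s, nO (i * φ.length + js s) s ∈ r := by
  obtain ⟨u, hu, v, hv, hadj, hLu, hLv⟩ := chain_cross (L := Low φ.length i js) hr hc
    (by rw [hh]; exact Or.inl rfl) (by
      rw [hlast, ← nK_mul (m := φ.length) (t := TT φ.length) (by simp [TT]) true]
      intro h
      have h1 := low_nK hjs h
      have h2 := hjs true
      have h3 : (i + 1) * φ.length ≤ 3 * φ.length * φ.length := Nat.mul_le_mul_right _ (by omega)
      unfold TT at h1
      rw [Nat.add_mul, Nat.one_mul] at h3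
      omega)
  rw [uadj_iff] at hadj
  rcases hadj with h | h
  · rcases h with ⟨h1, h2⟩ | ⟨h1, h2⟩ | ⟨h1, h2⟩ | ⟨j, hj, h⟩ | ⟨t, ht, s, h⟩
    · exact absurd h1 (h01 u hu).1
    · exact absurd (Or.inr (Or.inr ⟨0, true, h2, by omega⟩)) hLv
    · exact absurd h2 (h01 v hv).2
    · rcases h with ⟨h1, h2⟩ | ⟨h1, h2⟩ | ⟨h1, h2⟩ | ⟨l, hl, ⟨h1, h2⟩ | ⟨h1, h2⟩⟩
      · exact absurd h1 (h01 u hu).1
      · exact absurd h1 (hcd u hu j hj).2.2
      · exact absurd h1 (hcd u hu j hj).2.1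
      · exact absurd h1 (hcd u hu j hj).1
      · exact absurd h2 (hcd v hv j hj).2.2
    · rcases h with ⟨h1, h2⟩ | ⟨h1, h2⟩
      · rw [h1] at hLu
        have h3 := low_nK hjs hLu
        have h4 : ¬ t < i * φ.length + js s := fun h4 =>
          hLv (Or.inr (Or.inl ⟨t, s, h2, h4⟩))
        refine ⟨s, ?_⟩
        have h5 : t = i * φ.length + js s := by omega
        rw [← h5, ← h2]
        exact hv
      · rw [h1] at hLu
        have h3 := low_nO hLu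
        exact absurd (Or.inr (Or.inr ⟨t + 1, s, h2, by omega⟩)) hLv
  · rcases h with ⟨h1, h2⟩ | ⟨h1, h2⟩ | ⟨h1, h2⟩ | ⟨j, hj, h⟩ | ⟨t, ht, s, h⟩
    · exact absurd h1 (h01 v hv).1
    · exact absurd (Or.inl h1) hLv
    · exact absurd h2 (h01 u hu).2
    · rcases h with ⟨h1, h2⟩ | ⟨h1, h2⟩ | ⟨h1, h2⟩ | ⟨l, hl, ⟨h1, h2⟩ | ⟨h1, h2⟩⟩
      · exact absurd h1 (h01 v hv).1
      · exact absurd h1 (hcd v hv j hj).2.2
      · exact absurd h1 (hcd v hv j hj).2.1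
      · exact absurd h1 (hcd v hv j hj).1
      · exact absurd h2 (hcd u hu j hj).2.2
    · rcases h with ⟨h1, h2⟩ | ⟨h1, h2⟩
      · rw [h2] at hLu
        have h3 := low_nO hLu
        exact absurd (Or.inr (Or.inr ⟨t, s, h1, by omega⟩)) hLv
      · rw [h2] at hLu
        have h3 := low_nK hjs hLu
        exact absurd (Or.inr (Or.inl ⟨t, s, h1, by omega⟩)) hLv

end Cut

end Pool.Agent.H622R2.OP
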