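import Pool.Agent.H622R2.OddPathsRed

/-!
# Internally disjoint odd paths: correctness of the reduction
-/

namespace Pool.Agent.H622R2.OP

open Pool.Agent.NPC Pool.Agent.H622R2

theorem clAt_mem {φ : List Cl3} {j : ℕ} (hj : j < φ.length) : clAt φ j ∈ φ := by
  unfold clAt
  rw [List.getD_eq_getElem?_getD, List.getElem?_eq_getElem hj, Option.getD_some]
  exact List.getElem_mem hj

theorem exists_clAt {φ : List Cl3} {c : Cl3} (hc : c ∈ φ) : ∃ j < φ.length, clAt φ j = c := by
  obtain ⟨j, hj, hjc⟩ := List.getElem_of_mem hc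
  refine ⟨j, hj, ?_⟩
  unfold clAt
  rw [List.getD_eq_getElem?_getD, List.getElem?_eq_getElem hj, Option.getD_some, hjc]

theorem inCl_lt {φ : List Cl3} (hb : Bounded3 φ) {j : ℕ} (hj : j < φ.length) {l : Lit}
    (hl : InCl (clAt φ j) l) : l.2 < 3 * φ.length := by
  obtain ⟨h1, h2, h3⟩ := hb _ (clAt_mem hj)
  rcases hl with rfl | rfl | rfl
  · exact h1
  · exact h2
  · exact h3

theorem sat_of_paths {φ : List Cl3} (hb : Bounded3 φ) (h : OddPaths (opRed φ)) : Sat3 φ := by
  classical
  obtain ⟨_, a, P, hP, hd⟩ := h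
  change Fin (φ.length + 1) → ℕ at a
  change Fin (φ.length + 1) → List (MEdge × ℕ) at P
  change ∀ i : Fin (φ.length + 1), IsXYPath (opE φ) (opX φ) (opY φ) (a i) (P i) ∧
    Odd (P i).length at hP
  change ∀ i j : Fin (φ.length + 1), i ≠ j → _ at hd
  have hX : ∀ v ∈ opX φ, v % 10 = 0 := by
    intro v hv
    unfold opX at hv
    rw [List.mem_map] at hv
    obtain ⟨i, _, rfl⟩ := hv
    omega
  have hY : ∀ v ∈ opY φ, v % 10 = 1 := by
    intro v hv
    unfold opY at hv
    rw [List.mem_map] at hv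
    obtain ⟨i, _, rfl⟩ := hv
    omega
  have h0X : 0 ∈ opX φ := by
    unfold opX
    rw [List.mem_map]
    exact ⟨0, by simp, rfl⟩
  have h1Y : 1 ∈ opY φ := by
    unfold opY
    rw [List.mem_map]
    exact ⟨0, by simp, rfl⟩
  set r : Fin (φ.length + 1) → List ℕ := fun i => wInner (P i) with hr
  have hch : ∀ i, ∃ b ∈ opY φ, List.IsChain (UAdj (opE φ)) (a i :: (r i ++ [b])) ∧
      Even (r i).length := fun i => (hP i).1.split (hP i).2
  have haX : ∀ i, a i ∈ opX φ := fun i => (hP i).1.2.2.1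
  have hin : ∀ i, ∀ v ∈ r i, v ≠ 0 ∧ v ≠ 1 := by
    intro i v hv
    obtain ⟨h1, h2⟩ := (hP i).1.2.2.2.2 v hv
    refine ⟨?_, ?_⟩
    · rintro rfl; exact h1 h0X
    · rintro rfl; exact h2 h1Y
  have hne : ∀ i, r i ≠ [] := by
    intro i h0
    obtain ⟨b, hb', hc, _⟩ := hch i
    rw [h0, List.nil_append, List.isChain_cons_cons] at hc
    have h1 := uadj_zero hc.1 (hX _ (haX i))
    have h2 := hY b hb'
    rcases h1.2 with h3 | ⟨j, _, h3⟩ <;> omega
  have hfirst : ∀ i, (r i).head (hne i) = 2 ∨ ∃ j < φ.length, (r i).head (hne i) = 10 * j + 3 := by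
    intro i
    obtain ⟨b, hb', hc, _⟩ := hch i
    exact (uadj_zero (chain_first hc (hne i)) (hX _ (haX i))).2
  have hlast : ∀ i, (r i).getLast (hne i) = 10 * TT φ.length + 8 ∨
      ∃ j < φ.length, (r i).getLast (hne i) = 10 * j + 4 := by
    intro i
    obtain ⟨b, hb', hc, _⟩ := hch i
    exact (uadj_one (chain_last hc (hne i)) (hY _ hb')).2
  have hchr : ∀ i, List.IsChain (UAdj (opE φ)) (r i) := by
    intro i
    obtain ⟨b, hb', hc, _⟩ := hch i
    exact chain_mid hc
  have hlen : ∀ i, 2 ≤ (r i).length := by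
    intro i
    obtain ⟨b, hb', hc, he⟩ := hch i
    have h1 : 0 < (r i).length := List.length_pos_iff.2 (hne i)
    obtain ⟨q, hq⟩ := he
    omega
  have hpar : ∀ i, cls ((r i).head (hne i)) ≠ cls ((r i).getLast (hne i)) := by
    intro i
    obtain ⟨b, hb', hc, he⟩ := hch i
    exact chain_parity (hne i) (hchr i) (fun u hu v hv huv =>
      uadj_cls huv (hin i u hu).1 (hin i u hu).2 (hin i v hv).1 (hin i v hv).2) he
  have hdis : ∀ i j, i ≠ j → ∀ v, v ∈ r i → v ∈ r j → False := by
    intro i j hij v h1 h2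
    exact (hd i j hij).1 h1 h2
  -- the first and the last internal vertices take all possible values
  have hsurj : ∀ (f : Fin (φ.length + 1) → ℕ) (w : ℕ) (d : ℕ), (∀ i, f i ∈ r i) →
      (∀ i, f i = w ∨ ∃ j < φ.length, f i = 10 * j + d) →
      (∃ i, f i = w) ∧ ∀ j < φ.length, ∃ i, f i = 10 * j + d := by
    intro f w d hf hcases
    have hinj : Function.Injective f := by
      intro i j hij
      by_contra hne'
      exact hdis i j hne' (f i) (hf i) (hij ▸ hf j)
    let F : Finset ℕ := insert w ((Finset.range φ.length).image fun j => 10 * j + d)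
    have hsub : Finset.univ.image f ⊆ F := by
      intro v hv
      rw [Finset.mem_image] at hv
      obtain ⟨i, _, rfl⟩ := hv
      rcases hcases i with h | ⟨j, hj, h⟩
      · rw [h]; exact Finset.mem_insert_self _ _
      · rw [h]
        exact Finset.mem_insert_of_mem (Finset.mem_image_of_mem _ (Finset.mem_range.2 hj))
    have hcard : F.card ≤ (Finset.univ.image f).card := by
      rw [Finset.card_image_of_injective _ hinj, Finset.card_univ, Fintype.card_fin]
      refine (Finset.card_insert_le _ _).trans ?_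
      have := Finset.card_image_le (s := Finset.range φ.length) (f := fun j => 10 * j + d)
      rw [Finset.card_range] at this
      omega
    have heq := Finset.eq_of_subset_of_card_le hsub hcard
    have hall : ∀ v ∈ F, ∃ i, f i = v := by
      intro v hv
      rw [← heq, Finset.mem_image] at hv
      obtain ⟨i, _, hi⟩ := hv
      exact ⟨i, hi⟩
    refine ⟨hall _ (Finset.mem_insert_self _ _), fun j hj => hall _ ?_⟩
    exact Finset.mem_insert_of_mem (Finset.mem_image_of_mem _ (Finset.mem_range.2 hj))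
  obtain ⟨⟨ia, hia⟩, hic⟩ := hsurj (fun i => (r i).head (hne i)) 2 3
    (fun i => List.head_mem _) hfirst
  obtain ⟨_, hid⟩ := hsurj (fun i => (r i).getLast (hne i)) _ 4
    (fun i => List.getLast_mem _) hlast
  have hial : (r ia).getLast (hne ia) = 10 * TT φ.length + 8 := by
    rcases hlast ia with h | ⟨j, _, h⟩
    · exact h
    · exfalso
      have h1 := hpar ia
      rw [h] at h1
      rw [hia] at h1
      apply h1
      unfold cls
      rw [decide_eq_true (by omega), decide_eq_true (by omega)]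
  have hcd : ∀ v ∈ r ia, ∀ j < φ.length, v ≠ 10 * j + 3 ∧ v ≠ 10 * j + 4 ∧ v ≠ 10 * j + 5 := by
    intro v hv j hj
    obtain ⟨ic, h1⟩ := hic j hj
    obtain ⟨id, h2⟩ := hid j hj
    have hne1 : ia ≠ ic := by
      rintro rfl
      rw [hia] at h1
      omega
    have hne2 : ia ≠ id := by
      rintro rfl
      rw [hial] at h2
      omega
    refine ⟨?_, ?_, ?_⟩
    · rintro rfl
      refine hdis _ _ hne1 _ hv ?_
      rw [← h1]
      exact List.head_mem _
    · rintro rfl
      refine hdis _ _ hne2 _ hv ?_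
      rw [← h2]
      exact List.getLast_mem _
    · rintro rfl
      refine hdis _ _ hne2 _ hv ?_
      obtain ⟨u, hu, hadj⟩ := chain_pred (hne id) (hchr id) (hlen id)
      rw [h2] at hadj
      rw [← uadj_d hadj (hin id u hu).2]
      exact hu
  refine ⟨fun i => decide (∃ j < φ.length, nO (i * φ.length + j) true ∉ r ia), ?_⟩
  intro c hc
  obtain ⟨j, hj, rfl⟩ := exists_clAt hc
  obtain ⟨ic, h1⟩ := hic j hj
  have hne1 : ia ≠ ic := by
    rintro rfl
    rw [hia] at h1
    omega
  obtain ⟨v, hv, hadj⟩ := chain_succ (hne ic) (hchr ic) (hlen ic)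
  rw [h1] at hadj
  obtain ⟨l, hl, rfl⟩ := uadj_c hadj (hin ic v hv).1
  have hmiss : nO (l.2 * φ.length + j) l.1 ∉ r ia := fun h => hdis _ _ hne1 _ h hv
  have hτ : decide (∃ j < φ.length, nO (l.2 * φ.length + j) true ∉ r ia) = l.1 := by
    rcases hs : l.1 with _ | _
    · apply decide_eq_false
      rintro ⟨j1, hj1, h2⟩
      obtain ⟨s, h3⟩ := cut (js := fun s => bif s then j1 else j) (hne ia) (hchr ia) hia hial
        (hin ia) hcd (inCl_lt hb hj hl) (by intro s; cases s <;> simpa)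
      cases s
      · rw [hs] at hmiss
        exact hmiss h3
      · exact h2 h3
    · apply decide_eq_true
      refine ⟨j, hj, ?_⟩
      rwa [hs] at hmiss
  rcases hl with rfl | rfl | rfl
  · exact Or.inl hτ
  · exact Or.inr (Or.inl hτ)
  · exact Or.inr (Or.inr hτ)

/-! ### From an assignment to paths -/

section Paths

variable (m : ℕ) (s : ℕ → Bool) (l : ℕ → Lit)

/-- The path through the chain. -/
def gA (p : ℕ) : ℕ :=
  if p = 0 then 0 else if p = 1 then 2 else if p = 2 * TT m + 3 then 1 else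
    if p % 2 = 0 then nK m ((p - 2) / 2) (s ((p - 2) / 2)) else nO ((p - 3) / 2) (s ((p - 3) / 2))

/-- The path through a clause. -/
def gC (j p : ℕ) : ℕ :=
  if p = 0 then 0 else if p = 1 then 10 * j + 3 else if p = 2 then nO ((l j).2 * m + j) (l j).1 else
    if p = 3 then 10 * j + 5 else if p = 4 then 10 * j + 4 else 1

theorem gA_even (q : ℕ) : gA m s (2 * q + 2) = nK m q (s q) := by
  unfold gA
  rw [if_neg (by omega), if_neg (by omega), if_neg (by omega), if_pos (by omega)]
  have : (2 * q + 2 - 2) / 2 = q := by omega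
  rw [this]

theorem gA_odd {q : ℕ} (hq : q ≠ TT m) : gA m s (2 * q + 3) = nO q (s q) := by
  unfold gA
  rw [if_neg (by omega), if_neg (by omega), if_neg (by omega), if_neg (by omega)]
  have : (2 * q + 3 - 3) / 2 = q := by omega
  rw [this]

theorem gA_last : gA m s (2 * TT m + 3) = 1 := by
  unfold gA
  rw [if_neg (by omega), if_neg (by omega), if_pos rfl]

theorem gA_cases (p : ℕ) : (p = 0 ∧ gA m s p = 0) ∨ (p = 1 ∧ gA m s p = 2) ∨
    (p = 2 * TT m + 3 ∧ gA m s p = 1) ∨ (∃ q, p = 2 * q + 2 ∧ gA m s p = nK m q (s q)) ∨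
    ∃ q, p = 2 * q + 3 ∧ q ≠ TT m ∧ gA m s p = nO q (s q) := by
  by_cases h0 : p = 0
  · subst h0; exact Or.inl ⟨rfl, rfl⟩
  by_cases h1 : p = 1
  · subst h1; exact Or.inr (Or.inl ⟨rfl, rfl⟩)
  by_cases h2 : p = 2 * TT m + 3
  · subst h2; exact Or.inr (Or.inr (Or.inl ⟨rfl, gA_last m s⟩))
  by_cases h3 : p % 2 = 0
  · obtain ⟨q, rfl⟩ : ∃ q, p = 2 * q + 2 := ⟨(p - 2) / 2, by omega⟩
    exact Or.inr (Or.inr (Or.inr (Or.inl ⟨q, rfl, gA_even m s q⟩)))
  · obtain ⟨q, rfl⟩ : ∃ q, p = 2 * q + 3 := ⟨(p - 3) / 2, by omega⟩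
    exact Or.inr (Or.inr (Or.inr (Or.inr ⟨q, rfl, by omega, gA_odd m s (by omega)⟩)))

theorem gA_inj : ∀ p < 2 * TT m + 2 + 2, ∀ q < 2 * TT m + 2 + 2, gA m s p = gA m s q → p = q := by
  intro p _ q _ h
  rcases gA_cases m s p with ⟨h1, h2⟩ | ⟨h1, h2⟩ | ⟨h1, h2⟩ | ⟨a, h1, h2⟩ | ⟨a, h1, _, h2⟩ <;>
  rcases gA_cases m s q with ⟨k1, k2⟩ | ⟨k1, k2⟩ | ⟨k1, k2⟩ | ⟨b, k1, k2⟩ | ⟨b, k1, _, k2⟩ <;>
  rw [h2, k2] at h
  all_goals
    first
    | omega
    | (have e1 := nK_cases m a (s a); omega)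
    | (have e1 := nK_cases m b (s b); omega)
    | (have e1 := nO_cases a (s a); omega)
    | (have e1 := nO_cases b (s b); omega)
    | (have e1 := nK_cases m a (s a); have e2 := nK_cases m b (s b); omega)
    | (have e1 := nO_cases a (s a); have e2 := nK_cases m b (s b); omega)
    | (have e1 := nK_cases m a (s a); have e2 := nO_cases b (s b); omega)
    | (have e1 := nO_cases a (s a); have e2 := nO_cases b (s b); omega)

theorem gC_inj (j : ℕ) : ∀ p < 4 + 2, ∀ q < 4 + 2, gC m l j p = gC m l j q → p = q := by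
  have e := nO_cases ((l j).2 * m + j) (l j).1
  intro p hp q hq h
  unfold gC at h
  split_ifs at h <;> omega

end Paths

end Pool.Agent.H622R2.OP
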