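import Pool.Agent.H622R2.MatGraph

/-!
# Strongly divisible graphs: definitions and the combinatorial reduction
-/

namespace Pool.Agent.H622R2

/-- A `k`-clique-colouring: no colour class contains a maximal clique with at least two
vertices. -/
def IsCliqueColouring {W : Type} (H : SimpleGraph W) (k : ℕ) (c : W → Fin k) : Prop :=
  ∀ Q : Set W, Maximal H.IsClique Q → Q.Nontrivial → ¬ ∃ i, ∀ v ∈ Q, c v = i

/-- A graph is strongly `k`-divisible when each of its induced subgraphs has a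
`k`-clique-colouring. -/
def StronglyDivisible (k : ℕ) {V : Type} (G : SimpleGraph V) : Prop :=
  ∀ s : Set V, ∃ c : s → Fin k, IsCliqueColouring (G.induce s) k c

/-- A two-colouring (of an ambient vertex type) is good for the subgraph induced by `s`. -/
def GoodOn {V : Type} (R : V → V → Prop) (s : Set V) (c : V → Bool) : Prop :=
  ∀ Q : Set V, Q ⊆ s → (∀ x ∈ Q, ∀ y ∈ Q, x ≠ y → R x y) →
    (∀ v ∈ s, (∀ q ∈ Q, v ≠ q → R v q) → v ∈ Q) → (∃ x ∈ Q, ∃ y ∈ Q, x ≠ y) →
    ∃ x ∈ Q, ∃ y ∈ Q, c x ≠ c y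

/-- The two-colourability of all induced subgraphs in terms of an ambient type. -/
theorem stronglyDivisible_two_iff {V U : Type} (G : SimpleGraph V) (f : V → U)
    (hf : Function.Injective f) (R : U → U → Prop)
    (hR : ∀ x y, x ≠ y → (G.Adj x y ↔ R (f x) (f y))) :
    StronglyDivisible 2 G ↔ ∀ s : Set U, s ⊆ Set.range f → ∃ c : U → Bool, GoodOn R s c := by
  classical
  constructor
  · intro h s hs
    obtain ⟨c, hc⟩ := h (f ⁻¹' s)
    refine ⟨fun u => if hu : ∃ v, f v = u ∧ u ∈ s then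
      decide (c ⟨hu.choose, by rw [Set.mem_preimage, hu.choose_spec.1]; exact hu.choose_spec.2⟩ = 0)
      else false, ?_⟩
    intro Q hQs hQ hmax ⟨x, hx, y, hy, hxy⟩
    have hcol : ∀ (v : V) (hv : f v ∈ s),
        (if hu : ∃ v', f v' = f v ∧ f v ∈ s then
        decide (c ⟨hu.choose, by rw [Set.mem_preimage, hu.choose_spec.1]; exact hu.choose_spec.2⟩
          = 0) else false) = decide (c ⟨v, hv⟩ = 0) := by
      intro v hv
      have hu : ∃ v', f v' = f v ∧ f v ∈ s := ⟨v, rfl, hv⟩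
      rw [dif_pos hu]
      have : hu.choose = v := hf hu.choose_spec.1
      congr 3
      exact Subtype.ext this
    have hQ' : Maximal (G.induce (f ⁻¹' s)).IsClique {v | f v.1 ∈ Q} := by
      refine ⟨?_, ?_⟩
      · intro a ha b hb hab
        have hab' : a.1 ≠ b.1 := fun h => hab (Subtype.ext h)
        exact (hR _ _ hab').2 (hQ _ ha _ hb (fun h => hab' (hf h)))
      · intro T hT hsub t ht
        apply hmax (f t.1) t.2
        intro q hq hne
        obtain ⟨v, rfl⟩ := hs (hQs hq)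
        have hv : (⟨v, hQs hq⟩ : f ⁻¹' s) ∈ T := hsub hq
        have hne' : t ≠ ⟨v, hQs hq⟩ := by
          rintro rfl
          exact hne rfl
        have h1 := hT ht hv hne'
        exact (hR _ _ (fun h => hne' (Subtype.ext h))).1 h1
    by_contra hcon
    push Not at hcon
    obtain ⟨vx, rfl⟩ := hs (hQs hx)
    obtain ⟨vy, rfl⟩ := hs (hQs hy)
    refine hc _ hQ' ⟨⟨vx, hQs hx⟩, hx, ⟨vy, hQs hy⟩, hy, fun h => hxy (by
      have := congrArg (fun z : (f ⁻¹' s) => f z.1) h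
      exact this)⟩ ⟨c ⟨vx, hQs hx⟩, ?_⟩
    rintro ⟨v, hv⟩ hvQ
    have h1 := hcon (f v) hvQ (f vx) hx
    rw [hcol v hv, hcol vx (hQs hx)] at h1
    rw [decide_eq_decide] at h1
    have e1 := Fin.exists_fin_two.1 ⟨c ⟨v, hv⟩, rfl⟩
    have e2 := Fin.exists_fin_two.1 ⟨c ⟨vx, hQs hx⟩, rfl⟩
    rcases e1 with e1 | e1 <;> rcases e2 with e2 | e2 <;> rw [e1, e2] at h1 ⊢ <;> simp at h1
  · intro h s
    obtain ⟨c, hc⟩ := h (f '' s) (by rintro _ ⟨a, _, rfl⟩; exact ⟨a, rfl⟩)
    refine ⟨fun v => if c (f v.1) then 0 else 1, ?_⟩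
    rintro Q hQ ⟨x, hx, y, hy, hxy⟩ ⟨i, hi⟩
    obtain ⟨u, hu, w, hw, huw⟩ := hc ((fun v : s => f v.1) '' Q) (by
        rintro _ ⟨a, _, rfl⟩; exact ⟨a.1, a.2, rfl⟩) (by
        rintro _ ⟨a, ha, rfl⟩ _ ⟨b, hb, rfl⟩ hab
        have hne : a ≠ b := fun h => hab (by rw [h])
        have h1 : G.Adj a.1 b.1 := hQ.1 ha hb hne
        exact (hR _ _ (fun h => hne (Subtype.ext h))).1 h1) (by
        rintro _ ⟨v, hv, rfl⟩ hq
        have h1 : (G.induce s).IsClique (insert ⟨v, hv⟩ Q) := by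
          intro a ha b hb hab
          rcases ha with rfl | ha <;> rcases hb with rfl | hb
          · exact absurd rfl hab
          · have hne : v ≠ b.1 := fun h => hab (Subtype.ext h)
            exact (hR _ _ hne).2 (hq _ ⟨b, hb, rfl⟩ (fun h => hne (hf h)))
          · have hne : v ≠ a.1 := fun h => hab (Subtype.ext h.symm)
            exact ((hR _ _ hne).2 (hq _ ⟨a, ha, rfl⟩ (fun h => hne (hf h)))).symm
          · exact hQ.1 ha hb hab
        exact ⟨⟨v, hv⟩, hQ.2 h1 (Set.subset_insert _ _) (Set.mem_insert _ _), rfl⟩)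
      ⟨f x.1, ⟨x, hx, rfl⟩, f y.1, ⟨y, hy, rfl⟩, fun h => hxy (Subtype.ext (hf h))⟩
    obtain ⟨a, ha, rfl⟩ := hu
    obtain ⟨b, hb, rfl⟩ := hw
    have h1 := (hi a ha).trans (hi b hb).symm
    simp only at h1
    cases hca : c (f a.1) <;> cases hcb : c (f b.1) <;> rw [hca, hcb] at h1 huw <;> simp at h1 huw

end Pool.Agent.H622R2
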