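import Pool.Agent.H622R2.StrongDiv
import Pool.Agent.H622R2.Base

/-!
# Strongly divisible graphs: the graph of a formula
-/

namespace Pool.Agent.H622R2

/-- Labels of the main vertices: kind, index, clause, literal. -/
abbrev L0 := ℕ × ℕ × Cl3 × Lit

/-- The main label of kind `0`. -/
def vA (i : ℕ) : L0 := (0, i, ((true, 0), (true, 0), (true, 0)), (true, 0))
/-- The main label of kind `1`. -/
def vB (j : ℕ) (c : Cl3) : L0 := (1, j, c, (true, 0))
/-- The main label of kind `2`. -/
def vE : L0 := (2, 0, ((true, 0), (true, 0), (true, 0)), (true, 0))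
/-- The main label of kind `3`. -/
def vL (l : Lit) : L0 := (3, 0, ((true, 0), (true, 0), (true, 0)), l)

/-- The literal occurs in the clause. -/
def inCl (l : Lit) (c : Cl3) : Prop := l = c.1 ∨ l = c.2.1 ∨ l = c.2.2

instance (l : Lit) (c : Cl3) : Decidable (inCl l c) :=
  inferInstanceAs (Decidable (l = c.1 ∨ l = c.2.1 ∨ l = c.2.2))

/-- Half of the adjacency of main labels. -/
def half0 (u v : L0) : Bool :=
  decide ((u.1 = 0 ∧ v.1 = 0 ∧ u.2.1 ≠ v.2.1) ∨ (u.1 = 0 ∧ v.1 = 1) ∨
    (u.1 = 0 ∧ v.1 = 2 ∧ u.2.1 ≠ 0) ∨ (u.1 = 0 ∧ v.1 = 3) ∨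
    (u.1 = 1 ∧ v.1 = 3 ∧ ¬ inCl v.2.2.2 u.2.2.1) ∨ (u.1 = 2 ∧ v.1 = 3) ∨
    (u.1 = 3 ∧ v.1 = 3 ∧ u.2.2.2.2 ≠ v.2.2.2.2))

/-- Adjacency of main labels. -/
def R0 (u v : L0) : Prop := half0 u v = true ∨ half0 v u = true

theorem R0_symm {u v : L0} (h : R0 u v) : R0 v u := h.symm

theorem R0_AA (i j : ℕ) : R0 (vA i) (vA j) ↔ i ≠ j := by
  simp [R0, half0, vA, ne_comm]
theorem R0_AB (i j : ℕ) (c : Cl3) : R0 (vA i) (vB j c) := by simp [R0, half0, vA, vB]
theorem R0_AE (i : ℕ) : R0 (vA i) vE ↔ i ≠ 0 := by simp [R0, half0, vA, vE]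
theorem R0_AL (i : ℕ) (l : Lit) : R0 (vA i) (vL l) := by simp [R0, half0, vA, vL]
theorem R0_BB (i j : ℕ) (c d : Cl3) : ¬ R0 (vB i c) (vB j d) := by simp [R0, half0, vB]
theorem R0_BE (i : ℕ) (c : Cl3) : ¬ R0 (vB i c) vE := by simp [R0, half0, vB, vE]
theorem R0_BL (i : ℕ) (c : Cl3) (l : Lit) : R0 (vB i c) (vL l) ↔ ¬ inCl l c := by
  simp [R0, half0, vB, vL]
theorem R0_EL (l : Lit) : R0 vE (vL l) := by simp [R0, half0, vE, vL]
theorem R0_LL (l l' : Lit) : R0 (vL l) (vL l') ↔ l.2 ≠ l'.2 := by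
  simp [R0, half0, vL, ne_comm]

theorem vA_inj {i j : ℕ} : vA i = vA j ↔ i = j := by simp [vA]
theorem vL_inj {i j : Lit} : vL i = vL j ↔ i = j := by simp [vL]
theorem vA_ne_vB (i j : ℕ) (c : Cl3) : vA i ≠ vB j c := by simp [vA, vB]
theorem vA_ne_vE (i : ℕ) : vA i ≠ vE := by simp [vA, vE]
theorem vA_ne_vL (i : ℕ) (l : Lit) : vA i ≠ vL l := by simp [vA, vL]
theorem vB_ne_vE (i : ℕ) (c : Cl3) : vB i c ≠ vE := by simp [vB, vE]
theorem vB_ne_vL (i : ℕ) (c : Cl3) (l : Lit) : vB i c ≠ vL l := by simp [vB, vL]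
theorem vE_ne_vL (l : Lit) : vE ≠ vL l := by simp [vE, vL]

/-- Labels of all vertices: main labels, and two labels for each link. -/
abbrev LL := L0 ⊕ (L0 × L0 × Bool)

/-- Half of the adjacency of labels. -/
def halfL : LL → LL → Bool
  | Sum.inl u, Sum.inl v => half0 u v
  | Sum.inl u, Sum.inr p => bif p.2.2 then decide (u = p.2.1) else decide (u = p.1)
  | Sum.inr _, Sum.inl _ => false
  | Sum.inr p, Sum.inr q => decide (p.1 = q.1) && decide (p.2.1 = q.2.1) &&
      decide (p.2.2 ≠ q.2.2)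

/-- Adjacency of labels. -/
def RL (x y : LL) : Prop := halfL x y = true ∨ halfL y x = true

theorem RL_symm {x y : LL} (h : RL x y) : RL y x := h.symm

theorem RL_ll (u v : L0) : RL (Sum.inl u) (Sum.inl v) ↔ R0 u v := Iff.rfl

theorem RL_lf (u p q : L0) : RL (Sum.inl u) (Sum.inr (p, q, false)) ↔ u = p := by
  simp [RL, halfL]

theorem RL_lt (u p q : L0) : RL (Sum.inl u) (Sum.inr (p, q, true)) ↔ u = q := by
  simp [RL, halfL]

theorem RL_rr (p q p' q' : L0) (b b' : Bool) :
    RL (Sum.inr (p, q, b)) (Sum.inr (p', q', b')) ↔ p = p' ∧ q = q' ∧ b ≠ b' := by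
  simp only [RL, halfL, Bool.and_eq_true, decide_eq_true_eq]
  constructor
  · rintro (⟨⟨h1, h2⟩, h3⟩ | ⟨⟨h1, h2⟩, h3⟩)
    · exact ⟨h1, h2, h3⟩
    · exact ⟨h1.symm, h2.symm, h3.symm⟩
  · rintro ⟨h1, h2, h3⟩
    exact Or.inl ⟨⟨h1, h2⟩, h3⟩

/-- The main labels of the graph of a formula. -/
def M0 (m : ℕ) (cl : ℕ → Cl3) (vars : Set ℕ) (x : L0) : Prop :=
  (∃ i ≤ m, x = vA i) ∨ (∃ j < m, x = vB j (cl j)) ∨ x = vE ∨ ∃ l : Lit, l.2 ∈ vars ∧ x = vL l

/-- The links. -/
def Lk (m : ℕ) (cl : ℕ → Cl3) (vars : Set ℕ) (u v : L0) : Prop :=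
  (∃ j < m, u = vA j ∧ v = vB j (cl j)) ∨ (∃ j < m, u = vB j (cl j) ∧ v = vA (j + 1)) ∨
    (u = vA m ∧ v = vE) ∨ ∃ l : Lit, l.2 ∈ vars ∧ u = vE ∧ v = vL l

/-- The labels of the graph of a formula. -/
def ValidL (m : ℕ) (cl : ℕ → Cl3) (vars : Set ℕ) : Set LL :=
  {x | match x with
    | Sum.inl u => M0 m cl vars u
    | Sum.inr p => Lk m cl vars p.1 p.2.1}

section Unsat

variable {m : ℕ} {cl : ℕ → Cl3} {vars : Set ℕ} {s : Set LL}

/-- Extension of a colouring from the main vertices. -/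
theorem good_of_main (chi : L0 → Bool)
    (h1 : ∀ u v, Sum.inl u ∈ s → Sum.inl v ∈ s → Sum.inr (u, v, false) ∈ s →
      Sum.inr (u, v, true) ∈ s → chi u ≠ chi v)
    (h2 : ∀ Q : Set L0, (∀ u ∈ Q, Sum.inl u ∈ s) → (∀ x ∈ Q, ∀ y ∈ Q, x ≠ y → R0 x y) →
      (∀ v, Sum.inl v ∈ s → (∀ q ∈ Q, v ≠ q → R0 v q) → v ∈ Q) → (∃ x ∈ Q, ∃ y ∈ Q, x ≠ y) →
      ∃ x ∈ Q, ∃ y ∈ Q, chi x ≠ chi y) :
    ∃ c : LL → Bool, GoodOn RL s c := by
  classical
  refine ⟨fun x => match x with
    | Sum.inl u => chi u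
    | Sum.inr p => if p.2.2 = false then
        (if Sum.inl p.1 ∈ s then !(chi p.1) else if Sum.inl p.2.1 ∈ s then chi p.2.1 else false)
        else (if Sum.inl p.2.1 ∈ s then !(chi p.2.1) else if Sum.inl p.1 ∈ s then chi p.1
          else true), ?_⟩
  intro Q hQs hQ hmax hnt
  by_cases hlink : ∃ p, Sum.inr p ∈ Q
  · obtain ⟨⟨u, v, b⟩, hp⟩ := hlink
    obtain ⟨x, hx, y, hy, hxy⟩ := hnt
    obtain ⟨q, hq, hqp⟩ : ∃ q ∈ Q, q ≠ Sum.inr (u, v, b) := by
      by_cases h : x = Sum.inr (u, v, b)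
      · exact ⟨y, hy, fun h' => hxy (h.trans h'.symm)⟩
      · exact ⟨x, hx, h⟩
    refine ⟨q, hq, Sum.inr (u, v, b), hp, ?_⟩
    have hR := hQ q hq _ hp hqp
    rcases q with w | ⟨u', v', b'⟩
    · cases b
      · rw [RL_lf] at hR
        subst hR
        have : Sum.inl w ∈ s := hQs hq
        simp [this]
      · rw [RL_lt] at hR
        subst hR
        have : Sum.inl w ∈ s := hQs hq
        simp [this]
    · rw [RL_rr] at hR
      obtain ⟨rfl, rfl, hb⟩ := hR
      have key : ∀ (hf : Sum.inr (u', v', false) ∈ s) (ht : Sum.inr (u', v', true) ∈ s),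
          (if Sum.inl u' ∈ s then !(chi u') else if Sum.inl v' ∈ s then chi v' else false) ≠
          (if Sum.inl v' ∈ s then !(chi v') else if Sum.inl u' ∈ s then chi u' else true) := by
        intro hf ht
        by_cases hu : Sum.inl u' ∈ s <;> by_cases hv : Sum.inl v' ∈ s
        · have := h1 u' v' hu hv hf ht
          simp only [hu, hv, if_true]
          cases h3 : chi u' <;> cases h4 : chi v' <;> rw [h3, h4] at this <;> simp at this ⊢
        · simp [hu, hv]
        · simp [hu, hv]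
        · simp [hu, hv]
      cases b <;> cases b'
      · exact absurd rfl hb
      · simpa using (key (hQs hp) (hQs hq)).symm
      · simpa using key (hQs hq) (hQs hp)
      · exact absurd rfl hb
  · push Not at hlink
    obtain ⟨x, hx, y, hy, hxy⟩ := h2 {u | Sum.inl u ∈ Q} (fun u hu => hQs hu)
      (fun x hx y hy hxy => (RL_ll _ _).1 (hQ _ hx _ hy (fun h => hxy (Sum.inl_injective h))))
      (fun v hv hq => hmax _ hv (by
        intro q hqQ hne
        rcases q with w | p
        · exact (RL_ll _ _).2 (hq w hqQ (fun h => hne (by rw [h])))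
        · exact absurd hqQ (hlink p))) (by
        obtain ⟨x, hx, y, hy, hxy⟩ := hnt
        rcases x with x | p
        · rcases y with y | q
          · exact ⟨x, hx, y, hy, fun h => hxy (by rw [h])⟩
          · exact absurd hy (hlink q)
        · exact absurd hx (hlink p))
    exact ⟨Sum.inl x, hx, Sum.inl y, hy, hxy⟩

/-- A colouring of the main labels by kinds. -/
def chiOf (fa fb : ℕ → Bool) (fe : Bool) (fl : Lit → Bool) (x : L0) : Bool :=
  if x.1 = 0 then fa x.2.1 else if x.1 = 1 then fb x.2.1 else if x.1 = 2 then fe else fl x.2.2.2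

@[simp] theorem chiOf_A (fa fb : ℕ → Bool) (fe : Bool) (fl : Lit → Bool) (i : ℕ) :
    chiOf fa fb fe fl (vA i) = fa i := rfl
@[simp] theorem chiOf_B (fa fb : ℕ → Bool) (fe : Bool) (fl : Lit → Bool) (i : ℕ) (c : Cl3) :
    chiOf fa fb fe fl (vB i c) = fb i := rfl
@[simp] theorem chiOf_E (fa fb : ℕ → Bool) (fe : Bool) (fl : Lit → Bool) :
    chiOf fa fb fe fl vE = fe := rfl
@[simp] theorem chiOf_L (fa fb : ℕ → Bool) (fe : Bool) (fl : Lit → Bool) (l : Lit) :
    chiOf fa fb fe fl (vL l) = fl l := rfl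

/-- Extension of a colouring by kinds. -/
theorem good_of_kinds (hs : s ⊆ ValidL m cl vars) (fa fb : ℕ → Bool) (fe : Bool)
    (fl : Lit → Bool)
    (e1 : ∀ j < m, Sum.inl (vA j) ∈ s → Sum.inl (vB j (cl j)) ∈ s →
      Sum.inr (vA j, vB j (cl j), false) ∈ s → Sum.inr (vA j, vB j (cl j), true) ∈ s →
      fa j ≠ fb j)
    (e2 : ∀ j < m, Sum.inl (vB j (cl j)) ∈ s → Sum.inl (vA (j + 1)) ∈ s →
      Sum.inr (vB j (cl j), vA (j + 1), false) ∈ s →
      Sum.inr (vB j (cl j), vA (j + 1), true) ∈ s → fb j ≠ fa (j + 1))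
    (e3 : Sum.inl (vA m) ∈ s → Sum.inl vE ∈ s → fa m ≠ fe)
    (e4 : ∀ l : Lit, Sum.inl vE ∈ s → Sum.inl (vL l) ∈ s → fe ≠ fl l)
    (h2 : ∀ Q : Set L0, (∀ u ∈ Q, Sum.inl u ∈ s) → (∀ x ∈ Q, ∀ y ∈ Q, x ≠ y → R0 x y) →
      (∀ v, Sum.inl v ∈ s → (∀ q ∈ Q, v ≠ q → R0 v q) → v ∈ Q) → (∃ x ∈ Q, ∃ y ∈ Q, x ≠ y) →
      (∀ x ∈ Q, ∀ y ∈ Q, chiOf fa fb fe fl x = chiOf fa fb fe fl y) → False) :
    ∃ c : LL → Bool, GoodOn RL s c := by
  refine good_of_main (chiOf fa fb fe fl) ?_ ?_
  · intro u v hu hv hf ht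
    have hL : Lk m cl vars u v := hs hf
    rcases hL with ⟨j, hj, rfl, rfl⟩ | ⟨j, hj, rfl, rfl⟩ | ⟨rfl, rfl⟩ | ⟨l, hl, rfl, rfl⟩
    · exact e1 j hj hu hv hf ht
    · exact e2 j hj hu hv hf ht
    · exact e3 hu hv
    · exact e4 l hu hv
  · intro Q hQs hQ hmax hnt
    by_contra hcon
    push Not at hcon
    exact h2 Q hQs hQ hmax hnt hcon

end Unsat

section Facts

variable {m : ℕ} {cl : ℕ → Cl3} {vars : Set ℕ} {s : Set LL} (hs : s ⊆ ValidL m cl vars)
  {Q : Set L0} (hQs : ∀ u ∈ Q, Sum.inl u ∈ s) (hQ : ∀ x ∈ Q, ∀ y ∈ Q, x ≠ y → R0 x y)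
  (hmax : ∀ v, Sum.inl v ∈ s → (∀ q ∈ Q, v ≠ q → R0 v q) → v ∈ Q)
  (hnt : ∃ x ∈ Q, ∃ y ∈ Q, x ≠ y)

include hs hQs in
theorem Q_valid {x : L0} (hx : x ∈ Q) : M0 m cl vars x := hs (hQs x hx)

include hs hQs hmax in
/-- The vertices `a_i`, `i ≥ 1`, are universal. -/
theorem A_mem {i : ℕ} (hi : i ≠ 0) (hp : Sum.inl (vA i) ∈ s) : vA i ∈ Q := by
  apply hmax _ hp
  intro q hq hne
  rcases Q_valid hs hQs hq with ⟨j, _, rfl⟩ | ⟨j, _, rfl⟩ | rfl | ⟨l, _, rfl⟩
  · rw [R0_AA]; rintro rfl; exact hne rfl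
  · exact R0_AB _ _ _
  · exact (R0_AE _).2 hi
  · exact R0_AL _ _

include hs hQs hmax in
theorem A0_mem_or (hp : Sum.inl (vA 0) ∈ s) : vA 0 ∈ Q ∨ vE ∈ Q := by
  by_cases hE : vE ∈ Q
  · exact Or.inr hE
  left
  apply hmax _ hp
  intro q hq hne
  rcases Q_valid hs hQs hq with ⟨j, _, rfl⟩ | ⟨j, _, rfl⟩ | rfl | ⟨l, _, rfl⟩
  · rw [R0_AA]; rintro rfl; exact hne rfl
  · exact R0_AB _ _ _
  · exact absurd hq hE
  · exact R0_AL _ _

include hs hQs hmax in
/-- A literal compatible with the clique belongs to it. -/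
theorem L_mem {l : Lit} (hp : Sum.inl (vL l) ∈ s) (h1 : ∀ l' : Lit, vL l' ∈ Q → l'.2 ≠ l.2)
    (h2 : ∀ j, vB j (cl j) ∈ Q → ¬ inCl l (cl j)) : vL l ∈ Q := by
  apply hmax _ hp
  intro q hq hne
  rcases Q_valid hs hQs hq with ⟨j, _, rfl⟩ | ⟨j, _, rfl⟩ | rfl | ⟨l', _, rfl⟩
  · exact R0_symm (R0_AL _ _)
  · exact R0_symm ((R0_BL _ _ _).2 (h2 _ hq))
  · exact R0_symm (R0_EL _)
  · exact (R0_LL _ _).2 (h1 _ hq).symm

include hs hQs hmax in
/-- A clause vertex compatible with the clique belongs to it. -/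
theorem B_mem {j : ℕ} (hp : Sum.inl (vB j (cl j)) ∈ s) (h1 : ∀ i, vB i (cl i) ∉ Q)
    (h2 : vE ∉ Q) (h3 : ∀ l : Lit, vL l ∈ Q → ¬ inCl l (cl j)) : vB j (cl j) ∈ Q := by
  apply hmax _ hp
  intro q hq hne
  rcases Q_valid hs hQs hq with ⟨i, _, rfl⟩ | ⟨i, _, rfl⟩ | rfl | ⟨l', _, rfl⟩
  · exact R0_symm (R0_AB _ _ _)
  · exact absurd hq (h1 _)
  · exact absurd hq h2
  · exact (R0_BL _ _ _).2 (h3 _ hq)

include hs hQs hmax in
theorem E_mem (hp : Sum.inl vE ∈ s) (h0 : vA 0 ∉ Q) (h1 : ∀ i, vB i (cl i) ∉ Q) : vE ∈ Q := by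
  apply hmax _ hp
  intro q hq hne
  rcases Q_valid hs hQs hq with ⟨i, _, rfl⟩ | ⟨i, _, rfl⟩ | rfl | ⟨l', _, rfl⟩
  · refine R0_symm ((R0_AE _).2 ?_)
    rintro rfl
    exact h0 hq
  · exact absurd hq (h1 _)
  · exact absurd rfl hne
  · exact R0_EL _

include hs hQs hQ hnt in
/-- The clique contains a vertex which is not a clause vertex and not the special vertex. -/
theorem exists_AL : (∃ i, vA i ∈ Q) ∨ ∃ l, vL l ∈ Q := by
  obtain ⟨x, hx, y, hy, hxy⟩ := hnt
  have hR := hQ x hx y hy hxy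
  rcases Q_valid hs hQs hx with ⟨i, _, rfl⟩ | ⟨i, _, rfl⟩ | rfl | ⟨l, _, rfl⟩
  · exact Or.inl ⟨_, hx⟩
  · rcases Q_valid hs hQs hy with ⟨j, _, rfl⟩ | ⟨j, _, rfl⟩ | rfl | ⟨l, _, rfl⟩
    · exact Or.inl ⟨_, hy⟩
    · exact absurd hR (R0_BB _ _ _ _)
    · exact absurd hR (R0_BE _ _)
    · exact Or.inr ⟨_, hy⟩
  · rcases Q_valid hs hQs hy with ⟨j, _, rfl⟩ | ⟨j, _, rfl⟩ | rfl | ⟨l, _, rfl⟩
    · exact Or.inl ⟨_, hy⟩
    · exact absurd (R0_symm hR) (R0_BE _ _)
    · exact absurd rfl hxy
    · exact Or.inr ⟨_, hy⟩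
  · exact Or.inr ⟨_, hx⟩

end Facts

section UnsatMain

variable {m : ℕ} {cl : ℕ → Cl3} {vars : Set ℕ} {s : Set LL} (hm : 0 < m)
  (hunsat : ∀ τ : ℕ → Bool, ∃ j < m, ∀ l, inCl l (cl j) → τ l.2 ≠ l.1)
  (hs : s ⊆ ValidL m cl vars)

include hs in
/-- The case where `a_0` is absent. -/
theorem good_case1 (h0 : Sum.inl (vA 0) ∉ s) : ∃ c : LL → Bool, GoodOn RL s c := by
  classical
  by_cases hE : Sum.inl vE ∈ s
  · -- the standard colouring
    refine good_of_kinds hs (fun _ => false) (fun _ => true) true (fun _ => false)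
      (by simp) (by simp) (by simp) (by simp) ?_
    intro Q hQs hQ hmax hnt hmono
    have hAL := exists_AL hs hQs hQ hnt
    obtain ⟨x, hx, hx0⟩ : ∃ x ∈ Q, chiOf (fun _ => false) (fun _ => true) true (fun _ => false) x
        = false := by
      rcases hAL with ⟨i, hi⟩ | ⟨l, hl⟩
      · exact ⟨_, hi, rfl⟩
      · exact ⟨_, hl, rfl⟩
    have hB : ∀ i, vB i (cl i) ∉ Q := by
      intro i hi
      have := hmono _ hi _ hx
      rw [hx0] at this
      simp at this
    have := E_mem hs hQs hmax hE (fun h => h0 (hQs _ h)) hB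
    have := hmono _ this _ hx
    rw [hx0] at this
    simp at this
  · by_cases hl : ∃ l : Lit, Sum.inl (vL l) ∈ s
    · obtain ⟨y, hy⟩ := hl
      by_cases hA : ∃ i, Sum.inl (vA i) ∈ s
      · obtain ⟨i, hi⟩ := hA
        have hi0 : i ≠ 0 := by rintro rfl; exact h0 hi
        refine good_of_kinds hs (fun _ => false) (fun _ => true) true
          (fun l => decide (l.2 = y.2)) (by simp) (by simp) (by simp)
          (fun _ h => absurd h hE) ?_
        intro Q hQs hQ hmax hnt hmono
        have hAi := A_mem hs hQs hmax hi0 hi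
        have hB : ∀ i, vB i (cl i) ∉ Q := by
          intro i hi
          have := hmono _ hi _ hAi
          simp at this
        have hL : ∀ l' : Lit, vL l' ∈ Q → l'.2 ≠ y.2 := by
          intro l' hl' h
          have := hmono _ hl' _ hAi
          simp [h] at this
        have := L_mem hs hQs hmax hy hL (fun j hj => absurd hj (hB j))
        exact hL _ this rfl
      · push Not at hA
        refine good_of_kinds hs (fun _ => false)
          (fun j => decide (∀ l : Lit, l.2 = y.2 → Sum.inl (vL l) ∈ s → inCl l (cl j))) true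
          (fun l => decide (l.2 = y.2)) (fun j _ h => absurd h (hA j))
          (fun j _ _ h => absurd h (hA _)) (fun h => absurd h (hA m))
          (fun _ h => absurd h hE) ?_
        intro Q hQs hQ hmax hnt hmono
        obtain ⟨l0, hl0⟩ : ∃ l, vL l ∈ Q := by
          rcases exists_AL hs hQs hQ hnt with ⟨i, hi⟩ | h
          · exact absurd (hQs _ hi) (hA i)
          · exact h
        by_cases hl0y : l0.2 = y.2
        · -- colour `1`
          obtain ⟨x, hx, hxl⟩ : ∃ x ∈ Q, x ≠ vL l0 := by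
            obtain ⟨x, hx, z, hz, hxz⟩ := hnt
            by_cases h : x = vL l0
            · exact ⟨z, hz, fun h' => hxz (h.trans h'.symm)⟩
            · exact ⟨x, hx, h⟩
          have hR := hQ _ hx _ hl0 hxl
          have hc := hmono _ hx _ hl0
          rcases Q_valid hs hQs hx with ⟨j, _, rfl⟩ | ⟨j, _, rfl⟩ | rfl | ⟨l, _, rfl⟩
          · exact absurd (hQs _ hx) (hA j)
          · simp only [chiOf_B, chiOf_L, hl0y, decide_true, decide_eq_true_eq] at hc
            exact ((R0_BL _ _ _).1 hR) (hc l0 hl0y (hQs _ hl0))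
          · exact absurd (hQs _ hx) hE
          · simp only [chiOf_L, hl0y, decide_true, decide_eq_true_eq] at hc
            exact ((R0_LL _ _).1 hR) (hc.trans hl0y.symm)
        · -- colour `0`
          have hc0 : ∀ x ∈ Q, chiOf (fun _ => false) (fun j => decide (∀ l : Lit, l.2 = y.2 →
              Sum.inl (vL l) ∈ s → inCl l (cl j))) true (fun l => decide (l.2 = y.2)) x = false :=
            fun x hx => (hmono _ hx _ hl0).trans (by simp [hl0y])
          have hLy : ∀ l' : Lit, vL l' ∈ Q → l'.2 ≠ y.2 := by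
            intro l' hl' h
            have := hc0 _ hl'
            simp [h] at this
          by_cases hBQ : ∃ j, vB j (cl j) ∈ Q
          · obtain ⟨j, hj⟩ := hBQ
            have := hc0 _ hj
            simp only [chiOf_B, decide_eq_false_iff_not] at this
            push Not at this
            obtain ⟨l, hly, hls, hlc⟩ := this
            have hmem := L_mem hs hQs hmax hls (fun l' hl' => by rw [hly]; exact hLy l' hl')
              (by
                intro i hi
                have : vB i (cl i) = vB j (cl j) := by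
                  by_contra hne
                  exact absurd (hQ _ hi _ hj hne) (R0_BB _ _ _ _)
                simp only [vB, Prod.mk.injEq, true_and, and_true] at this
                rw [this.2]
                exact hlc)
            exact hLy _ hmem hly
          · push Not at hBQ
            have hmem := L_mem hs hQs hmax hy hLy (fun j hj => absurd hj (hBQ j))
            exact hLy _ hmem rfl
    · push Not at hl
      by_cases hB : ∃ j, Sum.inl (vB j (cl j)) ∈ s
      · obtain ⟨j, hj⟩ := hB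
        refine good_of_kinds hs (fun _ => false) (fun _ => true) true (fun _ => true)
          (by simp) (by simp) (by simp) (fun _ h => absurd h hE) ?_
        intro Q hQs hQ hmax hnt hmono
        obtain ⟨i, hi⟩ : ∃ i, vA i ∈ Q := by
          rcases exists_AL hs hQs hQ hnt with h | ⟨l, hl'⟩
          · exact h
          · exact absurd (hQs _ hl') (hl l)
        have hBQ : ∀ i, vB i (cl i) ∉ Q := by
          intro k hk
          have := hmono _ hk _ hi
          simp at this
        exact hBQ j (B_mem hs hQs hmax hj hBQ (fun h => hE (hQs _ h))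
          (fun l hl' => absurd (hQs _ hl') (hl l)))
      · push Not at hB
        -- only vertices `a_i`
        by_cases hA : ∃ i, Sum.inl (vA i) ∈ s
        · obtain ⟨i, hi⟩ := hA
          have hi0 : i ≠ 0 := by rintro rfl; exact h0 hi
          refine good_of_kinds hs (fun k => decide (k = i)) (fun _ => true) true (fun _ => true)
            (fun j _ _ h => absurd h (hB j)) (fun j _ h => absurd h (hB j))
            (fun _ h => absurd h hE) (fun _ h => absurd h hE) ?_
          intro Q hQs hQ hmax hnt hmono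
          have hAi := A_mem hs hQs hmax hi0 hi
          obtain ⟨x, hx, hxi⟩ : ∃ x ∈ Q, x ≠ vA i := by
            obtain ⟨x, hx, z, hz, hxz⟩ := hnt
            by_cases h : x = vA i
            · exact ⟨z, hz, fun h' => hxz (h.trans h'.symm)⟩
            · exact ⟨x, hx, h⟩
          have hc := hmono _ hx _ hAi
          rcases Q_valid hs hQs hx with ⟨j, _, rfl⟩ | ⟨j, _, rfl⟩ | rfl | ⟨l, _, rfl⟩
          · simp only [chiOf_A, decide_true, decide_eq_true_eq] at hc
            exact hxi (by rw [hc])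
          · exact hB j (hQs _ hx)
          · exact hE (hQs _ hx)
          · exact hl l (hQs _ hx)
        · push Not at hA
          refine good_of_kinds hs (fun _ => false) (fun _ => true) true (fun _ => true)
            (fun j _ _ h => absurd h (hB j)) (fun j _ h => absurd h (hB j))
            (fun _ h => absurd h hE) (fun _ h => absurd h hE) ?_
          intro Q hQs hQ hmax hnt hmono
          rcases exists_AL hs hQs hQ hnt with ⟨i, hi⟩ | ⟨l, hl'⟩
          · exact hA i (hQs _ hi)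
          · exact hl l (hQs _ hl')

include hs hm hunsat in
/-- The case where `a_0` is present. -/
theorem good_case2 (h0 : Sum.inl (vA 0) ∈ s) : ∃ c : LL → Bool, GoodOn RL s c := by
  classical
  by_cases hA : ∃ i, i ≠ 0 ∧ Sum.inl (vA i) ∈ s
  swap
  · -- no other `a_i`
    push Not at hA
    refine good_of_kinds hs (fun _ => false) (fun _ => true) false (fun _ => true)
      (by simp) (by simp) (fun h => absurd h (hA m (by omega))) (by simp) ?_
    intro Q hQs hQ hmax hnt hmono
    by_cases hA0 : vA 0 ∈ Q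
    · -- everything else has colour `1`
      obtain ⟨x, hx, hxi⟩ : ∃ x ∈ Q, x ≠ vA 0 := by
        obtain ⟨x, hx, z, hz, hxz⟩ := hnt
        by_cases h : x = vA 0
        · exact ⟨z, hz, fun h' => hxz (h.trans h'.symm)⟩
        · exact ⟨x, hx, h⟩
      have hc := hmono _ hx _ hA0
      rcases Q_valid hs hQs hx with ⟨j, _, rfl⟩ | ⟨j, _, rfl⟩ | rfl | ⟨l, _, rfl⟩
      · by_cases hj : j = 0
        · exact hxi (by rw [hj])
        · exact hA j hj (hQs _ hx)
      · simp at hc
      · exact ((R0_AE 0).1 (hQ _ hA0 _ hx (vA_ne_vE 0))) rfl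
      · simp at hc
    · rcases A0_mem_or hs hQs hmax h0 with h | hE
      · exact hA0 h
      · rcases exists_AL hs hQs hQ hnt with ⟨i, hi⟩ | ⟨l, hl⟩
        · by_cases hi0 : i = 0
          · subst hi0; exact hA0 hi
          · exact hA i hi0 (hQs _ hi)
        · have := hmono _ hE _ hl
          simp at this
  -- activity of the two links at `b_j`, and reachability along the chain
  set act1 : ℕ → Prop := fun j => Sum.inl (vA j) ∈ s ∧ Sum.inl (vB j (cl j)) ∈ s ∧
      Sum.inr (vA j, vB j (cl j), false) ∈ s ∧ Sum.inr (vA j, vB j (cl j), true) ∈ s with hact1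
  set act2 : ℕ → Prop := fun j => Sum.inl (vB j (cl j)) ∈ s ∧ Sum.inl (vA (j + 1)) ∈ s ∧
      Sum.inr (vB j (cl j), vA (j + 1), false) ∈ s ∧
      Sum.inr (vB j (cl j), vA (j + 1), true) ∈ s with hact2
  set reach : ℕ → Prop := fun i => ∀ j < i, act1 j ∧ act2 j with hreach
  by_cases hnr : ∃ i, i ≠ 0 ∧ Sum.inl (vA i) ∈ s ∧ ¬ reach i
  · obtain ⟨i, hi0, his, hir⟩ := hnr
    have him : i ≤ m := by
      rcases hs his with ⟨k, hk, h⟩ | ⟨k, hk, h⟩ | h | ⟨k, hk, h⟩
      · rw [vA_inj.1 h]; exact hk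
      · exact absurd h (vA_ne_vB _ _ _)
      · exact absurd h (vA_ne_vE _)
      · exact absurd h (vA_ne_vL _ _)
    refine good_of_kinds hs (fun k => decide (reach k))
      (fun j => !(decide (reach j ∧ act1 j))) true (fun _ => false) ?_ ?_ ?_ (by simp) ?_
    · intro j _ g1 g2 g3 g4
      have : act1 j := ⟨g1, g2, g3, g4⟩
      by_cases hr : reach j <;> simp [hr, this]
    · intro j _ g1 g2 g3 g4
      have h2 : act2 j := ⟨g1, g2, g3, g4⟩
      have : reach (j + 1) ↔ reach j ∧ act1 j := by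
        constructor
        · intro h
          exact ⟨fun k hk => h k (by omega), (h j (by omega)).1⟩
        · rintro ⟨h3, h4⟩ k hk
          by_cases hkj : k = j
          · subst hkj; exact ⟨h4, h2⟩
          · exact h3 k (by omega)
      by_cases hr : reach j ∧ act1 j
      · simp [hr, this.2 hr]
      · simp [hr, mt this.1 hr]
    · intro _ _
      have : ¬ reach m := fun h => hir (fun j hj => h j (by omega))
      simp [this]
    · intro Q hQs hQ hmax hnt hmono
      have hAi := A_mem hs hQs hmax hi0 his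
      have hr0 : reach 0 := fun j hj => absurd hj (by omega)
      rcases A0_mem_or hs hQs hmax h0 with h | hE
      · have := hmono _ h _ hAi
        simp [hr0, hir] at this
      · have := hmono _ hE _ hAi
        simp [hir] at this
  · push Not at hnr
    obtain ⟨i, hi0, his⟩ := hA
    have hir := hnr i hi0 his
    by_cases hAm : Sum.inl (vA m) ∈ s
    · -- the whole chain up to `a_m` is present
      have hrm := hnr m (by omega) hAm
      refine good_of_kinds hs (fun _ => false) (fun _ => true) true (fun _ => false)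
        (by simp) (by simp) (by simp) (by simp) ?_
      intro Q hQs hQ hmax hnt hmono
      have hAi := A_mem hs hQs hmax hi0 his
      have hB : ∀ i, vB i (cl i) ∉ Q := by
        intro i hi
        have := hmono _ hi _ hAi
        simp at this
      have hE : vE ∉ Q := by
        intro hi
        have := hmono _ hi _ hAi
        simp at this
      obtain ⟨j, hj, hjτ⟩ := hunsat (fun x => decide (vL (true, x) ∈ Q))
      have hBj : Sum.inl (vB j (cl j)) ∈ s := (hrm j hj).1.2.1
      refine hB j (B_mem hs hQs hmax hBj hB hE ?_)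
      intro l hl hlc
      apply hjτ l hlc
      obtain ⟨b, x⟩ := l
      cases b
      · simp only [decide_eq_false_iff_not]
        intro h
        have := hQ _ hl _ h (by simp [vL])
        exact ((R0_LL _ _).1 this) rfl
      · simpa using hl
    · -- the link to the special vertex is broken
      have hb0 : Sum.inl (vB 0 (cl 0)) ∈ s := (hir 0 (by omega)).1.2.1
      by_cases hl : ∃ l : Lit, Sum.inl (vL l) ∈ s
      · obtain ⟨l, hl⟩ := hl
        refine good_of_kinds hs (fun _ => false) (fun _ => true) false (fun _ => true)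
          (by simp) (by simp) (fun h => absurd h hAm) (by simp) ?_
        intro Q hQs hQ hmax hnt hmono
        have hAi := A_mem hs hQs hmax hi0 his
        have hB : ∀ i, vB i (cl i) ∉ Q := by
          intro i hi
          have := hmono _ hi _ hAi
          simp at this
        have hL : ∀ l', vL l' ∉ Q := by
          intro i hi
          have := hmono _ hi _ hAi
          simp at this
        exact hL l (L_mem hs hQs hmax hl (fun l' hl' => absurd hl' (hL l'))
          (fun j hj => absurd hj (hB j)))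
      · push Not at hl
        refine good_of_kinds hs (fun _ => false) (fun _ => true) true (fun _ => false)
          (by simp) (by simp) (fun h => absurd h hAm) (by simp) ?_
        intro Q hQs hQ hmax hnt hmono
        have hAi := A_mem hs hQs hmax hi0 his
        have hB : ∀ i, vB i (cl i) ∉ Q := by
          intro i hi
          have := hmono _ hi _ hAi
          simp at this
        have hE : vE ∉ Q := by
          intro hi
          have := hmono _ hi _ hAi
          simp at this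
        exact hB 0 (B_mem hs hQs hmax hb0 hB hE (fun l' hl' => absurd (hQs _ hl') (hl l')))

include hs hm hunsat in
/-- If the formula is unsatisfiable, every induced subgraph is `2`-clique-colourable. -/
theorem good_of_unsat : ∃ c : LL → Bool, GoodOn RL s c := by
  by_cases h0 : Sum.inl (vA 0) ∈ s
  · exact good_case2 hm hunsat hs h0
  · exact good_case1 hs h0

end UnsatMain

end Pool.Agent.H622R2
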